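import Mathlib

set_option autoImplicit false

namespace Pool.Agent.N466.Pl

open Set Relation

/-- adjacency with a scale that depends on the distance from the origin -/
def Adj (τ : ℝ → ℝ) (u v : ℂ) : Prop := ‖u - v‖ < τ (max ‖u‖ ‖v‖)

structure Scale (τ : ℝ → ℝ) : Prop where
  pos : ∀ r, 0 < τ r
  anti : Antitone τ
  le : ∀ r, τ r ≤ 1 / 20

variable {τ : ℝ → ℝ}

lemma Adj.symm {u v : ℂ} (h : Adj τ u v) : Adj τ v u := by
  unfold Adj at *
  rwa [norm_sub_rev, max_comm]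

lemma Adj.refl (hτ : Scale τ) (u : ℂ) : Adj τ u u := by
  unfold Adj
  simpa using hτ.pos _

lemma Adj.lt' (hτ : Scale τ) {u v : ℂ} (h : Adj τ u v) : ‖u - v‖ < 1 / 20 :=
  lt_of_lt_of_le h (hτ.le _)

lemma Adj.lt (hτ : Scale τ) {u v : ℂ} (h : Adj τ u v) : ‖u - v‖ < 1 / 10 := by
  linarith [h.lt' hτ]

lemma Adj.of_lt (hτ : Scale τ) {u v : ℂ} {R : ℝ} (hu : ‖u‖ ≤ R) (hv : ‖v‖ ≤ R)
    (h : ‖u - v‖ < τ R) : Adj τ u v :=
  lt_of_lt_of_le h (hτ.anti (max_le hu hv))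

/-- reachability inside `S` -/
def Reach (τ : ℝ → ℝ) (S : Set ℂ) : ℂ → ℂ → Prop :=
  ReflTransGen (fun a b => a ∈ S ∧ b ∈ S ∧ Adj τ a b)

lemma Reach.refl (S : Set ℂ) (u : ℂ) : Reach τ S u u := ReflTransGen.refl

lemma Reach.trans {S : Set ℂ} {u v w : ℂ} (h : Reach τ S u v) (h' : Reach τ S v w) :
    Reach τ S u w := ReflTransGen.trans h h'

lemma Reach.symm {S : Set ℂ} {u v : ℂ} (h : Reach τ S u v) : Reach τ S v u := by
  induction h with
  | refl => exact Reach.refl _ _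
  | tail _ h2 ih => exact (ReflTransGen.single ⟨h2.2.1, h2.1, h2.2.2.symm⟩).trans ih

lemma Reach.step {S : Set ℂ} {u v : ℂ} (hu : u ∈ S) (hv : v ∈ S) (h : Adj τ u v) :
    Reach τ S u v := ReflTransGen.single ⟨hu, hv, h⟩

lemma Reach.mono {S T : Set ℂ} (hST : S ⊆ T) {u v : ℂ} (h : Reach τ S u v) : Reach τ T u v := by
  induction h with
  | refl => exact Reach.refl _ _
  | tail _ h2 ih => exact ReflTransGen.tail ih ⟨hST h2.1, hST h2.2.1, h2.2.2⟩

lemma Reach.mem {S : Set ℂ} {u v : ℂ} (h : Reach τ S u v) (hu : u ∈ S) : v ∈ S := by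
  induction h with
  | refl => exact hu
  | tail _ h2 _ => exact h2.2.1

/-- chain connected sets -/
def Conn (τ : ℝ → ℝ) (S : Set ℂ) : Prop := ∀ u ∈ S, ∀ v ∈ S, Reach τ S u v

lemma conn_of_preconnected (hτ : Scale τ) {S : Set ℂ} (hS : IsPreconnected S) : Conn τ S := by
  intro u hu v hv
  refine IsPreconnected.induction₂ hS (fun a b => Reach τ S a b) ?_ ?_ ?_ hu hv
  · intro x hx
    have h1 : 0 < min 1 (τ (‖x‖ + 1)) := lt_min one_pos (hτ.pos _)
    have h2 : ∀ᶠ y in nhdsWithin x S, dist y x < min 1 (τ (‖x‖ + 1)) :=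
      mem_nhdsWithin_of_mem_nhds (Metric.ball_mem_nhds x h1)
    have h3 : ∀ᶠ y in nhdsWithin x S, y ∈ S := self_mem_nhdsWithin
    filter_upwards [h2, h3] with y hy hyS
    refine Reach.step hx hyS ?_
    rw [dist_eq_norm, norm_sub_rev] at hy
    have h4 : ‖x - y‖ < 1 := lt_of_lt_of_le hy (min_le_left _ _)
    have h5 : ‖x - y‖ < τ (‖x‖ + 1) := lt_of_lt_of_le hy (min_le_right _ _)
    refine Adj.of_lt hτ (by linarith) ?_ h5
    have h6 : ‖y‖ ≤ ‖x‖ + ‖y - x‖ := by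
      have := norm_add_le x (y - x)
      simpa using this
    rw [norm_sub_rev] at h6
    linarith
  · intro x y z _ _ _ h1 h2
    exact h1.trans h2
  · intro x y _ _ h
    exact h.symm

lemma conn_univ (hτ : Scale τ) : Conn τ (univ : Set ℂ) :=
  conn_of_preconnected hτ isPreconnected_univ

lemma conn_ball (hτ : Scale τ) (z : ℂ) (r : ℝ) : Conn τ {v : ℂ | ‖v - z‖ < r} := by
  apply conn_of_preconnected hτ
  have : {v : ℂ | ‖v - z‖ < r} = Metric.ball z r := by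
    ext v; simp [dist_eq_norm]
  rw [this]
  exact (convex_ball z r).isPreconnected

lemma conn_far (hτ : Scale τ) (z : ℂ) {r : ℝ} (hr : 0 ≤ r) : Conn τ {v : ℂ | r ≤ ‖v - z‖} := by
  apply conn_of_preconnected hτ
  have h1 : {v : ℂ | r ≤ ‖v - z‖} =
      (fun p : ℝ × ℝ => z + (p.1 : ℂ) * Complex.exp (p.2 * Complex.I)) '' (Ici r ×ˢ univ) := by
    ext v
    simp only [mem_ofPred_eq, mem_image, mem_prod, mem_Ici, mem_univ, and_true, Prod.exists]
    constructor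
    · intro h
      refine ⟨‖v - z‖, (v - z).arg, h, ?_⟩
      have := Complex.norm_mul_exp_arg_mul_I (v - z)
      rw [this]; ring
    · rintro ⟨a, b, ha, rfl⟩
      have : ‖(a : ℂ) * Complex.exp (b * Complex.I)‖ = |a| := by
        rw [norm_mul, Complex.norm_exp_ofReal_mul_I, mul_one, Complex.norm_real, Real.norm_eq_abs]
      rw [add_sub_cancel_left, this, abs_of_nonneg (le_trans hr ha)]
      exact ha
  rw [h1]
  apply IsPreconnected.image
  · exact IsPreconnected.prod isPreconnected_Ici isPreconnected_univ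
  · apply Continuous.continuousOn
    fun_prop

/-- the boundary vertices outside `X` -/
def Bd (τ : ℝ → ℝ) (X : Set ℂ) : Set ℂ := {v | v ∉ X ∧ ∃ u ∈ X, Adj τ u v}

/-- the component of `p` in `S` -/
def Comp (τ : ℝ → ℝ) (S : Set ℂ) (p : ℂ) : Set ℂ := {v | v ∈ S ∧ Reach τ S p v}

lemma Comp.subset (S : Set ℂ) (p : ℂ) : Comp τ S p ⊆ S := fun _ h => h.1

lemma Comp.self {S : Set ℂ} {p : ℂ} (hp : p ∈ S) : p ∈ Comp τ S p := ⟨hp, Reach.refl _ _⟩

lemma Comp.closed {S : Set ℂ} {p u v : ℂ} (hu : u ∈ Comp τ S p) (hv : v ∈ S) (h : Adj τ u v) :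
    v ∈ Comp τ S p := ⟨hv, hu.2.trans (Reach.step hu.1 hv h)⟩

lemma Comp.reach {S : Set ℂ} {p v : ℂ} (hv : Reach τ S p v) :
    Reach τ (Comp τ S p) p v := by
  induction hv with
  | refl => exact Reach.refl _ _
  | @tail b c hb hc ih =>
    exact ih.trans (Reach.step ⟨hc.1, hb⟩ ⟨hc.2.1, ReflTransGen.tail hb hc⟩ hc.2.2)

lemma Comp.conn (S : Set ℂ) (p : ℂ) : Conn τ (Comp τ S p) := by
  intro u hu v hv
  exact (Comp.reach hu.2).symm.trans (Comp.reach hv.2)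

/-- a connected set meeting a component lies in it -/
lemma Comp.of_conn {S T : Set ℂ} {p u v : ℂ} (hT : Conn τ T) (hTS : T ⊆ S) (hu : u ∈ T)
    (hu' : u ∈ Comp τ S p) (hv : v ∈ T) : v ∈ Comp τ S p :=
  ⟨hTS hv, hu'.2.trans ((hT u hu v hv).mono hTS)⟩

lemma conn_union_bd {X Y : Set ℂ} (hX : Conn τ X) (hY : ∀ v ∈ Y, ∃ u ∈ X, Reach τ (X ∪ Y) u v) :
    Conn τ (X ∪ Y) := by
  have key : ∀ v ∈ X ∪ Y, ∃ u ∈ X, Reach τ (X ∪ Y) u v := by
    rintro v (hv | hv)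
    · exact ⟨v, hv, Reach.refl _ _⟩
    · exact hY v hv
  intro u hu v hv
  obtain ⟨u', hu', h1⟩ := key u hu
  obtain ⟨v', hv', h2⟩ := key v hv
  exact h1.symm.trans (((hX u' hu' v' hv').mono subset_union_left).trans h2)

lemma conn_union_Bd {X : Set ℂ} (hX : Conn τ X) : Conn τ (X ∪ Bd τ X) := by
  apply conn_union_bd hX
  rintro v ⟨hv, u, hu, h⟩
  exact ⟨u, hu, Reach.step (Or.inl hu) (Or.inr ⟨hv, u, hu, h⟩) h⟩

/-- first hitting: from a point outside `Y` one reaches `Y` through points of the component -/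
lemma exists_hit {Y : Set ℂ} {v y : ℂ} (hv : v ∉ Y) (hy : y ∈ Y) (h : Reach τ univ v y) :
    ∃ a b, a ∈ Comp τ Yᶜ v ∧ b ∈ Y ∧ Adj τ a b := by
  have key : ∀ w, Reach τ univ v w → (w ∈ Comp τ Yᶜ v) ∨
      ∃ a b, a ∈ Comp τ Yᶜ v ∧ b ∈ Y ∧ Adj τ a b := by
    intro w hw
    induction hw with
    | refl => exact Or.inl (Comp.self hv)
    | @tail b c hb hc ih =>
      rcases ih with ih | ih
      · by_cases hcY : c ∈ Y
        · exact Or.inr ⟨b, c, ih, hcY, hc.2.2⟩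
        · exact Or.inl (Comp.closed ih hcY hc.2.2)
      · exact Or.inr ih
  rcases key y h with h1 | h1
  · exact absurd hy h1.1
  · exact h1

/-- the filled set: everything outside the component of the complement that contains far points -/
def Fill (τ : ℝ → ℝ) (Y : Set ℂ) (f : ℂ) : Set ℂ := (Comp τ Yᶜ f)ᶜ

lemma Fill.subset (Y : Set ℂ) (f : ℂ) : Y ⊆ Fill τ Y f := fun _ hv h => h.1 hv

lemma Fill.conn_compl (Y : Set ℂ) (f : ℂ) : Conn τ (Fill τ Y f)ᶜ := by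
  unfold Fill
  rw [compl_compl]
  exact Comp.conn _ _

lemma Fill.bd {Y : Set ℂ} {f v : ℂ} (hv : v ∈ Bd τ (Fill τ Y f)) :
    v ∉ Y ∧ ∃ u ∈ Y, Adj τ u v := by
  obtain ⟨h1, u, hu, h⟩ := hv
  have h1' : v ∈ Comp τ Yᶜ f := by
    by_contra h2; exact h1 h2
  refine ⟨h1'.1, u, ?_, h⟩
  by_contra huY
  exact hu (Comp.closed h1' huY h.symm)

lemma Fill.conn (hτ : Scale τ) {Y : Set ℂ} {f : ℂ} (hY : Conn τ Y) (hne : Y.Nonempty) :
    Conn τ (Fill τ Y f) := by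
  obtain ⟨y, hy⟩ := hne
  have h1 : Fill τ Y f = Y ∪ Fill τ Y f := by
    rw [union_eq_self_of_subset_left (Fill.subset Y f)]
  rw [h1]
  apply conn_union_bd hY
  rw [← h1]
  intro v hv
  by_cases hvY : v ∈ Y
  · exact ⟨v, hvY, Reach.refl _ _⟩
  obtain ⟨a, b, ha, hb, hab⟩ := exists_hit hvY hy (conn_univ hτ v (mem_univ _) y (mem_univ _))
  have hsub : Comp τ Yᶜ v ⊆ Fill τ Y f := by
    intro w hw hw'
    apply hv
    exact ⟨hvY, hw'.2.trans hw.2.symm⟩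
  refine ⟨b, hb, ?_⟩
  refine Reach.trans (Reach.step (Fill.subset Y f hb) (hsub ha) hab.symm) ?_
  exact (Reach.mono hsub (Comp.reach ha.2)).symm

lemma Fill.sub_ball (hτ : Scale τ) {Y : Set ℂ} {f z : ℂ} {r : ℝ} (hr : 0 ≤ r)
    (hY : ∀ v ∈ Y, ‖v - z‖ < r) (hf : r ≤ ‖f - z‖) :
    ∀ v ∈ Fill τ Y f, ‖v - z‖ < r := by
  intro v hv
  by_contra hcon
  push Not at hcon
  apply hv
  refine Comp.of_conn (T := {v : ℂ | r ≤ ‖v - z‖}) (conn_far hτ z hr) ?_ hf (Comp.self ?_) hcon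
  · intro w hw hwY
    exact absurd (hY w hwY) (not_lt.2 hw)
  · intro hfY
    exact absurd (hY f hfY) (not_lt.2 hf)

end Pool.Agent.N466.Pl
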