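import Pool.Agent.N466.Pl.Lift2

set_option autoImplicit false

namespace Pool.Agent.N466.Pl

open Set Relation Finset

variable {τ : ℝ → ℝ} {D : Dat τ} {S : Set ℂ}

/-- the small integer lift of a residue modulo three -/
def lift3 (x : ZMod 3) : ℤ := if x = 0 then 0 else if x = 1 then 1 else -1

lemma lift3_cast (x : ZMod 3) : ((lift3 x : ℤ) : ZMod 3) = x := by
  revert x; decide

lemma lift3_abs (x : ZMod 3) : |lift3 x| ≤ 1 := by
  revert x; decide

lemma lift3_neg (x : ZMod 3) : lift3 (-x) = - lift3 x := by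
  revert x; decide

/-- a chain of adjacent points -/
structure Chain (τ : ℝ → ℝ) (S : Set ℂ) (Q : ℕ → ℂ) (N : ℕ) : Prop where
  mem : ∀ i ≤ N, Q i ∈ S
  adj : ∀ i < N, Adj τ (Q i) (Q (i + 1))

lemma exists_heights {Q : ℕ → ℂ} {N : ℕ} (h : Chain τ S Q N) {f0 : ℤ}
    (h0 : (f0 : ZMod 3) = (D.c (Q 0)).2) : ∃ H : ℕ → ℤ, Path D S Q H N ∧ H 0 = f0 := by
  refine ⟨fun i => f0 + ∑ k ∈ range i, lift3 ((D.c (Q (k + 1))).2 - (D.c (Q k)).2), ?_, by simp⟩
  refine ⟨h.mem, fun i hi => ?_, h.adj, fun i hi => ?_⟩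
  · push_cast
    simp only [lift3_cast]
    rw [Finset.sum_range_sub (fun k => (D.c (Q k)).2), h0]
    ring
  · have e : f0 + ∑ k ∈ range (i + 1), lift3 ((D.c (Q (k + 1))).2 - (D.c (Q k)).2) -
        (f0 + ∑ k ∈ range i, lift3 ((D.c (Q (k + 1))).2 - (D.c (Q k)).2)) =
        lift3 ((D.c (Q (i + 1))).2 - (D.c (Q i)).2) := by
      rw [sum_range_succ]; ring
    rw [e]
    exact lift3_abs _

lemma exists_chain {u v : ℂ} (hu : u ∈ S) (h : Reach τ S u v) :
    ∃ (N : ℕ) (Q : ℕ → ℂ), Chain τ S Q N ∧ Q 0 = u ∧ Q N = v := by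
  induction h with
  | refl => exact ⟨0, fun _ => u, ⟨fun _ _ => hu, fun i hi => absurd hi (Nat.not_lt_zero _)⟩, rfl, rfl⟩
  | @tail b c hb hc ih =>
    obtain ⟨N, Q, hQ, h0, hN⟩ := ih
    refine ⟨N + 1, fun i => if i ≤ N then Q i else c, ⟨fun i hi => ?_, fun i hi => ?_⟩, ?_, ?_⟩
    · by_cases h1 : i ≤ N
      · simp only [h1, if_true]; exact hQ.mem i h1
      · simp only [h1, if_false]; exact hc.2.1
    · by_cases h1 : i + 1 ≤ N
      · have h2 : i ≤ N := by omega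
        simp only [h1, h2, if_true]; exact hQ.adj i (by omega)
      · have h2 : i = N := by omega
        subst h2
        simp only [h1, le_refl, if_true, if_false]
        rw [hN]; exact hc.2.2
    · simp [h0]
    · have : ¬ (N + 1 ≤ N) := by omega
      simp only [this, if_false]

/-- a shortest chain has no shortcuts -/
lemma exists_short_chain {u v : ℂ} (hu : u ∈ S) (h : Reach τ S u v) :
    ∃ (N : ℕ) (Q : ℕ → ℂ), Chain τ S Q N ∧ Q 0 = u ∧ Q N = v ∧
      ∀ i j, j ≤ N → i + 2 ≤ j → ¬ Adj τ (Q i) (Q j) := by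
  classical
  have hex : ∃ N, ∃ Q : ℕ → ℂ, Chain τ S Q N ∧ Q 0 = u ∧ Q N = v := exists_chain hu h
  obtain ⟨Q, hQ, h0, hN⟩ := Nat.find_spec hex
  refine ⟨Nat.find hex, Q, hQ, h0, hN, ?_⟩
  intro i j hj hij hadj
  apply Nat.find_min hex (m := Nat.find hex - (j - i - 1)) (by omega)
  refine ⟨fun k => if k ≤ i then Q k else Q (k + (j - i - 1)), ⟨fun k hk => ?_, fun k hk => ?_⟩, ?_, ?_⟩
  · by_cases h1 : k ≤ i
    · simp only [h1, if_true]; exact hQ.mem _ (by omega)
    · simp only [h1, if_false]; exact hQ.mem _ (by omega)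
  · rcases Nat.lt_trichotomy k i with h1 | h1 | h1
    · have h2 : k ≤ i := h1.le
      have h3 : k + 1 ≤ i := h1
      simp only [h2, h3, if_true]; exact hQ.adj _ (by omega)
    · subst h1
      have h3 : ¬ (k + 1 ≤ k) := by omega
      have e : k + 1 + (j - k - 1) = j := by omega
      simp only [le_refl, h3, if_true, if_false, e]
      exact hadj
    · have h2 : ¬ (k ≤ i) := by omega
      have h3 : ¬ (k + 1 ≤ i) := by omega
      have e : k + 1 + (j - i - 1) = k + (j - i - 1) + 1 := by omega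
      simp only [h2, h3, if_false, e]
      exact hQ.adj _ (by omega)
  · simp [h0]
  · have h2 : ¬ (Nat.find hex - (j - i - 1) ≤ i) := by omega
    have e : Nat.find hex - (j - i - 1) + (j - i - 1) = Nat.find hex := by omega
    simp only [h2, if_false, e]
    exact hN

/-- a connected subset of a class that contains a closed walk of nonzero degree is bounded -/
theorem bounded_of_degree (hτ : Scale τ) {b : Bool} (hS : ∀ v ∈ S, (D.c v).1 = b) (hC : Conn τ S)
    {γ : ℕ → ℂ} {F : ℕ → ℤ} {n : ℕ} (h : Path D S γ F n) (hγ : γ 0 = γ n) (hF : F 0 ≠ F n) :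
    ∃ R, ∀ e ∈ S, ‖e‖ ≤ R := by
  classical
  let ρ : ℝ := ∑ k ∈ range (n + 1), ‖γ k‖ + 1
  have hρ : ∀ k ≤ n, ‖γ k‖ + 1 ≤ ρ := by
    intro k hk
    have h1 : ‖γ k‖ ≤ ∑ k ∈ range (n + 1), ‖γ k‖ :=
      Finset.single_le_sum (f := fun k => ‖γ k‖) (fun i _ => norm_nonneg _)
        (Finset.mem_range.2 (by omega))
    simp only [ρ]
    linarith
  have hτp : 0 < τ ρ / 2 := by have := hτ.pos ρ; linarith
  obtain ⟨t, _, htf, ht⟩ := (isCompact_closedBall (0:ℂ) ρ).finite_cover_balls hτp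
  let T : Finset ℂ := htf.toFinset
  have hT : ∀ v : ℂ, ‖v‖ ≤ ρ → ∃ x ∈ T, ‖v - x‖ < τ ρ / 2 := by
    intro v hv
    have h1 : v ∈ Metric.closedBall (0:ℂ) ρ := by simpa using hv
    have h2 := ht h1
    simp only [mem_iUnion, Metric.mem_ball, exists_prop] at h2
    obtain ⟨x, hx, hvx⟩ := h2
    exact ⟨x, by simpa [T] using hx, by rwa [dist_eq_norm] at hvx⟩
  refine ⟨bnd (2 * T.card) + ‖γ 0‖, ?_⟩
  intro e he
  have hγ0 : γ 0 ∈ S := h.mem 0 (Nat.zero_le _)
  obtain ⟨N, Q, hQ, hQ0, hQN, hshort⟩ := exists_short_chain hγ0 (hC _ hγ0 e he)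
  obtain ⟨H, hP, hH0⟩ := exists_heights (D := D) hQ (f0 := F 0)
    (by rw [hQ0]; exact h.col 0 (Nat.zero_le _))
  obtain ⟨i0, hi0, hmax⟩ := Finset.exists_max_image (Finset.range (N + 1)) H ⟨0, by simp⟩
  obtain ⟨i1, hi1, hmin⟩ := Finset.exists_min_image (Finset.range (N + 1)) H ⟨0, by simp⟩
  rw [Finset.mem_range] at hi0 hi1
  have hmax' : ∀ k ≤ N, H k ≤ H i0 := fun k hk => hmax k (Finset.mem_range.2 (by omega))
  have hmin' : ∀ k ≤ N, H i1 ≤ H k := fun k hk => hmin k (Finset.mem_range.2 (by omega))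
  have hsel : ∀ t : ℤ, t ∈ Finset.Icc (H i1) (H i0) → ∃ i, ∃ x, i ≤ N ∧ H i = t ∧ x ∈ T ∧ ‖Q i‖ ≤ ρ ∧
      ‖Q i - x‖ < τ ρ / 2 := by
    intro t ht
    rw [Finset.mem_Icc] at ht
    obtain ⟨i, hi, hit, k, hk, hki⟩ := hit hτ hS h hγ hF hP hQ0 hH0 (i0 := i0) (i1 := i1) (by omega)
      (by omega) ht.2 ht.1
    have h1 : ‖Q i‖ ≤ ρ := by
      have h2 : ‖Q i‖ = ‖γ k - (γ k - Q i)‖ := by congr 1; ring
      have h3 := norm_sub_le (γ k) (γ k - Q i)
      have := hρ k hk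
      linarith
    obtain ⟨x, hx, hxx⟩ := hT _ h1
    exact ⟨i, x, hi, hit, hx, h1, hxx⟩
  choose! I X hI hIt hX hIρ hIX using hsel
  have hcard : (Finset.Icc (H i1) (H i0)).card ≤ (Finset.range 2 ×ˢ T).card := by
    apply Finset.card_le_card_of_injOn (fun t => (I t % 2, X t))
    · intro t ht
      have := hX t ht
      simp only [Finset.coe_product, Set.mem_prod, Finset.mem_coe, Finset.mem_range]
      exact ⟨Nat.mod_lt _ (by norm_num), this⟩
    · intro t ht t' ht' heq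
      rw [Finset.mem_coe] at ht ht'
      simp only [Prod.mk.injEq] at heq
      have h1 : ‖Q (I t) - Q (I t')‖ < τ ρ := by
        have h2 := hIX t ht
        have h3 := hIX t' ht'
        rw [← heq.2] at h3
        calc ‖Q (I t) - Q (I t')‖ = ‖(Q (I t) - X t) - (Q (I t') - X t)‖ := by congr 1; ring
          _ ≤ ‖Q (I t) - X t‖ + ‖Q (I t') - X t‖ := norm_sub_le _ _
          _ < τ ρ := by linarith
      have h2 : Adj τ (Q (I t)) (Q (I t')) := Adj.of_lt hτ (hIρ t ht) (hIρ t' ht') h1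
      have h3 : ¬ (I t + 2 ≤ I t') := fun h4 => hshort _ _ (hI t' ht') h4 h2
      have h4 : ¬ (I t' + 2 ≤ I t) := fun h4 => hshort _ _ (hI t ht) h4 h2.symm
      have h5 : I t = I t' := by omega
      rw [← hIt t ht, ← hIt t' ht', h5]
  rw [Int.card_Icc, Finset.card_product, Finset.card_range] at hcard
  have h1 := displacement hτ hS (2 * T.card) Q H N (H i1) hP hmin' (fun i hi => by
    have := hmax' i hi
    have h3 := hmin' i0 (by omega)
    omega)
  rw [hQ0, hQN] at h1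
  have h2 : ‖e‖ = ‖γ 0 - (γ 0 - e)‖ := by congr 1; ring
  have h3 := norm_sub_le (γ 0) (γ 0 - e)
  linarith

end Pool.Agent.N466.Pl
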