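import Mathlib

set_option autoImplicit false

namespace Pool.Agent.N466.Pl

open Set

/-- one brick -/
def brick (j : ℤ) (p : ℤ × ℤ) : Set ℂ :=
  {v | (7 * p.1 + 12 / 5 * p.2 + j) * (18 / 25) ≤ v.re ∧
    v.re ≤ (7 * p.1 + 12 / 5 * p.2 + j + 1) * (18 / 25) ∧
    p.2 * (3 / 5) ≤ v.im ∧ v.im ≤ (p.2 + 1) * (3 / 5 : ℝ)}

/-- one colour -/
def wall (j : ℤ) : Set ℂ := ⋃ p, brick j p

lemma brick_closed (j : ℤ) (p : ℤ × ℤ) : IsClosed (brick j p) := by
  unfold brick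
  apply IsClosed.inter (isClosed_le continuous_const Complex.continuous_re)
  apply IsClosed.inter (isClosed_le Complex.continuous_re continuous_const)
  exact IsClosed.inter (isClosed_le continuous_const Complex.continuous_im)
    (isClosed_le Complex.continuous_im continuous_const)

lemma wall_closed (j : ℤ) : IsClosed (wall j) := by
  apply LocallyFinite.isClosed_iUnion _ (brick_closed j)
  intro x
  refine ⟨Metric.ball x 1, Metric.ball_mem_nhds x one_pos, ?_⟩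
  obtain ⟨N, hN⟩ := exists_nat_gt (‖x‖ + 1 + |(j : ℝ)|)
  apply Set.Finite.subset (Set.finite_Icc (((-(20 * N + 20) : ℤ), (-(20 * N + 20) : ℤ)) : ℤ × ℤ)
    ((20 * N + 20 : ℤ), (20 * N + 20 : ℤ)))
  rintro ⟨m, r⟩ ⟨v, ⟨h1, h2, h3, h4⟩, hv⟩
  simp only at h1 h2 h3 h4
  rw [Metric.mem_ball, dist_eq_norm] at hv
  have e : ‖v‖ = ‖x + (v - x)‖ := by congr 1; ring
  have h5 := norm_add_le x (v - x)
  have h6 : ‖v‖ < N - |(j : ℝ)| := by linarith
  have h7 := abs_le.1 ((Complex.abs_re_le_norm v).trans h6.le)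
  have h8 := abs_le.1 ((Complex.abs_im_le_norm v).trans h6.le)
  have h9 := neg_abs_le (j : ℝ)
  have h10 := le_abs_self (j : ℝ)
  have hr1 : (r : ℝ) ≤ 2 * N + 2 := by linarith
  have hr2 : -(2 * N + 2) ≤ (r : ℝ) := by linarith
  have hm1 : (m : ℝ) ≤ 20 * N + 20 := by linarith
  have hm2 : -(20 * N + 20) ≤ (m : ℝ) := by linarith
  have hr1' : (r : ℝ) ≤ 20 * N + 20 := by linarith
  have hr2' : -(20 * N + 20) ≤ (r : ℝ) := by linarith
  simp only [mem_Icc, Prod.mk_le_mk]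
  refine ⟨⟨?_, ?_⟩, ?_, ?_⟩
  · exact_mod_cast hm2
  · exact_mod_cast hr2'
  · exact_mod_cast hm1
  · exact_mod_cast hr1'

lemma sq_dist (v w : ℂ) : ‖v - w‖ ^ 2 = (v.re - w.re) ^ 2 + (v.im - w.im) ^ 2 := by
  rw [Complex.sq_norm, Complex.normSq_apply]
  simp only [Complex.sub_re, Complex.sub_im]
  ring

lemma wall_free_aux (j : ℤ) (m r m' r' : ℤ) (hr : r ≤ r') {v w : ℂ} (hv : v ∈ brick j (m, r))
    (hw : w ∈ brick j (m', r')) : ‖v - w‖ ≠ 1 := by
  intro h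
  have hsq := sq_dist v w
  rw [h] at hsq
  obtain ⟨a1, a2, a3, a4⟩ := hv
  obtain ⟨b1, b2, b3, b4⟩ := hw
  simp only at a1 a2 a3 a4 b1 b2 b3 b4
  obtain ⟨d, rfl⟩ : ∃ d, r' = r + d := ⟨r' - r, by ring⟩
  obtain ⟨n, rfl⟩ : ∃ n, m' = m + n := ⟨m' - m, by ring⟩
  have hd0 : 0 ≤ d := by omega
  push_cast at b1 b2 b3 b4
  have hd3 : d < 3 := by
    by_contra hcon
    have h3 : (3 : ℝ) ≤ d := by exact_mod_cast not_lt.1 hcon
    have h4 : 6 / 5 ≤ w.im - v.im := by linarith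
    nlinarith [sq_nonneg (v.re - w.re)]
  have hcase : d = 0 ∨ d = 1 ∨ d = 2 := by omega
  rcases hcase with rfl | rfl | rfl
  · -- the same row
    rcases lt_trichotomy n 0 with hn | hn | hn
    · have h3 : (n : ℝ) ≤ -1 := by exact_mod_cast (by omega : n ≤ -1)
      have h4 : 1 < v.re - w.re := by push_cast at b1 b2 b3 b4; linarith
      nlinarith [sq_nonneg (v.im - w.im)]
    · subst hn
      push_cast at b1 b2 b3 b4
      have h3 : v.re - w.re ≤ 18 / 25 := by linarith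
      have h4 : -(18 / 25) ≤ v.re - w.re := by linarith
      have h5 : v.im - w.im ≤ 3 / 5 := by linarith
      have h6 : -(3 / 5) ≤ v.im - w.im := by linarith
      nlinarith
    · have h3 : (1 : ℝ) ≤ n := by exact_mod_cast (by omega : 1 ≤ n)
      have h4 : 1 < w.re - v.re := by push_cast at b1 b2 b3 b4; linarith
      nlinarith [sq_nonneg (v.im - w.im)]
  · -- neighbouring rows
    push_cast at b1 b2 b3 b4
    rcases lt_or_ge n 0 with hn | hn
    · have h3 : (n : ℝ) ≤ -1 := by exact_mod_cast (by omega : n ≤ -1)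
      have h4 : 1 < v.re - w.re := by linarith
      nlinarith [sq_nonneg (v.im - w.im)]
    · have h3 : (0 : ℝ) ≤ n := by exact_mod_cast hn
      have h4 : 1 < w.re - v.re := by linarith
      nlinarith [sq_nonneg (v.im - w.im)]
  · push_cast at b1 b2 b3 b4
    rcases lt_or_ge n 0 with hn | hn
    · have h3 : (n : ℝ) ≤ -1 := by exact_mod_cast (by omega : n ≤ -1)
      have h4 : 108 / 125 ≤ v.re - w.re := by linarith
      have h5 : 3 / 5 ≤ w.im - v.im := by linarith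
      nlinarith
    · have h3 : (0 : ℝ) ≤ n := by exact_mod_cast hn
      have h4 : 1 < w.re - v.re := by linarith
      nlinarith [sq_nonneg (v.im - w.im)]

lemma wall_free (j : ℤ) : ∀ v ∈ wall j, ∀ w ∈ wall j, ‖v - w‖ ≠ 1 := by
  intro v hv w hw
  obtain ⟨⟨m, r⟩, hv'⟩ := mem_iUnion.1 hv
  obtain ⟨⟨m', r'⟩, hw'⟩ := mem_iUnion.1 hw
  rcases le_total r r' with h | h
  · exact wall_free_aux j m r m' r' h hv' hw'
  · rw [norm_sub_rev]
    exact wall_free_aux j m' r' m r h hw' hv'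

lemma wall_cover (v : ℂ) : ∃ j : Fin 7, v ∈ wall (j : ℕ) := by
  let r : ℤ := ⌊v.im / (3 / 5)⌋
  let n : ℤ := ⌊v.re / (18 / 25) - 12 / 5 * r⌋
  have h1 : (r : ℝ) ≤ v.im / (3 / 5) := Int.floor_le _
  have h2 : v.im / (3 / 5) < r + 1 := Int.lt_floor_add_one _
  have h3 : (n : ℝ) ≤ v.re / (18 / 25) - 12 / 5 * r := Int.floor_le _
  have h4 : v.re / (18 / 25) - 12 / 5 * r < n + 1 := Int.lt_floor_add_one _
  have h5 : 0 ≤ n % 7 := Int.emod_nonneg _ (by norm_num)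
  have h6 : n % 7 < 7 := Int.emod_lt_of_pos _ (by norm_num)
  refine ⟨⟨(n % 7).toNat, by omega⟩, mem_iUnion.2 ⟨(n / 7, r), ?_⟩⟩
  have h7 : (((n % 7).toNat : ℕ) : ℤ) = n % 7 := Int.toNat_of_nonneg h5
  have h8 : n = 7 * (n / 7) + n % 7 := (Int.mul_ediv_add_emod n 7).symm
  have h9 : (n : ℝ) = 7 * ((n / 7 : ℤ) : ℝ) + ((n % 7 : ℤ) : ℝ) := by exact_mod_cast h8
  simp only [brick, mem_ofPred_eq, h7]
  refine ⟨?_, ?_, ?_, ?_⟩ <;> linarith

lemma wall_shift (i j : ℤ) (v : ℂ) :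
    v ∈ wall i ↔ v + (((j - i) * (18 / 25) : ℝ) : ℂ) ∈ wall j := by
  unfold wall
  simp only [mem_iUnion]
  apply exists_congr
  rintro ⟨m, r⟩
  simp only [brick, mem_ofPred_eq, Complex.add_re, Complex.add_im, Complex.ofReal_re,
    Complex.ofReal_im]
  constructor
  · rintro ⟨h1, h2, h3, h4⟩
    exact ⟨by linarith, by linarith, by linarith, by linarith⟩
  · rintro ⟨h1, h2, h3, h4⟩
    exact ⟨by linarith, by linarith, by linarith, by linarith⟩

end Pool.Agent.N466.Pl
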