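import Pool.Agent.N466.Pl.Main

set_option autoImplicit false

namespace Pool.Agent.N466.Pl

open Set Relation

/-- on bounded parts the closed unit distance free sets have a gap around the distance one -/
lemma exists_gap {k : ℕ} {C : Fin k → Set ℂ} (hC : ∀ i, IsClosed (C i))
    (hfree : ∀ i, ∀ v ∈ C i, ∀ w ∈ C i, ‖v - w‖ ≠ 1) (n : ℕ) :
    ∃ ε : ℝ, 0 < ε ∧ ∀ i, ∀ v ∈ C i, ∀ w ∈ C i, ‖v‖ ≤ n → ‖w‖ ≤ n → ε ≤ |‖v - w‖ - 1| := by
  let K : Set (ℂ × ℂ) := ⋃ i, (C i ∩ Metric.closedBall 0 (n : ℝ)) ×ˢ (C i ∩ Metric.closedBall 0 (n : ℝ))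
  have hK : IsCompact K := by
    apply isCompact_iUnion
    intro i
    have h := (isCompact_closedBall (0 : ℂ) (n : ℝ)).inter_left (hC i)
    exact h.prod h
  have hmem : ∀ i, ∀ v ∈ C i, ∀ w ∈ C i, ‖v‖ ≤ n → ‖w‖ ≤ n → (v, w) ∈ K := by
    intro i v hv w hw h1 h2
    refine mem_iUnion.2 ⟨i, ⟨hv, by simpa using h1⟩, ⟨hw, by simpa using h2⟩⟩
  rcases K.eq_empty_or_nonempty with hne | hne
  · refine ⟨1, one_pos, fun i v hv w hw h1 h2 => ?_⟩
    have := hmem i v hv w hw h1 h2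
    rw [hne] at this
    exact absurd this (notMem_empty _)
  · obtain ⟨p, hp, hmin⟩ := hK.exists_isMinOn hne (f := fun p : ℂ × ℂ => |‖p.1 - p.2‖ - 1|)
      (by apply Continuous.continuousOn; fun_prop)
    refine ⟨|‖p.1 - p.2‖ - 1|, ?_, fun i v hv w hw h1 h2 => hmin (hmem i v hv w hw h1 h2)⟩
    obtain ⟨i, hp1, hp2⟩ := mem_iUnion.1 hp
    exact abs_pos.2 (sub_ne_zero.2 (hfree i _ hp1.1 _ hp2.1))

/-- the running minimum -/
noncomputable def runmin (ε : ℕ → ℝ) : ℕ → ℝ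
  | 0 => ε 0
  | n + 1 => min (runmin ε n) (ε (n + 1))

lemma runmin_pos {ε : ℕ → ℝ} (h : ∀ n, 0 < ε n) (n : ℕ) : 0 < runmin ε n := by
  induction n with
  | zero => exact h 0
  | succ n ih => exact lt_min ih (h _)

lemma runmin_le (ε : ℕ → ℝ) (n : ℕ) : runmin ε n ≤ ε n := by
  cases n with
  | zero => exact le_rfl
  | succ n => exact min_le_right _ _

lemma runmin_anti (ε : ℕ → ℝ) : Antitone (runmin ε) :=
  antitone_nat_of_succ_le fun _ => min_le_left _ _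

/-- six closed unit distance free sets do not cover the plane -/
theorem closed_six (C : Fin 6 → Set ℂ) (hC : ∀ i, IsClosed (C i))
    (hfree : ∀ i, ∀ v ∈ C i, ∀ w ∈ C i, ‖v - w‖ ≠ 1) (hcov : ∀ v, ∃ i, v ∈ C i) : False := by
  choose ε hε hgap using exists_gap hC hfree
  let δ := runmin ε
  have hδ : ∀ n, 0 < δ n := runmin_pos hε
  let τ : ℝ → ℝ := fun r => min (1 / 20) (δ ⌈r + 1⌉₊ / 4)
  have hτ : Scale τ := by
    refine ⟨fun r => lt_min (by norm_num) (by have := hδ ⌈r + 1⌉₊; positivity), ?_,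
      fun r => min_le_left _ _⟩
    intro r s hrs
    apply min_le_min le_rfl
    have : δ ⌈s + 1⌉₊ ≤ δ ⌈r + 1⌉₊ := runmin_anti ε (Nat.ceil_mono (by linarith))
    linarith
  choose c hc using hcov
  refine no_six hτ c (fun v w => ‖v - w‖ < 1) (fun v => by simp) ?_ (fun v w _ h => le_of_lt h)
    (fun v w _ h => not_lt.1 h)
  -- the transfer property
  have key : ∀ v w v' w', ‖v‖ ≤ ‖w‖ → c v = c w → Adj τ v v' → Adj τ w w' → ‖v - w‖ < 1 →
      ‖v' - w'‖ < 1 := by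
    intro v w v' w' hvw hcvw hv hw h
    have h1 : ‖w‖ ≤ ‖v‖ + 1 := by
      have e : ‖w‖ = ‖v - (v - w)‖ := by congr 1; ring
      have := norm_sub_le v (v - w)
      linarith
    have hceil : ‖v‖ + 1 ≤ (⌈‖v‖ + 1⌉₊ : ℝ) := Nat.le_ceil _
    have h2 := hgap ⌈‖v‖ + 1⌉₊ (c v) v (hc v) w (by rw [hcvw]; exact hc w) (by linarith) (by linarith)
    have h3 : δ ⌈‖v‖ + 1⌉₊ ≤ ε ⌈‖v‖ + 1⌉₊ := runmin_le _ _
    rw [abs_of_neg (by linarith)] at h2
    have hd := hδ ⌈‖v‖ + 1⌉₊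
    have h4 : ‖v - v'‖ < δ ⌈‖v‖ + 1⌉₊ / 4 := by
      refine lt_of_lt_of_le hv ((hτ.anti (le_max_left _ _)).trans ?_)
      exact min_le_right _ _
    have h5 : ‖w - w'‖ < δ ⌈‖v‖ + 1⌉₊ / 4 := by
      refine lt_of_lt_of_le hw ((hτ.anti (le_max_left _ _)).trans ((min_le_right _ _).trans ?_))
      have : δ ⌈‖w‖ + 1⌉₊ ≤ δ ⌈‖v‖ + 1⌉₊ := runmin_anti ε (Nat.ceil_mono (by linarith))
      linarith
    have e : ‖v' - w'‖ = ‖((v - w) - (v - v')) + (w - w')‖ := by congr 1; ring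
    have h6 := norm_add_le ((v - w) - (v - v')) (w - w')
    have h7 := norm_sub_le (v - w) (v - v')
    linarith
  intro v w v' w' h1 _ h3 h4 h5
  rcases le_total ‖v‖ ‖w‖ with h | h
  · exact key v w v' w' h h1 h3 h4 h5
  · have := key w v w' v' h h1.symm h4 h3 (by rwa [norm_sub_rev])
    rwa [norm_sub_rev]

end Pool.Agent.N466.Pl
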