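import Pool.Agent.N466.Pl.Closed
import Pool.Agent.N466.Pl.Bricks

set_option autoImplicit false

namespace Pool.Agent.N466.Pl

open Set

/-- six closed unit distance free sets do not cover the Euclidean plane -/
theorem euclid_six (k : ℕ) (hk : k < 7) (C : Fin k → Set (EuclideanSpace ℝ (Fin 2)))
    (hC : ∀ i, IsClosed (C i)) (hfree : ∀ i, ∀ x ∈ C i, ∀ y ∈ C i, dist x y ≠ 1)
    (hcov : ⋃ i, C i = univ) : False := by
  classical
  let e : ℂ ≃ₗᵢ[ℝ] EuclideanSpace ℝ (Fin 2) := Complex.orthonormalBasisOneI.repr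
  let B : Fin 6 → Set ℂ := fun i => if h : (i : ℕ) < k then e ⁻¹' (C ⟨i, h⟩) else ∅
  apply closed_six B
  · intro i
    by_cases h : (i : ℕ) < k
    · simp only [B, h, dite_true]
      exact (hC _).preimage e.continuous
    · simp only [B, h, dite_false]
      exact isClosed_empty
  · intro i v hv w hw
    by_cases h : (i : ℕ) < k
    · simp only [B, h, dite_true, mem_preimage] at hv hw
      have h1 := hfree _ _ hv _ hw
      rwa [e.dist_map, dist_eq_norm] at h1
    · simp only [B, h, dite_false, mem_empty_iff_false] at hv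
  · intro v
    have h1 : e v ∈ ⋃ i, C i := by rw [hcov]; exact mem_univ _
    obtain ⟨i, hi⟩ := mem_iUnion.1 h1
    refine ⟨⟨i, by have := i.2; omega⟩, ?_⟩
    simp only [B, i.2, dite_true, mem_preimage]
    exact hi

/-- seven congruent closed unit distance free sets cover the Euclidean plane -/
theorem euclid_seven : ∃ C : Fin 7 → Set (EuclideanSpace ℝ (Fin 2)), (∀ i, IsClosed (C i)) ∧
    (∀ i, ∀ x ∈ C i, ∀ y ∈ C i, dist x y ≠ 1) ∧ (⋃ i, C i = univ) ∧
    ∀ i j, ∃ f : EuclideanSpace ℝ (Fin 2) ≃ᵢ EuclideanSpace ℝ (Fin 2), f '' C i = C j := by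
  let e : ℂ ≃ₗᵢ[ℝ] EuclideanSpace ℝ (Fin 2) := Complex.orthonormalBasisOneI.repr
  refine ⟨fun i => e.symm ⁻¹' (wall ((i : ℕ) : ℤ)), ?_, ?_, ?_, ?_⟩
  · intro i
    exact (wall_closed _).preimage e.symm.continuous
  · intro i x hx y hy
    have h1 := wall_free _ _ hx _ hy
    rwa [← dist_eq_norm, e.symm.dist_map] at h1
  · apply eq_univ_of_forall
    intro x
    obtain ⟨j, hj⟩ := wall_cover (e.symm x)
    exact mem_iUnion.2 ⟨j, hj⟩
  · intro i j
    let c : ℂ := ((((((j : ℕ) : ℤ) : ℝ) - (((i : ℕ) : ℤ) : ℝ)) * (18 / 25) : ℝ) : ℂ)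
    refine ⟨IsometryEquiv.addRight (e c), ?_⟩
    ext x
    simp only [mem_image, mem_preimage, IsometryEquiv.addRight_apply]
    constructor
    · rintro ⟨y, hy, rfl⟩
      rw [map_add, e.symm_apply_apply]
      exact (wall_shift _ _ _).1 hy
    · intro hx
      refine ⟨x - e c, ?_, by abel⟩
      rw [wall_shift _ ((j : ℕ) : ℤ)]
      rw [map_sub, e.symm_apply_apply]
      have : e.symm x - c + c = e.symm x := by ring
      rw [this]
      exact hx

end Pool.Agent.N466.Pl
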