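import Pool.Agent.N466.Pl.Basic

set_option autoImplicit false

namespace Pool.Agent.N466.Pl

open Set Relation Finset

/-- the `i`-th of the `n` equidistant points on the segment from `0` to `v` -/
noncomputable def pt (v : ℂ) (n i : ℕ) : ℂ := (((i : ℝ) / (n : ℝ) : ℝ) : ℂ) * v

lemma pt_zero (v : ℂ) (n : ℕ) : pt v n 0 = 0 := by simp [pt]

lemma pt_self (v : ℂ) {n : ℕ} (hn : 0 < n) : pt v n n = v := by
  have : (n : ℝ) ≠ 0 := by positivity
  simp [pt, this]

lemma norm_pt (v : ℂ) (n i : ℕ) : ‖pt v n i‖ = (i : ℝ) / n * ‖v‖ := by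
  unfold pt
  rw [norm_mul, Complex.norm_real, Real.norm_eq_abs, abs_of_nonneg (by positivity)]

lemma norm_pt_le (v : ℂ) {n i : ℕ} (hi : i ≤ n) : ‖pt v n i‖ ≤ ‖v‖ := by
  rw [norm_pt]
  have h1 : (i : ℝ) / n ≤ 1 := by
    apply div_le_one_of_le₀ (by exact_mod_cast hi) (by positivity)
  calc (i : ℝ) / n * ‖v‖ ≤ 1 * ‖v‖ := by gcongr
    _ = ‖v‖ := one_mul _

lemma pt_sub_pt (u v : ℂ) (n i : ℕ) : pt u n i - pt v n i = pt (u - v) n i := by
  unfold pt; ring

lemma norm_pt_sub (v : ℂ) {n i j : ℕ} (hij : i ≤ j) :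
    ‖pt v n i - pt v n j‖ = ((j : ℝ) - i) / n * ‖v‖ := by
  have : pt v n i - pt v n j = ((((i : ℝ) - j) / (n : ℝ) : ℝ) : ℂ) * v := by
    unfold pt; push_cast; ring
  rw [this, norm_mul, Complex.norm_real, Real.norm_eq_abs, abs_div, abs_sub_comm,
    abs_of_nonneg (by rw [sub_nonneg]; exact_mod_cast hij), abs_of_nonneg (by positivity : (0:ℝ) ≤ n)]

lemma pt_mul (v : ℂ) {n m i : ℕ} (hm : 0 < m) : pt v (n * m) (i * m) = pt v n i := by
  unfold pt
  congr 2
  have : (m : ℝ) ≠ 0 := by positivity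
  push_cast
  rw [mul_div_mul_right _ _ this]

section

variable {G : Type*} [AddCommGroup G] {K : Set ℂ} {σ : ℝ → ℝ} {α : ℂ → ℂ → G}

/-- sum along the segment -/
noncomputable def seg (α : ℂ → ℂ → G) (v : ℂ) (n : ℕ) : G :=
  ∑ i ∈ range n, α (pt v n i) (pt v n (i + 1))

variable (hK : ∀ v ∈ K, ∀ t : ℝ, 0 ≤ t → t ≤ 1 → (t : ℂ) * v ∈ K) (hpos : ∀ r, 0 < σ r)
  (hanti : Antitone σ)
  (hα : ∀ u ∈ K, ∀ v ∈ K, ∀ w ∈ K, Adj σ u v → Adj σ v w → Adj σ u w → α u v + α v w = α u w)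

include hK in
lemma pt_mem {v : ℂ} (hv : v ∈ K) {n i : ℕ} (hi : i ≤ n) : pt v n i ∈ K := by
  apply hK v hv _ (by positivity)
  apply div_le_one_of_le₀ (by exact_mod_cast hi) (by positivity)

include hpos hα in
lemma cocycle_self {v : ℂ} (hv : v ∈ K) : α v v = 0 := by
  have h1 : Adj σ v v := by unfold Adj; simpa using hpos _
  have := hα v hv v hv v hv h1 h1 h1
  simpa using this

include hK hpos hanti hα in
lemma seg_mul {v : ℂ} (hv : v ∈ K) {n m : ℕ} (hn : 0 < n) (hm : 0 < m)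
    (hfine : ‖v‖ / n < σ ‖v‖) : seg α v (n * m) = seg α v n := by
  have hnm : 0 < n * m := Nat.mul_pos hn hm
  have hmem : ∀ i ≤ n * m, pt v (n * m) i ∈ K := fun i hi => pt_mem hK hv hi
  -- adjacency of close points
  have hadj : ∀ i j, i ≤ j → j ≤ n * m → j ≤ i + m → Adj σ (pt v (n * m) i) (pt v (n * m) j) := by
    intro i j hij hj hjm
    unfold Adj
    rw [norm_pt_sub v hij]
    have h1 : ((j : ℝ) - i) / ((n * m : ℕ) : ℝ) * ‖v‖ ≤ ‖v‖ / n := by
      have hn' : (0:ℝ) < n := by exact_mod_cast hn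
      have hm' : (0:ℝ) < m := by exact_mod_cast hm
      have hji : (j : ℝ) - i ≤ m := by
        have : (j : ℝ) ≤ i + m := by exact_mod_cast hjm
        linarith
      push_cast
      calc ((j : ℝ) - i) / (n * m) * ‖v‖ ≤ (m : ℝ) / (n * m) * ‖v‖ := by gcongr
        _ = ‖v‖ / n := by field_simp
    refine lt_of_le_of_lt h1 (lt_of_lt_of_le hfine (hanti ?_))
    exact max_le (norm_pt_le v (le_trans hij hj)) (norm_pt_le v hj)
  have hinner : ∀ k, k < n → ∀ j ≤ m, ∑ x ∈ range j,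
      α (pt v (n * m) (k * m + x)) (pt v (n * m) (k * m + x + 1)) =
      α (pt v (n * m) (k * m)) (pt v (n * m) (k * m + j)) := by
    intro k hk j hj
    have hkm : k * m + m ≤ n * m := by
      have : (k + 1) * m ≤ n * m := Nat.mul_le_mul_right m hk
      linarith [this, add_mul k 1 m]
    induction j with
    | zero =>
      simp only [range_zero, sum_empty, add_zero]
      exact (cocycle_self hpos hα (hmem _ (by omega))).symm
    | succ j ih =>
      rw [sum_range_succ, ih (by omega)]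
      apply hα _ (hmem _ (by omega)) _ (hmem _ (by omega)) _ (hmem _ (by omega))
      · exact hadj _ _ (by omega) (by omega) (by omega)
      · exact hadj _ _ (by omega) (by omega) (by omega)
      · exact hadj _ _ (by omega) (by omega) (by omega)
  have houter : ∀ k ≤ n, ∑ i ∈ range (k * m), α (pt v (n * m) i) (pt v (n * m) (i + 1)) =
      ∑ i ∈ range k, α (pt v n i) (pt v n (i + 1)) := by
    intro k hk
    induction k with
    | zero => simp
    | succ k ih =>
      rw [add_mul, one_mul, sum_range_add, ih (by omega), sum_range_succ, hinner k (by omega) m le_rfl]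
      congr 1
      have h1 : k * m + m = (k + 1) * m := by ring
      rw [h1, pt_mul v hm, pt_mul v hm]
  exact houter n le_rfl

include hK hpos hanti hα in
lemma seg_sub {u v : ℂ} (hu : u ∈ K) (hv : v ∈ K) {n : ℕ} (hn : 0 < n)
    (hfine : ‖u - v‖ + max ‖u‖ ‖v‖ / n < σ (max ‖u‖ ‖v‖)) : seg α v n - seg α u n = α u v := by
  have hn' : (0:ℝ) < n := by exact_mod_cast hn
  have hu' : ∀ i ≤ n, pt u n i ∈ K := fun i hi => pt_mem hK hu hi
  have hv' : ∀ i ≤ n, pt v n i ∈ K := fun i hi => pt_mem hK hv hi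
  have hnu : ∀ i ≤ n, ‖pt u n i‖ ≤ max ‖u‖ ‖v‖ := fun i hi => (norm_pt_le u hi).trans (le_max_left _ _)
  have hnv : ∀ i ≤ n, ‖pt v n i‖ ≤ max ‖u‖ ‖v‖ := fun i hi => (norm_pt_le v hi).trans (le_max_right _ _)
  have hstep : ∀ (w : ℂ) i, ‖w‖ ≤ max ‖u‖ ‖v‖ → ‖pt w n i - pt w n (i + 1)‖ ≤ max ‖u‖ ‖v‖ / n := by
    intro w i hw
    rw [norm_pt_sub w (by omega)]
    push_cast
    calc ((i : ℝ) + 1 - i) / n * ‖w‖ = ‖w‖ / n := by ring
      _ ≤ max ‖u‖ ‖v‖ / n := by gcongr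
  have hcross : ∀ i ≤ n, ‖pt u n i - pt v n i‖ ≤ ‖u - v‖ := by
    intro i hi
    rw [pt_sub_pt]
    exact norm_pt_le _ hi
  have hA : ∀ a b : ℂ, ‖a‖ ≤ max ‖u‖ ‖v‖ → ‖b‖ ≤ max ‖u‖ ‖v‖ →
      ‖a - b‖ ≤ ‖u - v‖ + max ‖u‖ ‖v‖ / n → Adj σ a b := by
    intro a b ha hb hab
    exact lt_of_lt_of_le (lt_of_le_of_lt hab hfine) (hanti (max_le ha hb))
  have h0 : 0 ≤ max ‖u‖ ‖v‖ / n := by positivity
  have key : ∀ k ≤ n, ∑ i ∈ range k, α (pt v n i) (pt v n (i + 1)) -
      ∑ i ∈ range k, α (pt u n i) (pt u n (i + 1)) = α (pt u n k) (pt v n k) := by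
    intro k hk
    induction k with
    | zero =>
      simp only [range_zero, sum_empty, sub_zero, pt_zero]
      have h00 : (0:ℂ) ∈ K := by have := hv' 0 (by omega); rwa [pt_zero] at this
      exact (cocycle_self hpos hα h00).symm
    | succ k ih =>
      have ih' := ih (by omega)
      rw [sum_range_succ, sum_range_succ]
      have e1 : α (pt u n k) (pt v n k) + α (pt v n k) (pt v n (k + 1)) =
          α (pt u n k) (pt v n (k + 1)) := by
        apply hα _ (hu' _ (by omega)) _ (hv' _ (by omega)) _ (hv' _ (by omega))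
        · exact hA _ _ (hnu _ (by omega)) (hnv _ (by omega)) (by linarith [hcross k (by omega)])
        · exact hA _ _ (hnv _ (by omega)) (hnv _ (by omega))
            (by linarith [hstep v k (le_max_right _ _), norm_nonneg (u - v)])
        · apply hA _ _ (hnu _ (by omega)) (hnv _ (by omega))
          calc ‖pt u n k - pt v n (k + 1)‖ = ‖(pt u n k - pt v n k) + (pt v n k - pt v n (k + 1))‖ := by
                congr 1; ring
            _ ≤ ‖pt u n k - pt v n k‖ + ‖pt v n k - pt v n (k + 1)‖ := norm_add_le _ _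
            _ ≤ _ := by linarith [hcross k (by omega), hstep v k (le_max_right _ _)]
      have e2 : α (pt u n k) (pt u n (k + 1)) + α (pt u n (k + 1)) (pt v n (k + 1)) =
          α (pt u n k) (pt v n (k + 1)) := by
        apply hα _ (hu' _ (by omega)) _ (hu' _ (by omega)) _ (hv' _ (by omega))
        · exact hA _ _ (hnu _ (by omega)) (hnu _ (by omega))
            (by linarith [hstep u k (le_max_left _ _), norm_nonneg (u - v)])
        · exact hA _ _ (hnu _ (by omega)) (hnv _ (by omega)) (by linarith [hcross (k+1) (by omega)])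
        · apply hA _ _ (hnu _ (by omega)) (hnv _ (by omega))
          calc ‖pt u n k - pt v n (k + 1)‖ = ‖(pt u n k - pt v n k) + (pt v n k - pt v n (k + 1))‖ := by
                congr 1; ring
            _ ≤ ‖pt u n k - pt v n k‖ + ‖pt v n k - pt v n (k + 1)‖ := norm_add_le _ _
            _ ≤ _ := by linarith [hcross k (by omega), hstep v k (le_max_right _ _)]
      have : α (pt u n (k + 1)) (pt v n (k + 1)) =
          α (pt u n k) (pt v n k) + α (pt v n k) (pt v n (k + 1)) - α (pt u n k) (pt u n (k + 1)) := by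
        rw [e1, ← e2]; abel
      rw [this, ← ih']
      abel
  have := key n le_rfl
  rw [pt_self u hn, pt_self v hn] at this
  exact this

include hK hpos hanti hα in
/-- cocycles on a star-shaped set are exact -/
theorem exact_of_cocycle : ∃ β : ℂ → G, ∀ u ∈ K, ∀ v ∈ K, Adj σ u v → α u v = β v - β u := by
  have hN : ∀ v : ℂ, ∃ n : ℕ, 0 < n ∧ ‖v‖ / n < σ ‖v‖ := by
    intro v
    obtain ⟨n, hn⟩ := exists_nat_gt (‖v‖ / σ ‖v‖)
    have h1 : (0:ℝ) ≤ ‖v‖ / σ ‖v‖ := div_nonneg (norm_nonneg _) (hpos _).le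
    have hn0 : (0:ℝ) < n := lt_of_le_of_lt h1 hn
    refine ⟨n, by exact_mod_cast hn0, ?_⟩
    rw [div_lt_iff₀ (hpos _)] at hn
    rw [div_lt_iff₀ hn0]
    linarith [mul_comm (σ ‖v‖) (n:ℝ)]
  choose N hN0 hN1 using hN
  refine ⟨fun v => seg α v (N v), ?_⟩
  intro u hu v hv huv
  -- a large multiple
  obtain ⟨m, hm⟩ := exists_nat_gt (max ‖u‖ ‖v‖ / (σ (max ‖u‖ ‖v‖) - ‖u - v‖))
  have hgap : 0 < σ (max ‖u‖ ‖v‖) - ‖u - v‖ := sub_pos.2 huv
  have hmax : 0 ≤ max ‖u‖ ‖v‖ := le_trans (norm_nonneg u) (le_max_left _ _)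
  have hm0 : (0:ℝ) < m := lt_of_le_of_lt (div_nonneg hmax hgap.le) hm
  have hm0' : 0 < m := by exact_mod_cast hm0
  have h1 : seg α u (N u * (N v * m)) = seg α u (N u) :=
    seg_mul hK hpos hanti hα hu (hN0 u) (Nat.mul_pos (hN0 v) hm0') (hN1 u)
  have h2 : seg α v (N v * (N u * m)) = seg α v (N v) :=
    seg_mul hK hpos hanti hα hv (hN0 v) (Nat.mul_pos (hN0 u) hm0') (hN1 v)
  have h3 : N v * (N u * m) = N u * (N v * m) := by ring
  rw [h3] at h2
  have hbig : 0 < N u * (N v * m) := Nat.mul_pos (hN0 u) (Nat.mul_pos (hN0 v) hm0')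
  have h4 := seg_sub hK hpos hanti hα hu hv hbig ?_
  · show α u v = seg α v (N v) - seg α u (N u)
    rw [← h1, ← h2, h4]
  · have h5 : (m : ℝ) ≤ ((N u * (N v * m) : ℕ) : ℝ) := by
      have : m ≤ N u * (N v * m) := by
        calc m = 1 * (1 * m) := by ring
          _ ≤ N u * (N v * m) := Nat.mul_le_mul (hN0 u) (Nat.mul_le_mul (hN0 v) le_rfl)
      exact_mod_cast this
    have h6 : max ‖u‖ ‖v‖ / ((N u * (N v * m) : ℕ) : ℝ) ≤ max ‖u‖ ‖v‖ / m := by
      gcongr
    have h7 : max ‖u‖ ‖v‖ / m < σ (max ‖u‖ ‖v‖) - ‖u - v‖ := by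
      rw [div_lt_iff₀ hgap] at hm
      rw [div_lt_iff₀ hm0]
      linarith [mul_comm (σ (max ‖u‖ ‖v‖) - ‖u - v‖) (m:ℝ)]
    linarith

end

/-- cocycles on the plane are exact -/
theorem exact_plane {G : Type*} [AddCommGroup G] {τ : ℝ → ℝ} (hτ : Scale τ) (α : ℂ → ℂ → G)
    (hα : ∀ u v w, Adj τ u v → Adj τ v w → Adj τ u w → α u v + α v w = α u w) :
    ∃ β : ℂ → G, ∀ u v, Adj τ u v → α u v = β v - β u := by
  obtain ⟨β, hβ⟩ := exact_of_cocycle (K := univ) (σ := τ) (α := α) (fun _ _ _ _ _ => mem_univ _)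
    hτ.pos hτ.anti (fun u _ v _ w _ => hα u v w)
  exact ⟨β, fun u v h => hβ u (mem_univ _) v (mem_univ _) h⟩

end Pool.Agent.N466.Pl
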