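import Mathlib

/-! The mountain climbing lemma for integer valued walks. -/

set_option autoImplicit false

namespace Pool.Agent.N466.Pl

open Relation

/-- one simultaneous move of two climbers that are at equal heights before and after -/
def MStep (f g : ℕ → ℤ) (n m : ℕ) (p q : ℕ × ℕ) : Prop :=
  p.1 ≤ n ∧ q.1 ≤ n ∧ p.2 ≤ m ∧ q.2 ≤ m ∧ p.1 ≤ q.1 + 1 ∧ q.1 ≤ p.1 + 1 ∧ p.2 ≤ q.2 + 1 ∧
    q.2 ≤ p.2 + 1 ∧ f p.1 = g p.2 ∧ f q.1 = g q.2

def MReach (f g : ℕ → ℤ) (n m : ℕ) : ℕ × ℕ → ℕ × ℕ → Prop := ReflTransGen (MStep f g n m)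

lemma MReach.symm {f g : ℕ → ℤ} {n m : ℕ} {p q : ℕ × ℕ} (h : MReach f g n m p q) :
    MReach f g n m q p := by
  induction h with
  | refl => exact ReflTransGen.refl
  | tail _ h2 ih =>
    obtain ⟨a, b, c, d, e, f, g, h, i, j⟩ := h2
    exact (ReflTransGen.single ⟨b, a, d, c, f, e, h, g, j, i⟩).trans ih

lemma MReach.map {f g f' g' : ℕ → ℤ} {n m n' m' : ℕ} (φ ψ : ℕ → ℕ)
    (hφ : ∀ i ≤ n', φ i ≤ n) (hψ : ∀ i ≤ m', ψ i ≤ m)
    (hφ1 : ∀ i ≤ n', ∀ j ≤ n', i ≤ j + 1 → j ≤ i + 1 → φ i ≤ φ j + 1)
    (hψ1 : ∀ i ≤ m', ∀ j ≤ m', i ≤ j + 1 → j ≤ i + 1 → ψ i ≤ ψ j + 1)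
    (hfg : ∀ i ≤ n', ∀ j ≤ m', f' i = g' j → f (φ i) = g (ψ j))
    {p q : ℕ × ℕ} (h : MReach f' g' n' m' p q) :
    MReach f g n m (φ p.1, ψ p.2) (φ q.1, ψ q.2) := by
  induction h with
  | refl => exact ReflTransGen.refl
  | @tail b c _ h2 ih =>
    obtain ⟨h1, h2, h3, h4, h5, h6, h7, h8, h9, h10⟩ := h2
    refine ReflTransGen.tail ih ⟨hφ _ h1, hφ _ h2, hψ _ h3, hψ _ h4, hφ1 _ h1 _ h2 h5 h6,
      hφ1 _ h2 _ h1 h6 h5, hψ1 _ h3 _ h4 h7 h8, hψ1 _ h4 _ h3 h8 h7, hfg _ h1 _ h3 h9,
      hfg _ h2 _ h4 h10⟩

/-- a walk from the bottom `b` at time `0` to the top `t` at time `n` -/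
structure Mt (f : ℕ → ℤ) (n : ℕ) (b t : ℤ) : Prop where
  zero : f 0 = b
  last : f n = t
  low : ∀ i ≤ n, b ≤ f i
  up : ∀ i ≤ n, f i ≤ t
  step : ∀ i < n, |f (i + 1) - f i| ≤ 1

lemma Mt.rev_neg {f : ℕ → ℤ} {n : ℕ} {b t : ℤ} (h : Mt f n b t) :
    Mt (fun k => - f (n - k)) n (-t) (-b) where
  zero := by simp [h.last]
  last := by simp [h.zero]
  low := fun i _ => by have := h.up (n - i) (by omega); simpa using this
  up := fun i _ => by have := h.low (n - i) (by omega); simpa using this
  step := fun i hi => by
    have h1 := h.step (n - (i + 1)) (by omega)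
    have h2 : n - (i + 1) + 1 = n - i := by omega
    rw [h2] at h1
    rw [abs_sub_comm] at h1
    calc |-f (n - (i + 1)) - -f (n - i)| = |f (n - (i+1)) - f (n - i)| := by
          rw [← abs_neg]; congr 1; ring
      _ ≤ 1 := h1

lemma Mt.take {f : ℕ → ℤ} {n : ℕ} {b t : ℤ} (h : Mt f n b t) {i : ℕ} (hi : i ≤ n)
    (hmax : ∀ k ≤ i, f k ≤ f i) : Mt f i b (f i) where
  zero := h.zero
  last := rfl
  low := fun k hk => h.low k (by omega)
  up := hmax
  step := fun k hk => h.step k (by omega)

lemma Mt.drop {f : ℕ → ℤ} {n : ℕ} {b t : ℤ} (h : Mt f n b t) {i : ℕ} (hi : i ≤ n)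
    (hb : f i = b) : Mt (fun k => f (i + k)) (n - i) b t where
  zero := by simpa using hb
  last := by
    have : i + (n - i) = n := by omega
    simp [this, h.last]
  low := fun k hk => h.low _ (by omega)
  up := fun k hk => h.up _ (by omega)
  step := fun k hk => by
    have := h.step (i + k) (by omega)
    simpa [add_assoc] using this

lemma Mt.back {f : ℕ → ℤ} {n : ℕ} {b t : ℤ} (h : Mt f n b t) {i s : ℕ} (hi : i ≤ n) (hs : s ≤ i)
    (hb : f i = b) (hmax : ∀ k, s ≤ k → k ≤ i → f k ≤ f s) :
    Mt (fun k => f (i - k)) (i - s) b (f s) where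
  zero := by simpa using hb
  last := by
    have : i - (i - s) = s := by omega
    simp [this]
  low := fun k hk => h.low _ (by omega)
  up := fun k hk => hmax _ (by omega) (by omega)
  step := fun k hk => by
    have h1 := h.step (i - (k + 1)) (by omega)
    have h2 : i - (k + 1) + 1 = i - k := by omega
    rw [h2, abs_sub_comm] at h1
    exact h1

/-- the first time a height is reached -/
lemma first_hit {g : ℕ → ℤ} {m : ℕ} {h : ℤ} (hstep : ∀ i < m, |g (i + 1) - g i| ≤ 1)
    (h0 : g 0 ≤ h) (hm : h ≤ g m) : ∃ j ≤ m, g j = h ∧ ∀ k ≤ j, g k ≤ h := by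
  classical
  have hex : ∃ j, h ≤ g j := ⟨m, hm⟩
  have hj : h ≤ g (Nat.find hex) := Nat.find_spec hex
  have hjm : Nat.find hex ≤ m := Nat.find_min' hex hm
  have hlt : ∀ k < Nat.find hex, g k < h := fun k hk => by
    have := Nat.find_min hex hk
    push Not at this
    exact this
  have hle : g (Nat.find hex) ≤ h := by
    rcases Nat.eq_zero_or_pos (Nat.find hex) with h0' | h0'
    · rw [h0']; exact h0
    · have h1 := hlt (Nat.find hex - 1) (by omega)
      have h2 := hstep (Nat.find hex - 1) (by omega)
      have h3 : Nat.find hex - 1 + 1 = Nat.find hex := by omega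
      rw [h3, abs_le] at h2
      omega
  refine ⟨Nat.find hex, hjm, le_antisymm hle hj, ?_⟩
  intro k hk
  rcases Nat.lt_or_ge k (Nat.find hex) with h1 | h1
  · exact (hlt k h1).le
  · have : k = Nat.find hex := by omega
    rw [this]; exact hle

/-- the induction hypothesis -/
def IH (N : ℕ) : Prop := ∀ n m : ℕ, n + m < N → ∀ (f g : ℕ → ℤ) (b t : ℤ), Mt f n b t →
  Mt g m b t → MReach f g n m (0, 0) (n, m)

lemma take_reach {f g : ℕ → ℤ} {n m n' m' : ℕ} (hn : n' ≤ n) (hm : m' ≤ m) {p q : ℕ × ℕ}
    (h : MReach f g n' m' p q) : MReach f g n m p q := by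
  have := MReach.map (f := f) (g := g) (n := n) (m := m) (fun i => i) (fun i => i)
    (fun i hi => by omega) (fun i hi => by omega) (fun i _ j _ h _ => h) (fun i _ j _ h _ => h)
    (fun i _ j _ h => h) h
  exact this

/-- the climber on `f` makes an excursion from the bottom to the bottom -/
lemma excursion {N n m : ℕ} (hN : n + m = N) (ih : IH N) {f g : ℕ → ℤ} {b t : ℤ}
    (hf : Mt f n b t) (hg : Mt g m b t) {i : ℕ} (hi : i < n) (hb : f i = b) :
    MReach f g n m (0, 0) (i, 0) := by
  obtain ⟨s, hs, hmax⟩ := Finset.exists_max_image (Finset.range (i + 1)) f ⟨0, by simp⟩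
  rw [Finset.mem_range] at hs
  have hmax' : ∀ k ≤ i, f k ≤ f s := fun k hk => hmax k (Finset.mem_range.2 (by omega))
  obtain ⟨j, hj, hgj, hgle⟩ := first_hit (g := g) (m := m) (h := f s) hg.step
    (by rw [hg.zero]; exact hf.low s (by omega)) (by rw [hg.last]; exact hf.up s (by omega))
  have hgt : Mt g j b (f s) := by
    have := hg.take hj (fun k hk => by rw [hgj]; exact hgle k hk)
    rwa [hgj] at this
  have h1 : MReach f g s j (0, 0) (s, j) :=
    ih s j (by omega) f g b (f s) (hf.take (by omega) (fun k hk => hmax' k (by omega))) hgt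
  have h2 : MReach (fun k => f (i - k)) g (i - s) j (0, 0) (i - s, j) :=
    ih (i - s) j (by omega) _ g b (f s)
      (hf.back (by omega) (by omega) hb (fun k _ hk => hmax' k hk)) hgt
  have h1' : MReach f g n m (0, 0) (s, j) := take_reach (by omega) hj h1
  have h2' : MReach f g n m (i, 0) (s, j) := by
    have := MReach.map (f := f) (g := g) (n := n) (m := m) (fun k => i - k) (fun k => k)
      (fun k hk => by omega) (fun k hk => by omega) (fun k _ l _ h h' => by omega)
      (fun k _ l _ h _ => h) (fun k _ l _ h => h) h2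
    have e : i - (i - s) = s := by omega
    simpa [e] using this
  exact h1'.trans h2'.symm

/-- case: `f` has an interior visit to the bottom or to the top -/
lemma interior {N n m : ℕ} (hN : n + m = N) (ih : IH N) {f g : ℕ → ℤ} {b t : ℤ}
    (hf : Mt f n b t) (hg : Mt g m b t) {i : ℕ} (hi0 : 0 < i) (hi : i < n)
    (hb : f i = b ∨ f i = t) : MReach f g n m (0, 0) (n, m) := by
  rcases hb with hb | ht
  · have h1 := excursion hN ih hf hg hi hb
    have h2 : MReach (fun k => f (i + k)) g (n - i) m (0, 0) (n - i, m) :=
      ih (n - i) m (by omega) _ g b t (hf.drop hi.le hb) hg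
    have h3 := MReach.map (f := f) (g := g) (n := n) (m := m) (fun k => i + k) (fun k => k)
      (fun k hk => by omega) (fun k hk => by omega) (fun k _ l _ h h' => by omega)
      (fun k _ l _ h _ => h) (fun k _ l _ h => h) h2
    have e : i + (n - i) = n := by omega
    simp only [e, add_zero] at h3
    exact h1.trans h3
  · have h1 : MReach f g i m (0, 0) (i, m) := by
      have hfi : Mt f i b t := by
        have := hf.take hi.le (fun k hk => by rw [ht]; exact hf.up k (by omega))
        rwa [ht] at this
      exact ih i m (by omega) f g b t hfi hg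
    have h1' := take_reach (n := n) (m := m) hi.le le_rfl h1
    have h2 : MReach (fun k => - f (n - k)) (fun k => - g (m - k)) n m (0, 0) (n - i, 0) := by
      apply excursion hN ih hf.rev_neg hg.rev_neg (by omega)
      have e : n - (n - i) = i := by omega
      simp [e, ht]
    have h3 := MReach.map (f := f) (g := g) (n := n) (m := m) (fun k => n - k) (fun k => m - k)
      (fun k hk => by omega) (fun k hk => by omega) (fun k _ l _ h h' => by omega)
      (fun k _ l _ h _ => by omega) (fun k _ l _ h => by simpa using h) h2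
    have e : n - (n - i) = i := by omega
    simp only [e, Nat.sub_zero] at h3
    exact h1'.trans h3.symm

lemma MReach.swap {f g : ℕ → ℤ} {n m : ℕ} {p q : ℕ × ℕ} (h : MReach g f m n p q) :
    MReach f g n m (p.2, p.1) (q.2, q.1) := by
  induction h with
  | refl => exact ReflTransGen.refl
  | tail _ h2 ih =>
    obtain ⟨h1, h2, h3, h4, h5, h6, h7, h8, h9, h10⟩ := h2
    exact ReflTransGen.tail ih ⟨h3, h4, h1, h2, h7, h8, h5, h6, h9.symm, h10.symm⟩

/-- the mountain climbing lemma -/
theorem climb {f g : ℕ → ℤ} {n m : ℕ} {b t : ℤ} (hf : Mt f n b t) (hg : Mt g m b t) :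
    MReach f g n m (0, 0) (n, m) := by
  have key : ∀ N, IH N := by
    intro N
    induction N with
    | zero => intro n m h; omega
    | succ N ih =>
      intro n m hnm f g b t hf hg
      rcases Nat.lt_or_ge (n + m) N with h | h
      · exact ih n m h f g b t hf hg
      have hN : n + m = N := by omega
      clear h hnm
      -- interior visits of `f` or `g`
      by_cases h1 : ∃ i, 0 < i ∧ i < n ∧ (f i = b ∨ f i = t)
      · obtain ⟨i, hi0, hi, hb⟩ := h1
        exact interior hN ih hf hg hi0 hi hb
      by_cases h2 : ∃ i, 0 < i ∧ i < m ∧ (g i = b ∨ g i = t)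
      · obtain ⟨i, hi0, hi, hb⟩ := h2
        exact (interior (by omega) ih hg hf hi0 hi hb).swap
      push Not at h1 h2
      -- the case `n = 0`
      have hconst : ∀ (p : ℕ → ℤ) (k : ℕ), Mt p k b t → b = t →
          (∀ i, 0 < i → i < k → p i ≠ b ∧ p i ≠ t) → k ≤ 1 := by
        intro p k hp hbt hno
        by_contra hk
        push Not at hk
        have := hno 1 one_pos hk
        have h3 := hp.low 1 (by omega)
        have h4 := hp.up 1 (by omega)
        omega
      by_cases hbt : b = t
      · have hn1 := hconst f n hf hbt h1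
        have hm1 := hconst g m hg hbt h2
        refine ReflTransGen.single ⟨by simp, by simp, by simp, by simp, by simp, by simpa using hn1,
          by simp, by simpa using hm1, ?_, ?_⟩
        · simp [hf.zero, hg.zero]
        · simp [hf.last, hg.last]
      · have hlt : b < t := by
          have h3 := hf.low n le_rfl
          rw [hf.last] at h3
          omega
        have hpos : ∀ (p : ℕ → ℤ) (k : ℕ), Mt p k b t → 0 < k := by
          intro p k hp
          rcases Nat.eq_zero_or_pos k with h0 | h0
          · exfalso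
            subst h0
            have := hp.zero
            have := hp.last
            omega
          · exact h0
        have hn0 := hpos f n hf
        have hm0 := hpos g m hg
        by_cases hn1 : n = 1
        · -- then `t = b + 1` and `m = 1`
          subst hn1
          have hs := hf.step 0 one_pos
          rw [zero_add, hf.last, hf.zero, abs_le] at hs
          have hm1 : m = 1 := by
            by_contra hm1
            have h3 := h2 1 one_pos (by omega)
            have h4 := hg.low 1 (by omega)
            have h5 := hg.up 1 (by omega)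
            omega
          subst hm1
          refine ReflTransGen.single ⟨by simp, by simp, by simp, by simp, by simp, by simp,
            by simp, by simp, ?_, ?_⟩
          · simp [hf.zero, hg.zero]
          · simp [hf.last, hg.last]
        by_cases hm1 : m = 1
        · subst hm1
          exfalso
          have hs := hg.step 0 one_pos
          rw [zero_add, hg.last, hg.zero, abs_le] at hs
          have h3 := h1 1 one_pos (by omega)
          have h4 := hf.low 1 (by omega)
          have h5 := hf.up 1 (by omega)
          omega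
        have hone : ∀ (p : ℕ → ℤ) (k : ℕ), Mt p k b t → 1 < k →
            (∀ i, 0 < i → i < k → p i ≠ b ∧ p i ≠ t) →
            Mt (fun i => p (1 + i)) (k - 1) (b + 1) t := by
          intro p k hp hk hno
          have hp1 : p 1 = b + 1 := by
            have hs := hp.step 0 (by omega)
            rw [zero_add, hp.zero, abs_le] at hs
            have h3 := hno 1 one_pos (by omega)
            have h4 := hp.low 1 (by omega)
            omega
          refine ⟨by simpa using hp1, ?_, ?_, ?_, ?_⟩
          · have : 1 + (k - 1) = k := by omega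
            simp [this, hp.last]
          · intro i hi
            have h4 := hp.low (1 + i) (by omega)
            rcases Nat.lt_or_ge (1 + i) k with h5 | h5
            · have h3 := hno (1 + i) (by omega) h5
              show b + 1 ≤ p (1 + i)
              omega
            · have : 1 + i = k := by omega
              show b + 1 ≤ p (1 + i)
              rw [this, hp.last]
              omega
          · intro i hi
            exact hp.up _ (by omega)
          · intro i hi
            have := hp.step (1 + i) (by omega)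
            simpa [add_assoc] using this
        have h3 := ih (n - 1) (m - 1) (by omega) _ _ _ _ (hone f n hf (by omega) h1)
          (hone g m hg (by omega) h2)
        have h4 := MReach.map (f := f) (g := g) (n := n) (m := m) (fun k => 1 + k) (fun k => 1 + k)
          (fun k hk => by omega) (fun k hk => by omega) (fun k _ l _ h h' => by omega)
          (fun k _ l _ h _ => by omega) (fun k _ l _ h => h) h3
        have e1 : 1 + (n - 1) = n := by omega
        have e2 : 1 + (m - 1) = m := by omega
        simp only [e1, e2, add_zero] at h4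
        refine ReflTransGen.trans (ReflTransGen.single ?_) h4
        have hf1 := (hone f n hf (by omega) h1).zero
        have hg1 := (hone g m hg (by omega) h2).zero
        simp only [add_zero] at hf1 hg1
        refine ⟨by simp, by show 1 ≤ n; omega, by simp, by show 1 ≤ m; omega, by simp, by simp,
            by simp, by simp, ?_, ?_⟩
        · simp [hf.zero, hg.zero]
        · simp [hf1, hg1]
  exact key (n + m + 1) n m (by omega) f g b t hf hg

end Pool.Agent.N466.Pl
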