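import Pool.Agent.N466.Pl.Wind
import Pool.Agent.N466.Pl.MC

set_option autoImplicit false

namespace Pool.Agent.N466.Pl

open Set Relation Finset

variable {τ : ℝ → ℝ}

/-- a colouring of the plane with two classes of three colours, with a near/far relation -/
structure Dat (τ : ℝ → ℝ) where
  c : ℂ → Bool × ZMod 3
  Near : ℂ → ℂ → Prop
  n0 : ∀ v, Near v v
  n1 : ∀ v w v' w', c v = c w → c v' = c w' → Adj τ v v' → Adj τ w w' → Near v w → Near v' w'
  n2 : ∀ v w, c v = c w → Near v w → ‖v - w‖ ≤ 1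
  n3 : ∀ v w, c v = c w → ¬ Near v w → 1 ≤ ‖v - w‖

variable (D : Dat τ)

/-- a walk in `S` with a height function that lifts the colours -/
structure Path (S : Set ℂ) (γ : ℕ → ℂ) (F : ℕ → ℤ) (n : ℕ) : Prop where
  mem : ∀ i ≤ n, γ i ∈ S
  col : ∀ i ≤ n, ((F i : ℤ) : ZMod 3) = (D.c (γ i)).2
  adj : ∀ i < n, Adj τ (γ i) (γ (i + 1))
  step : ∀ i < n, |F (i + 1) - F i| ≤ 1

variable {D} {S : Set ℂ}

lemma Path.shift {γ : ℕ → ℂ} {F : ℕ → ℤ} {n : ℕ} (h : Path D S γ F n) {a m : ℕ} (ham : a + m ≤ n) :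
    Path D S (fun k => γ (a + k)) (fun k => F (a + k)) m where
  mem := fun i hi => h.mem (a + i) (by omega)
  col := fun i hi => h.col (a + i) (by omega)
  adj := fun i hi => h.adj (a + i) (by omega)
  step := fun i hi => h.step (a + i) (by omega)

lemma Path.take {γ : ℕ → ℂ} {F : ℕ → ℤ} {n : ℕ} (h : Path D S γ F n) {m : ℕ} (hm : m ≤ n) :
    Path D S γ F m where
  mem := fun i hi => h.mem _ (by omega)
  col := fun i hi => h.col _ (by omega)
  adj := fun i hi => h.adj _ (by omega)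
  step := fun i hi => h.step _ (by omega)

lemma Path.back {γ : ℕ → ℂ} {F : ℕ → ℤ} {n : ℕ} (h : Path D S γ F n) {a m : ℕ} (ha : a ≤ n)
    (hm : m ≤ a) : Path D S (fun k => γ (a - k)) (fun k => F (a - k)) m where
  mem := fun i hi => h.mem (a - i) (by omega)
  col := fun i hi => h.col (a - i) (by omega)
  adj := fun i hi => by
    have h1 := (h.adj (a - (i + 1)) (by omega)).symm
    have e : a - (i + 1) + 1 = a - i := by omega
    rwa [e] at h1
  step := fun i hi => by
    have h1 := h.step (a - (i + 1)) (by omega)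
    have e : a - (i + 1) + 1 = a - i := by omega
    rw [e, abs_sub_comm] at h1
    exact h1

lemma Path.adj' (hτ : Scale τ) {γ : ℕ → ℂ} {F : ℕ → ℤ} {n : ℕ} (h : Path D S γ F n) {i j : ℕ}
    (hi : i ≤ n) (hj : j ≤ n) (hij : i ≤ j + 1) (hji : j ≤ i + 1) : Adj τ (γ i) (γ j) := by
  rcases Nat.lt_trichotomy i j with h1 | h1 | h1
  · have : j = i + 1 := by omega
    subst this
    exact h.adj i (by omega)
  · subst h1; exact Adj.refl hτ _
  · have : i = j + 1 := by omega
    subst this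
    exact (h.adj j (by omega)).symm

lemma color_eq {b : Bool} (hS : ∀ v ∈ S, (D.c v).1 = b) {γ γ' : ℕ → ℂ} {F F' : ℕ → ℤ} {n n' : ℕ}
    (h : Path D S γ F n) (h' : Path D S γ' F' n') {i j : ℕ} (hi : i ≤ n) (hj : j ≤ n')
    (hF : F i = F' j) : D.c (γ i) = D.c (γ' j) := by
  apply Prod.ext
  · rw [hS _ (h.mem i hi), hS _ (h'.mem j hj)]
  · rw [← h.col i hi, ← h'.col j hj, hF]

lemma near_transfer (hτ : Scale τ) {b : Bool} (hS : ∀ v ∈ S, (D.c v).1 = b) {γ γ' : ℕ → ℂ}
    {F F' : ℕ → ℤ} {n n' : ℕ} (h : Path D S γ F n) (h' : Path D S γ' F' n') {p q : ℕ × ℕ}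
    (hpq : MReach F F' n n' p q) (hp : D.Near (γ p.1) (γ' p.2)) : D.Near (γ q.1) (γ' q.2) := by
  induction hpq with
  | refl => exact hp
  | tail _ h2 ih =>
    obtain ⟨h1, h2, h3, h4, h5, h6, h7, h8, h9, h10⟩ := h2
    exact D.n1 _ _ _ _ (color_eq hS h h' h1 h3 h9) (color_eq hS h h' h2 h4 h10)
      (h.adj' hτ h1 h2 h5 h6) (h'.adj' hτ h3 h4 h7 h8) ih

lemma neg_reach {f g : ℕ → ℤ} {n m : ℕ} {p q : ℕ × ℕ}
    (h : MReach (fun k => - f k) (fun k => - g k) n m p q) : MReach f g n m p q := by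
  have := MReach.map (f := f) (g := g) (n := n) (m := m) (fun k => k) (fun k => k)
    (fun k hk => hk) (fun k hk => hk) (fun k _ l _ h _ => h) (fun k _ l _ h _ => h)
    (fun k _ l _ h => by simpa using h) h
  exact this

lemma neg_step {f : ℕ → ℤ} {m : ℕ} (hf : ∀ i < m, |f (i + 1) - f i| ≤ 1) :
    ∀ i < m, |-f (i + 1) - -f i| ≤ 1 := by
  intro i hi
  have h1 := hf i hi
  have h2 : -f (i + 1) - -f i = -(f (i + 1) - f i) := by ring
  rw [h2, abs_neg]
  exact h1

/-- both end points have the maximal height -/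
lemma near_max (hτ : Scale τ) {b : Bool} (hS : ∀ v ∈ S, (D.c v).1 = b) {γ : ℕ → ℂ}
    {F : ℕ → ℤ} {n : ℕ} (h : Path D S γ F n) (h0 : F 0 = F n) (hmax : ∀ i ≤ n, F i ≤ F n) :
    D.Near (γ 0) (γ n) := by
  obtain ⟨s, hs, hmin⟩ := Finset.exists_min_image (Finset.range (n + 1)) F ⟨0, by simp⟩
  rw [Finset.mem_range] at hs
  have hmin' : ∀ k ≤ n, F s ≤ F k := fun k hk => hmin k (Finset.mem_range.2 (by omega))
  have e : s + (n - s) = n := by omega
  have pb : Path D S (fun k => γ (s - k)) (fun k => F (s - k)) s := h.back (by omega) le_rfl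
  have pf : Path D S (fun k => γ (s + k)) (fun k => F (s + k)) (n - s) := h.shift (by omega)
  have h1 : Mt (fun k => F (s - k)) s (F s) (F n) :=
    { zero := rfl
      last := by show F (s - s) = F n; rw [Nat.sub_self, h0]
      low := fun i hi => hmin' (s - i) (by omega)
      up := fun i hi => hmax (s - i) (by omega)
      step := pb.step }
  have h2 : Mt (fun k => F (s + k)) (n - s) (F s) (F n) :=
    { zero := rfl
      last := by show F (s + (n - s)) = F n; rw [e]
      low := fun i hi => hmin' (s + i) (by omega)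
      up := fun i hi => hmax (s + i) (by omega)
      step := pf.step }
  have h3 := near_transfer hτ hS pb pf (climb h1 h2) (D.n0 (γ s))
  have h4 : D.Near (γ (s - s)) (γ (s + (n - s))) := h3
  rwa [Nat.sub_self, e] at h4

lemma near_min (hτ : Scale τ) {b : Bool} (hS : ∀ v ∈ S, (D.c v).1 = b) {γ : ℕ → ℂ}
    {F : ℕ → ℤ} {n : ℕ} (h : Path D S γ F n) (h0 : F 0 = F n) (hmin : ∀ i ≤ n, F n ≤ F i) :
    D.Near (γ 0) (γ n) := by
  obtain ⟨s, hs, hmax⟩ := Finset.exists_max_image (Finset.range (n + 1)) F ⟨0, by simp⟩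
  rw [Finset.mem_range] at hs
  have hmax' : ∀ k ≤ n, F k ≤ F s := fun k hk => hmax k (Finset.mem_range.2 (by omega))
  have e : s + (n - s) = n := by omega
  have pb : Path D S (fun k => γ (s - k)) (fun k => F (s - k)) s := h.back (by omega) le_rfl
  have pf : Path D S (fun k => γ (s + k)) (fun k => F (s + k)) (n - s) := h.shift (by omega)
  have h1 : Mt (fun k => - F (s - k)) s (- F s) (- F n) :=
    { zero := rfl
      last := by show - F (s - s) = - F n; rw [Nat.sub_self, h0]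
      low := fun i hi => neg_le_neg (hmax' (s - i) (by omega))
      up := fun i hi => neg_le_neg (hmin (s - i) (by omega))
      step := neg_step (f := fun k => F (s - k)) pb.step }
  have h2 : Mt (fun k => - F (s + k)) (n - s) (- F s) (- F n) :=
    { zero := rfl
      last := by show - F (s + (n - s)) = - F n; rw [e]
      low := fun i hi => neg_le_neg (hmax' (s + i) (by omega))
      up := fun i hi => neg_le_neg (hmin (s + i) (by omega))
      step := neg_step (f := fun k => F (s + k)) pf.step }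
  have h3 := near_transfer hτ hS pb pf (neg_reach (climb h1 h2)) (D.n0 (γ s))
  have h4 : D.Near (γ (s - s)) (γ (s + (n - s))) := h3
  rwa [Nat.sub_self, e] at h4

/-- winding of a walk around `z` -/
noncomputable def wd (z : ℂ) (γ : ℕ → ℂ) (n : ℕ) : ℝ := ∑ k ∈ range n, ang z (γ k) (γ (k + 1))

lemma wd_step (hτ : Scale τ) {z : ℂ} {γ : ℕ → ℂ} {F : ℕ → ℤ} {n : ℕ} (h : Path D S γ F n)
    (hz : ∀ v ∈ S, 9 / 10 ≤ ‖v - z‖) {i j : ℕ} (hi : i ≤ n) (hj : j ≤ n) (hij : i ≤ j + 1)
    (hji : j ≤ i + 1) : wd z γ j = wd z γ i + ang z (γ i) (γ j) := by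
  unfold wd
  rcases Nat.lt_trichotomy i j with h1 | h1 | h1
  · have : j = i + 1 := by omega
    subst this
    rw [sum_range_succ]
  · subst h1; rw [ang_self, add_zero]
  · have : i = j + 1 := by omega
    subst this
    rw [sum_range_succ, ang_symm (hz _ (h.mem j (by omega))) (hz _ (h.mem (j+1) hi))
      (by linarith [(h.adj j (by omega)).lt hτ])]
    ring

lemma wind_transfer (hτ : Scale τ) {b : Bool} (hS : ∀ v ∈ S, (D.c v).1 = b) {z : ℂ}
    (hz : ∀ v ∈ S, 9 / 10 ≤ ‖v - z‖) {γ γ' : ℕ → ℂ}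
    {F F' : ℕ → ℤ} {n n' : ℕ} (h : Path D S γ F n) (h' : Path D S γ' F' n') {p q : ℕ × ℕ}
    (hpq : MReach F F' n n' p q) (hp : D.Near (γ p.1) (γ' p.2))
    (hw : wd z γ p.1 + ang z (γ p.1) (γ' p.2) = wd z γ' p.2) :
    wd z γ q.1 + ang z (γ q.1) (γ' q.2) = wd z γ' q.2 := by
  induction hpq with
  | refl => exact hw
  | @tail x y hpx hxy ih =>
    have hnx := near_transfer hτ hS h h' hpx hp
    have hny := near_transfer hτ hS h h' (hpx.tail hxy) hp
    obtain ⟨h1, h2, h3, h4, h5, h6, h7, h8, h9, h10⟩ := hxy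
    have dx := D.n2 _ _ (color_eq hS h h' h1 h3 h9) hnx
    have dy := D.n2 _ _ (color_eq hS h h' h2 h4 h10) hny
    have a1 := hz _ (h.mem _ h1)
    have a2 := hz _ (h.mem _ h2)
    have a3 := hz _ (h'.mem _ h3)
    have a4 := hz _ (h'.mem _ h4)
    have b1 : ‖γ x.1 - γ y.1‖ ≤ 1 := by linarith [(h.adj' hτ h1 h2 h5 h6).lt hτ]
    have b2 : ‖γ' x.2 - γ' y.2‖ ≤ 1 := by linarith [(h'.adj' hτ h3 h4 h7 h8).lt hτ]
    rw [wd_step hτ h hz h1 h2 h5 h6, wd_step hτ h' hz h3 h4 h7 h8, ← ih]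
    have e1 := ang_add' a1 a2 a4 b1 dy
    have e2 := ang_add' a1 a3 a4 dx b2
    linarith

lemma sum_periodic (h : ℕ → ℝ) (n : ℕ) (hp : ∀ k, h (k + n) = h k) (s : ℕ) :
    ∑ j ∈ range n, h (s + j) = ∑ j ∈ range n, h j := by
  induction s with
  | zero => simp
  | succ s ih =>
    rw [← ih]
    have h1 : ∑ j ∈ range (n + 1), h (s + j) = ∑ j ∈ range n, h (s + j) + h (s + n) :=
      sum_range_succ _ _
    have h2 : ∑ j ∈ range (n + 1), h (s + j) = ∑ j ∈ range n, h (s + (j + 1)) + h (s + 0) :=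
      sum_range_succ' _ _
    rw [h1, hp s, add_zero] at h2
    have h3 : ∀ j, h (s + 1 + j) = h (s + (j + 1)) := fun j => by congr 1; ring
    simp only [h3]
    linarith

/-- the winding of a reversed walk -/
lemma wd_back (hτ : Scale τ) {z : ℂ} (hz : ∀ v ∈ S, 9 / 10 ≤ ‖v - z‖) {γ : ℕ → ℂ} {F : ℕ → ℤ}
    {n : ℕ} (h : Path D S γ F n) {m : ℕ} (hm : m ≤ n) :
    wd z (fun k => γ (n - k)) (n - m) =
      - ∑ j ∈ range (n - m), ang z (γ (m + j)) (γ (m + j + 1)) := by
  unfold wd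
  rw [← sum_range_reflect (fun j => ang z (γ (m + j)) (γ (m + j + 1))), ← sum_neg_distrib]
  apply sum_congr rfl
  intro k hk
  rw [Finset.mem_range] at hk
  have e1 : m + (n - m - 1 - k) = n - (k + 1) := by omega
  have e2 : n - (k + 1) + 1 = n - k := by omega
  have e3 : n - (k + 1) ≤ n := by omega
  have e4 : n - k ≤ n := by omega
  have h1 := h.adj (n - (k + 1)) (by omega)
  rw [e2] at h1
  rw [e1, e2]
  exact ang_symm (hz _ (h.mem _ e3)) (hz _ (h.mem _ e4)) (by linarith [h1.lt hτ])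

/-- a walk from a maximum down to a minimum and up to the same point -/
lemma wind_core (hτ : Scale τ) {b : Bool} (hS : ∀ v ∈ S, (D.c v).1 = b) {z : ℂ}
    (hz : ∀ v ∈ S, 9 / 10 ≤ ‖v - z‖) {γ : ℕ → ℂ} {F : ℕ → ℤ} {n : ℕ} (h : Path D S γ F n)
    (hγ : γ 0 = γ n) (hF : F 0 = F n) {a : ℕ} (ha : a ≤ n) (hmax : ∀ k ≤ n, F k ≤ F n)
    (hmin : ∀ k ≤ n, F a ≤ F k) :
    ∑ j ∈ range n, ang z (γ j) (γ (j + 1)) = 0 := by
  have P1 : Path D S γ F a := h.take ha
  have P2 : Path D S (fun k => γ (n - k)) (fun k => F (n - k)) (n - a) := h.back le_rfl (by omega)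
  have e : n - (n - a) = a := by omega
  have m1 : Mt (fun k => - F k) a (- F n) (- F a) :=
    { zero := by show - F 0 = - F n; rw [hF]
      last := rfl
      low := fun i hi => neg_le_neg (hmax i (by omega))
      up := fun i hi => neg_le_neg (hmin i (by omega))
      step := neg_step (f := F) P1.step }
  have m2 : Mt (fun k => - F (n - k)) (n - a) (- F n) (- F a) :=
    { zero := rfl
      last := by show - F (n - (n - a)) = - F a; rw [e]
      low := fun i hi => neg_le_neg (hmax (n - i) (by omega))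
      up := fun i hi => neg_le_neg (hmin (n - i) (by omega))
      step := neg_step (f := fun k => F (n - k)) P2.step }
  have h0 : D.Near (γ 0) (γ (n - 0)) := by
    rw [Nat.sub_zero, hγ]; exact D.n0 _
  have h0' : wd z γ 0 + ang z (γ 0) (γ (n - 0)) = wd z (fun k => γ (n - k)) 0 := by
    rw [Nat.sub_zero, hγ, ang_self]
    simp [wd]
  have key : wd z γ a + ang z (γ a) (γ (n - (n - a))) = wd z (fun k => γ (n - k)) (n - a) :=
    wind_transfer hτ hS hz P1 P2 (neg_reach (climb m1 m2)) h0 h0'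
  rw [e, ang_self, add_zero, wd_back hτ hz h ha] at key
  have h4 : n = a + (n - a) := by omega
  rw [h4, sum_range_add]
  have h5 : wd z γ a = ∑ j ∈ range a, ang z (γ j) (γ (j + 1)) := rfl
  rw [← h5, key, neg_add_cancel]

lemma mod_succ (n : ℕ) (hn : 0 < n) (k : ℕ) :
    ((k + 1) % n = k % n + 1 ∧ k % n + 1 < n) ∨ ((k + 1) % n = 0 ∧ k % n + 1 = n) := by
  have h1 : k % n < n := Nat.mod_lt _ hn
  rcases Nat.lt_or_ge (k % n + 1) n with h2 | h2
  · left
    refine ⟨?_, h2⟩
    rw [Nat.add_mod, Nat.mod_eq_of_lt (show 1 < n by omega), Nat.mod_eq_of_lt h2]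
  · right
    have h3 : k % n + 1 = n := by omega
    refine ⟨?_, h3⟩
    have : k + 1 = n * (k / n) + n := by
      have := Nat.div_add_mod k n
      omega
    rw [this]
    simp

/-- the periodic extension of a closed walk of degree zero -/
lemma path_per {γ : ℕ → ℂ} {F : ℕ → ℤ} {n : ℕ} (hn : 0 < n) (h : Path D S γ F n)
    (hγ : γ 0 = γ n) (hF : F 0 = F n) (m : ℕ) :
    Path D S (fun k => γ (k % n)) (fun k => F (k % n)) m where
  mem := fun i _ => h.mem _ (Nat.mod_lt _ hn).le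
  col := fun i _ => h.col _ (Nat.mod_lt _ hn).le
  adj := fun i _ => by
    have h1 := h.adj _ (Nat.mod_lt i hn)
    rcases mod_succ n hn i with h2 | h2
    · show Adj τ (γ (i % n)) (γ ((i + 1) % n))
      rw [h2.1]; exact h1
    · show Adj τ (γ (i % n)) (γ ((i + 1) % n))
      rw [h2.1, hγ]
      rw [h2.2] at h1
      exact h1
  step := fun i _ => by
    have h1 := h.step _ (Nat.mod_lt i hn)
    rcases mod_succ n hn i with h2 | h2
    · show |F ((i + 1) % n) - F (i % n)| ≤ 1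
      rw [h2.1]; exact h1
    · show |F ((i + 1) % n) - F (i % n)| ≤ 1
      rw [h2.1, hF]
      rw [h2.2] at h1
      exact h1

/-- a closed walk of degree zero has winding number zero around every point at distance `≥ 9/10` -/
theorem wind_zero (hτ : Scale τ) {b : Bool} (hS : ∀ v ∈ S, (D.c v).1 = b) {z : ℂ}
    (hz : ∀ v ∈ S, 9 / 10 ≤ ‖v - z‖) {γ : ℕ → ℂ} {F : ℕ → ℤ} {n : ℕ} (h : Path D S γ F n)
    (hγ : γ 0 = γ n) (hF : F 0 = F n) : wd z γ n = 0 := by
  rcases Nat.eq_zero_or_pos n with hn | hn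
  · subst hn; simp [wd]
  have hP := path_per hn h hγ hF
  have hlt : ∀ k, k % n < n := fun k => Nat.mod_lt _ hn
  -- extreme times
  obtain ⟨s, hs, hmax⟩ := Finset.exists_max_image (Finset.range n) F ⟨0, by simpa using hn⟩
  obtain ⟨t, ht, hmin⟩ := Finset.exists_min_image (Finset.range n) F ⟨0, by simpa using hn⟩
  rw [Finset.mem_range] at hs ht
  have hmax' : ∀ k, F (k % n) ≤ F s := fun k => hmax _ (Finset.mem_range.2 (hlt k))
  have hmin' : ∀ k, F t ≤ F (k % n) := fun k => hmin _ (Finset.mem_range.2 (hlt k))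
  obtain ⟨a, han, hat⟩ : ∃ a ≤ n, (s + a) % n = t := by
    rcases Nat.lt_or_ge t s with h1 | h1
    · refine ⟨t + n - s, by omega, ?_⟩
      have : s + (t + n - s) = t + n := by omega
      rw [this, Nat.add_mod_right, Nat.mod_eq_of_lt ht]
    · refine ⟨t - s, by omega, ?_⟩
      have : s + (t - s) = t := by omega
      rw [this, Nat.mod_eq_of_lt ht]
  have P : Path D S (fun k => γ ((s + k) % n)) (fun k => F ((s + k) % n)) n :=
    (hP (s + n)).shift le_rfl
  have es : (s + n) % n = s := by rw [Nat.add_mod_right, Nat.mod_eq_of_lt hs]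
  have es0 : (s + 0) % n = s := by rw [Nat.add_zero, Nat.mod_eq_of_lt hs]
  have key := wind_core hτ hS hz P (by show γ ((s + 0) % n) = γ ((s + n) % n); rw [es, es0])
    (by show F ((s + 0) % n) = F ((s + n) % n); rw [es, es0]) han
    (by
      intro k _
      show F ((s + k) % n) ≤ F ((s + n) % n)
      rw [es]; exact hmax' _)
    (by
      intro k _
      show F ((s + a) % n) ≤ F ((s + k) % n)
      rw [hat]; exact hmin' _)
  have h4 := sum_periodic (fun k => ang z (γ (k % n)) (γ ((k + 1) % n))) n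
    (fun k => by
      show ang z (γ ((k + n) % n)) (γ ((k + n + 1) % n)) = ang z (γ (k % n)) (γ ((k + 1) % n))
      have : k + n + 1 = (k + 1) + n := by ring
      rw [this, Nat.add_mod_right, Nat.add_mod_right]) s
  have h5 : ∑ j ∈ range n, ang z (γ ((s + j) % n)) (γ ((s + j + 1) % n)) = 0 := key
  rw [h5] at h4
  unfold wd
  rw [h4]
  apply sum_congr rfl
  intro k hk
  rw [Finset.mem_range] at hk
  rcases mod_succ n hn k with h2 | h2
  · rw [h2.1, Nat.mod_eq_of_lt hk]
  · rw [Nat.mod_eq_of_lt hk] at h2 ⊢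
    rw [h2.1, hγ, h2.2]

end Pool.Agent.N466.Pl
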