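import Pool.Agent.N466.Pl.Lift

set_option autoImplicit false

namespace Pool.Agent.N466.Pl

open Set Relation Finset

variable {τ : ℝ → ℝ} {D : Dat τ} {S : Set ℂ}

/-- the colouring with the three colours of every class permuted by `-1` -/
def Dat.neg (D : Dat τ) : Dat τ where
  c := fun v => ((D.c v).1, -(D.c v).2)
  Near := D.Near
  n0 := D.n0
  n1 := fun v w v' w' h1 h2 => by
    have aux : ∀ a b : ℂ, ((D.c a).1, -(D.c a).2) = ((D.c b).1, -(D.c b).2) → D.c a = D.c b := by
      intro a b h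
      rw [Prod.mk.injEq, neg_inj] at h
      exact Prod.ext h.1 h.2
    exact D.n1 _ _ _ _ (aux _ _ h1) (aux _ _ h2)
  n2 := fun v w h1 => by
    have aux : ∀ a b : ℂ, ((D.c a).1, -(D.c a).2) = ((D.c b).1, -(D.c b).2) → D.c a = D.c b := by
      intro a b h
      rw [Prod.mk.injEq, neg_inj] at h
      exact Prod.ext h.1 h.2
    exact D.n2 _ _ (aux _ _ h1)
  n3 := fun v w h1 => by
    have aux : ∀ a b : ℂ, ((D.c a).1, -(D.c a).2) = ((D.c b).1, -(D.c b).2) → D.c a = D.c b := by
      intro a b h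
      rw [Prod.mk.injEq, neg_inj] at h
      exact Prod.ext h.1 h.2
    exact D.n3 _ _ (aux _ _ h1)

lemma Path.neg {γ : ℕ → ℂ} {F : ℕ → ℤ} {n : ℕ} (h : Path D S γ F n) :
    Path D.neg S γ (fun i => - F i) n where
  mem := h.mem
  col := fun i hi => by
    show ((-F i : ℤ) : ZMod 3) = -(D.c (γ i)).2
    rw [← h.col i hi]; push_cast; rfl
  adj := h.adj
  step := neg_step h.step

/-- concatenation of walks -/
lemma Path.cat {γ γ' : ℕ → ℂ} {F F' : ℕ → ℤ} {n n' : ℕ} (h : Path D S γ F n)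
    (h' : Path D S γ' F' n') (hγ : γ n = γ' 0) (hF : F n = F' 0) :
    Path D S (fun k => if k ≤ n then γ k else γ' (k - n)) (fun k => if k ≤ n then F k else F' (k - n))
      (n + n') where
  mem := fun i hi => by
    by_cases h1 : i ≤ n
    · simp only [h1, if_true]; exact h.mem i h1
    · simp only [h1, if_false]; exact h'.mem _ (by omega)
  col := fun i hi => by
    by_cases h1 : i ≤ n
    · simp only [h1, if_true]; exact h.col i h1
    · simp only [h1, if_false]; exact h'.col _ (by omega)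
  adj := fun i hi => by
    rcases Nat.lt_trichotomy i n with h1 | h1 | h1
    · have h2 : i ≤ n := h1.le
      have h3 : i + 1 ≤ n := h1
      simp only [h2, h3, if_true]; exact h.adj i h1
    · subst h1
      have h3 : ¬ (i + 1 ≤ i) := by omega
      simp only [le_refl, h3, if_true, if_false, Nat.add_sub_cancel_left]
      rw [hγ]
      exact h'.adj 0 (by omega)
    · have h2 : ¬ (i ≤ n) := by omega
      have h3 : ¬ (i + 1 ≤ n) := by omega
      have e : i + 1 - n = (i - n) + 1 := by omega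
      simp only [h2, h3, if_false, e]
      exact h'.adj _ (by omega)
  step := fun i hi => by
    rcases Nat.lt_trichotomy i n with h1 | h1 | h1
    · have h2 : i ≤ n := h1.le
      have h3 : i + 1 ≤ n := h1
      simp only [h2, h3, if_true]; exact h.step i h1
    · subst h1
      have h3 : ¬ (i + 1 ≤ i) := by omega
      simp only [le_refl, h3, if_true, if_false, Nat.add_sub_cancel_left]
      rw [hF]
      exact h'.step 0 (by omega)
    · have h2 : ¬ (i ≤ n) := by omega
      have h3 : ¬ (i + 1 ≤ n) := by omega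
      have e : i + 1 - n = (i - n) + 1 := by omega
      simp only [h2, h3, if_false, e]
      exact h'.step _ (by omega)

/-- two walks from the same point that end at a common maximal height end at near points -/
lemma near_max2 (hτ : Scale τ) {b : Bool} (hS : ∀ v ∈ S, (D.c v).1 = b) {γ γ' : ℕ → ℂ}
    {F F' : ℕ → ℤ} {n n' : ℕ} (h : Path D S γ F n) (h' : Path D S γ' F' n') (hγ : γ 0 = γ' 0)
    (hF : F 0 = F' 0) (he : F n = F' n') (hm : ∀ i ≤ n, F i ≤ F n) (hm' : ∀ i ≤ n', F' i ≤ F' n') :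
    D.Near (γ n) (γ' n') := by
  have hb : Path D S (fun k => γ (n - k)) (fun k => F (n - k)) n := h.back le_rfl le_rfl
  have hc := hb.cat h' (by show γ (n - n) = γ' 0; rw [Nat.sub_self, hγ])
    (by show F (n - n) = F' 0; rw [Nat.sub_self, hF])
  have ea : ∀ {α : Type} (x y : ℕ → α), x n = y 0 → (if n + n' ≤ n then x (n + n') else y (n + n' - n)) =
      y n' := by
    intro α x y hxy
    by_cases h1 : n + n' ≤ n
    · have : n' = 0 := by omega
      subst this
      simp [hxy]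
    · rw [if_neg h1, Nat.add_sub_cancel_left]
  have e1 : (if n + n' ≤ n then γ (n - (n + n')) else γ' (n + n' - n)) = γ' n' :=
    ea (fun k => γ (n - k)) γ' (by show γ (n - n) = γ' 0; rw [Nat.sub_self, hγ])
  have e2 : (if n + n' ≤ n then F (n - (n + n')) else F' (n + n' - n)) = F' n' :=
    ea (fun k => F (n - k)) F' (by show F (n - n) = F' 0; rw [Nat.sub_self, hF])
  have key := near_max hτ hS hc
    (by
      show (if 0 ≤ n then F (n - 0) else F' (0 - n)) =
        (if n + n' ≤ n then F (n - (n + n')) else F' (n + n' - n))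
      rw [e2, if_pos (Nat.zero_le _), Nat.sub_zero, he])
    (by
      intro i hi
      show (if i ≤ n then F (n - i) else F' (i - n)) ≤
        (if n + n' ≤ n then F (n - (n + n')) else F' (n + n' - n))
      rw [e2]
      by_cases h1 : i ≤ n
      · rw [if_pos h1, ← he]; exact hm _ (by omega)
      · rw [if_neg h1]; exact hm' _ (by omega))
  have key' : D.Near (if 0 ≤ n then γ (n - 0) else γ' (0 - n))
    (if n + n' ≤ n then γ (n - (n + n')) else γ' (n + n' - n)) := key
  rwa [e1, if_pos (Nat.zero_le _), Nat.sub_zero] at key'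

/-- the displacement bound in terms of the height range -/
noncomputable def bnd : ℕ → ℝ
  | 0 => 1
  | h + 1 => 2 * bnd h + 6 / 5

lemma bnd_pos (h : ℕ) : 1 ≤ bnd h := by
  induction h with
  | zero => exact le_rfl
  | succ h ih => unfold bnd; linarith

lemma dist_max (hτ : Scale τ) {b : Bool} (hS : ∀ v ∈ S, (D.c v).1 = b) {γ : ℕ → ℂ}
    {F : ℕ → ℤ} {n : ℕ} (h : Path D S γ F n) (h0 : F 0 = F n) (hmax : ∀ i ≤ n, F i ≤ F n) :
    ‖γ 0 - γ n‖ ≤ 1 :=
  D.n2 _ _ (color_eq hS h h (Nat.zero_le _) le_rfl h0) (near_max hτ hS h h0 hmax)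

lemma displacement (hτ : Scale τ) {b : Bool} (hS : ∀ v ∈ S, (D.c v).1 = b) (h : ℕ) :
    ∀ (γ : ℕ → ℂ) (F : ℕ → ℤ) (n : ℕ) (m : ℤ), Path D S γ F n → (∀ i ≤ n, m ≤ F i) →
      (∀ i ≤ n, F i ≤ m + h) → ‖γ 0 - γ n‖ ≤ bnd h := by
  induction h with
  | zero =>
    intro γ F n m hP h1 h2
    have h3 : ∀ i ≤ n, F i = m := fun i hi => le_antisymm (by simpa using h2 i hi) (h1 i hi)
    exact dist_max hτ hS hP (by rw [h3 0 (Nat.zero_le _), h3 n le_rfl])
      (fun i hi => by rw [h3 i hi, h3 n le_rfl])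
  | succ h ih =>
    intro γ F n m hP h1 h2
    by_cases hcase : ∃ i ≤ n, F i = m + (h + 1 : ℕ)
    · classical
      -- first time
      let s := Nat.find hcase
      obtain ⟨hs1, hs2⟩ : s ≤ n ∧ F s = m + (h + 1 : ℕ) := Nat.find_spec hcase
      have hs3 : ∀ i < s, F i ≤ m + h := by
        intro i hi
        have h4 := h2 i (by omega)
        have h5 : F i ≠ m + (h + 1 : ℕ) := fun h6 => Nat.find_min hcase hi ⟨by omega, h6⟩
        push_cast at h4 h5 ⊢
        omega
      -- last time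
      have hcase' : ∃ j, j ≤ n ∧ F (n - j) = m + (h + 1 : ℕ) :=
        ⟨n - s, by omega, by rw [Nat.sub_sub_self hs1]; exact hs2⟩
      let t := Nat.find hcase'
      obtain ⟨ht1, ht2⟩ : t ≤ n ∧ F (n - t) = m + (h + 1 : ℕ) := Nat.find_spec hcase'
      have ht3 : ∀ i < t, F (n - i) ≤ m + h := by
        intro i hi
        have h4 := h2 (n - i) (by omega)
        have h5 : F (n - i) ≠ m + (h + 1 : ℕ) := fun h6 => Nat.find_min hcase' hi ⟨by omega, h6⟩
        push_cast at h4 h5 ⊢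
        omega
      have hst : s ≤ n - t := by
        by_contra hcon
        exact Nat.find_min hcase (m := n - t) (by omega) ⟨by omega, ht2⟩
      -- first part
      have d1 : ‖γ 0 - γ s‖ ≤ bnd h + 1 / 10 := by
        rcases Nat.eq_zero_or_pos s with h4 | h4
        · rw [h4, sub_self, norm_zero]; linarith [bnd_pos h]
        · have h5 := ih γ F (s - 1) m (hP.take (by omega)) (fun i hi => h1 i (by omega))
            (fun i hi => hs3 i (by omega))
          have h6 := (hP.adj (s - 1) (by omega)).lt hτ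
          have e : s - 1 + 1 = s := by omega
          rw [e] at h6
          calc ‖γ 0 - γ s‖ = ‖(γ 0 - γ (s - 1)) + (γ (s - 1) - γ s)‖ := by congr 1; ring
            _ ≤ ‖γ 0 - γ (s - 1)‖ + ‖γ (s - 1) - γ s‖ := norm_add_le _ _
            _ ≤ _ := by linarith
      have d3 : ‖γ (n - t) - γ n‖ ≤ bnd h + 1 / 10 := by
        rcases Nat.eq_zero_or_pos t with h4 | h4
        · rw [h4, Nat.sub_zero, sub_self, norm_zero]; linarith [bnd_pos h]
        · have e1 : n - t + 1 + (t - 1) = n := by omega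
          have h5 := ih (fun k => γ (n - t + 1 + k)) (fun k => F (n - t + 1 + k)) (t - 1) m
            (hP.shift (by omega)) (fun i hi => h1 _ (by omega))
            (fun i hi => by
              have := ht3 (t - 1 - i) (by omega)
              have e : n - (t - 1 - i) = n - t + 1 + i := by omega
              rw [e] at this
              exact this)
          simp only [e1, Nat.add_zero] at h5
          have h6 := (hP.adj (n - t) (by omega)).lt hτ
          calc ‖γ (n - t) - γ n‖ = ‖(γ (n - t) - γ (n - t + 1)) + (γ (n - t + 1) - γ n)‖ := by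
                congr 1; ring
            _ ≤ ‖γ (n - t) - γ (n - t + 1)‖ + ‖γ (n - t + 1) - γ n‖ := norm_add_le _ _
            _ ≤ _ := by linarith
      have d2 : ‖γ s - γ (n - t)‖ ≤ 1 := by
        have e1 : s + (n - t - s) = n - t := by omega
        have h5 := dist_max hτ hS (hP.shift (a := s) (m := n - t - s) (by omega))
          (by show F (s + 0) = F (s + (n - t - s)); rw [e1, Nat.add_zero, hs2, ht2])
          (by
            intro i hi
            show F (s + i) ≤ F (s + (n - t - s))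
            rw [e1, ht2]
            exact h2 _ (by omega))
        have h6 : ‖γ (s + 0) - γ (s + (n - t - s))‖ ≤ 1 := h5
        rwa [e1, Nat.add_zero] at h6
      calc ‖γ 0 - γ n‖ = ‖(γ 0 - γ s) + ((γ s - γ (n - t)) + (γ (n - t) - γ n))‖ := by congr 1; ring
        _ ≤ ‖γ 0 - γ s‖ + ‖(γ s - γ (n - t)) + (γ (n - t) - γ n)‖ := norm_add_le _ _
        _ ≤ ‖γ 0 - γ s‖ + (‖γ s - γ (n - t)‖ + ‖γ (n - t) - γ n‖) := by
            gcongr; exact norm_add_le _ _
        _ ≤ bnd (h + 1) := by unfold bnd; linarith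
    · push Not at hcase
      have h3 := ih γ F n m hP h1 (fun i hi => by
        have h4 := h2 i hi
        have h5 := hcase i hi
        push_cast at h4 h5 ⊢
        omega)
      have := bnd_pos h
      unfold bnd
      linarith

/-- the extension with drift of a closed walk -/
lemma path_drift {γ : ℕ → ℂ} {F : ℕ → ℤ} {n : ℕ} (hn : 0 < n) (h : Path D S γ F n)
    (hγ : γ 0 = γ n) (m : ℕ) :
    Path D S (fun k => γ (k % n)) (fun k => F (k % n) + (F n - F 0) * ((k / n : ℕ) : ℤ)) m where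
  mem := fun i _ => h.mem _ (Nat.mod_lt _ hn).le
  col := fun i _ => by
    have h1 : (((F n - F 0 : ℤ)) : ZMod 3) = 0 := by
      push_cast
      rw [h.col n le_rfl, h.col 0 (Nat.zero_le _), hγ, sub_self]
    show (((F (i % n) + (F n - F 0) * ((i / n : ℕ) : ℤ) : ℤ)) : ZMod 3) = (D.c (γ (i % n))).2
    rw [Int.cast_add, Int.cast_mul, h1, zero_mul, add_zero]
    exact h.col _ (Nat.mod_lt _ hn).le
  adj := fun i _ => by
    have h1 := h.adj _ (Nat.mod_lt i hn)
    show Adj τ (γ (i % n)) (γ ((i + 1) % n))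
    rcases mod_succ n hn i with h2 | h2
    · rw [h2.1]; exact h1
    · rw [h2.1, hγ]
      rw [h2.2] at h1
      exact h1
  step := fun i _ => by
    have h1 := h.step _ (Nat.mod_lt i hn)
    show |(F ((i + 1) % n) + (F n - F 0) * (((i + 1) / n : ℕ) : ℤ)) -
      (F (i % n) + (F n - F 0) * ((i / n : ℕ) : ℤ))| ≤ 1
    have hd := Nat.div_add_mod i n
    have hd' := Nat.div_add_mod (i + 1) n
    rcases mod_succ n hn i with h2 | h2
    · have h3 : (i + 1) / n = i / n := by
        rw [h2.1] at hd'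
        have : n * ((i + 1) / n) = n * (i / n) := by omega
        exact Nat.eq_of_mul_eq_mul_left hn this
      rw [h2.1, h3]
      have : (F (i % n + 1) + (F n - F 0) * ((i / n : ℕ) : ℤ)) -
        (F (i % n) + (F n - F 0) * ((i / n : ℕ) : ℤ)) = F (i % n + 1) - F (i % n) := by ring
      rw [this]; exact h1
    · have h3 : (i + 1) / n = i / n + 1 := by
        rw [h2.1] at hd'
        have : n * ((i + 1) / n) = n * (i / n + 1) := by
          rw [Nat.mul_add, Nat.mul_one]; omega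
        exact Nat.eq_of_mul_eq_mul_left hn this
      rw [h2.1, h3]
      rw [h2.2] at h1
      have : (F 0 + (F n - F 0) * ((i / n + 1 : ℕ) : ℤ)) -
        (F (i % n) + (F n - F 0) * ((i / n : ℕ) : ℤ)) = F n - F (i % n) := by push_cast; ring
      rw [this]; exact h1

lemma drift_exists {γ : ℕ → ℂ} {F : ℕ → ℤ} {n : ℕ} (h : Path D S γ F n) (hγ : γ 0 = γ n)
    (hF : F 0 < F n) (t : ℤ) (ht : F 0 ≤ t) : ∃ (Γ : ℕ → ℂ) (Φ : ℕ → ℤ) (m : ℕ), Path D S Γ Φ m ∧
      Γ 0 = γ 0 ∧ Φ 0 = F 0 ∧ t ≤ Φ m ∧ ∀ i, ∃ k ≤ n, Γ i = γ k := by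
  have hn : 0 < n := by
    rcases Nat.eq_zero_or_pos n with h1 | h1
    · subst h1; exact absurd hF (lt_irrefl _)
    · exact h1
  refine ⟨_, _, n * (t - F 0).toNat, path_drift hn h hγ _, ?_, ?_, ?_, ?_⟩
  · show γ (0 % n) = γ 0
    rw [Nat.zero_mod]
  · show F (0 % n) + (F n - F 0) * ((0 / n : ℕ) : ℤ) = F 0
    rw [Nat.zero_mod, Nat.zero_div, Nat.cast_zero, mul_zero, add_zero]
  · show t ≤ F ((n * (t - F 0).toNat) % n) + (F n - F 0) * (((n * (t - F 0).toNat) / n : ℕ) : ℤ)
    rw [Nat.mul_mod_right, Nat.mul_div_cancel_left _ hn]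
    have e3 : (((t - F 0).toNat : ℕ) : ℤ) = t - F 0 := Int.toNat_of_nonneg (by omega)
    rw [e3]
    nlinarith
  · intro i
    exact ⟨i % n, (Nat.mod_lt _ hn).le, rfl⟩

/-- the record points of a walk are near to a closed walk with positive degree -/
lemma up_hit (hτ : Scale τ) {b : Bool} (hS : ∀ v ∈ S, (D.c v).1 = b) {γ : ℕ → ℂ}
    {F : ℕ → ℤ} {n : ℕ} (h : Path D S γ F n) (hγ : γ 0 = γ n) (hF : F 0 < F n)
    {Q : ℕ → ℂ} {H : ℕ → ℤ} {N : ℕ} (hQ : Path D S Q H N) (hQ0 : Q 0 = γ 0) (hH0 : H 0 = F 0)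
    {t : ℤ} (ht0 : H 0 ≤ t) {i0 : ℕ} (hi0 : i0 ≤ N) (ht : t ≤ H i0) :
    ∃ i ≤ N, H i = t ∧ ∃ k ≤ n, ‖γ k - Q i‖ ≤ 1 := by
  obtain ⟨j, hj, hjt, hjm⟩ := first_hit (g := H) (m := i0) (h := t)
    (fun i hi => hQ.step i (by omega)) ht0 ht
  obtain ⟨Γ, Φ, m, hdr, hΓ0, hΦ0, hm, hk⟩ := drift_exists h hγ hF t (by rw [← hH0]; exact ht0)
  obtain ⟨j', hj', hjt', hjm'⟩ := first_hit (h := t) hdr.step (by rw [hΦ0, ← hH0]; exact ht0) hm
  have h1 := near_max2 hτ hS (hdr.take hj') (hQ.take (show j ≤ N by omega))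
    (by rw [hΓ0, hQ0]) (by rw [hΦ0, hH0]) (by rw [hjt, hjt'])
    (fun i hi => by rw [hjt']; exact hjm' i hi)
    (fun i hi => by rw [hjt]; exact hjm i hi)
  obtain ⟨k, hkn, hkk⟩ := hk j'
  refine ⟨j, by omega, hjt, k, hkn, ?_⟩
  rw [← hkk]
  exact D.n2 _ _ (color_eq hS (hdr.take hj') (hQ.take (show j ≤ N by omega)) le_rfl le_rfl
    (by rw [hjt, hjt'])) h1

/-- the same for heights above or below the starting height -/
lemma hit (hτ : Scale τ) {b : Bool} (hS : ∀ v ∈ S, (D.c v).1 = b) {γ : ℕ → ℂ}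
    {F : ℕ → ℤ} {n : ℕ} (h : Path D S γ F n) (hγ : γ 0 = γ n) (hF : F 0 ≠ F n)
    {Q : ℕ → ℂ} {H : ℕ → ℤ} {N : ℕ} (hQ : Path D S Q H N) (hQ0 : Q 0 = γ 0) (hH0 : H 0 = F 0)
    {t : ℤ} {i0 i1 : ℕ} (hi0 : i0 ≤ N) (hi1 : i1 ≤ N) (ht : t ≤ H i0) (ht' : H i1 ≤ t) :
    ∃ i ≤ N, H i = t ∧ ∃ k ≤ n, ‖γ k - Q i‖ ≤ 1 := by
  -- the reversed closed walk, with shifted heights
  have hrev : Path D S (fun k => γ (n - k)) (fun k => F (n - k) - (F n - F 0)) n := by
    have h1 := h.back le_rfl (le_refl n)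
    refine ⟨h1.mem, fun i hi => ?_, h1.adj, fun i hi => ?_⟩
    · have h2 : (((F n - F 0 : ℤ)) : ZMod 3) = 0 := by
        push_cast
        rw [h.col n le_rfl, h.col 0 (Nat.zero_le _), hγ, sub_self]
      rw [Int.cast_sub, h2, sub_zero]
      exact h1.col i hi
    · have h2 := h1.step i hi
      have e : (F (n - (i + 1)) - (F n - F 0)) - (F (n - i) - (F n - F 0)) =
        F (n - (i + 1)) - F (n - i) := by ring
      rw [e]; exact h2
  have hback : ∀ i, (∃ k ≤ n, ‖γ (n - k) - Q i‖ ≤ 1) → ∃ k ≤ n, ‖γ k - Q i‖ ≤ 1 :=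
    fun i ⟨k, _, hk⟩ => ⟨n - k, by omega, hk⟩
  have hpos : ∀ (D' : Dat τ), (∀ v ∈ S, (D'.c v).1 = b) → ∀ (f : ℕ → ℤ) (H' : ℕ → ℤ) (t' : ℤ),
      Path D' S γ f n → Path D' S (fun k => γ (n - k)) (fun k => f (n - k) - (f n - f 0)) n →
      f 0 ≠ f n → Path D' S Q H' N → H' 0 = f 0 → H' 0 ≤ t' → (∃ i ≤ N, t' ≤ H' i) →
      ∃ i ≤ N, H' i = t' ∧ ∃ k ≤ n, ‖γ k - Q i‖ ≤ 1 := by
    intro D' hS' f H' t' p1 p2 hf p3 h0 ht0 hex
    obtain ⟨i, hi, hi'⟩ := hex
    rcases lt_or_gt_of_ne hf with h3 | h3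
    · exact up_hit hτ hS' p1 hγ h3 p3 hQ0 h0 ht0 hi hi'
    · obtain ⟨j, hj, hj1, hj2⟩ := up_hit hτ hS' p2 (by show γ (n - 0) = γ (n - n); rw [Nat.sub_zero, Nat.sub_self, hγ])
        (by show f (n - 0) - (f n - f 0) < f (n - n) - (f n - f 0)
            rw [Nat.sub_zero, Nat.sub_self]; omega)
        p3 (by show Q 0 = γ (n - 0); rw [Nat.sub_zero, hQ0, hγ])
        (by show H' 0 = f (n - 0) - (f n - f 0); rw [Nat.sub_zero, h0]; ring) ht0 hi hi'
      exact ⟨j, hj, hj1, hback j hj2⟩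
  rcases le_total (H 0) t with h1 | h1
  · exact hpos D hS F H t h hrev hF hQ hH0 h1 ⟨i0, hi0, ht⟩
  · have e := hpos D.neg hS (fun k => - F k) (fun k => - H k) (-t) h.neg
      (by
        have h2 := hrev.neg
        refine ⟨h2.mem, fun i hi => ?_, h2.adj, fun i hi => ?_⟩
        · have h3 := h2.col i hi
          have e : -(F (n - i) - (F n - F 0)) = -F (n - i) - (-F n - -F 0) := by ring
          rw [e] at h3
          exact h3
        · have h3 := h2.step i hi
          have e : ∀ j, -(F (n - j) - (F n - F 0)) = -F (n - j) - (-F n - -F 0) := fun j => by ring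
          rw [e, e] at h3
          exact h3)
      (fun h2 => hF (neg_inj.1 h2)) hQ.neg (by show - H 0 = - F 0; rw [hH0]) (neg_le_neg h1)
      ⟨i1, hi1, neg_le_neg ht'⟩
    obtain ⟨i, hi, hi2, hi3⟩ := e
    exact ⟨i, hi, neg_inj.1 hi2, hi3⟩

end Pool.Agent.N466.Pl
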