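import Pool.Agent.N466.Pl.Sperner

set_option autoImplicit false

namespace Pool.Agent.N466.Pl

open Set Relation

variable {τ : ℝ → ℝ}

lemma sq_norm {v : ℂ} (hv : v ∈ Sq) : ‖v‖ ≤ 4 := by
  obtain ⟨h1, h2, h3, h4⟩ := hv
  have h := Complex.norm_le_abs_re_add_abs_im v
  rw [abs_of_nonneg h1, abs_of_nonneg h3] at h
  linarith

/-- every square of side two contains three pairwise adjacent points of different colours -/
theorem exists_triple {C : Type*} (hτ : Scale τ) (c : ℂ → C) (Near : ℂ → ℂ → Prop)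
    (n0 : ∀ v, Near v v)
    (n1 : ∀ v w v' w', c v = c w → c v' = c w' → Adj τ v v' → Adj τ w w' → Near v w → Near v' w')
    (n2 : ∀ v w, c v = c w → Near v w → ‖v - w‖ ≤ 1) (q : ℂ) :
    ∃ t : ZMod 3 → ℂ, (∀ i j, Adj τ (t i) (t j)) ∧ (∀ i j, c (t i) = c (t j) → i = j) ∧
      ∀ i, ‖t i - q‖ ≤ 4 := by
  classical
  let l : ℝ := τ (‖q‖ + 4)
  have hl : 0 < l := hτ.pos _
  let R : ℂ → ℂ → Prop := fun a b => a ∈ Sq ∧ b ∈ Sq ∧ ‖a - b‖ < l ∧ c (q + a) = c (q + b)
  have hadj : ∀ a b, a ∈ Sq → b ∈ Sq → ‖a - b‖ < l → Adj τ (q + a) (q + b) := by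
    intro a b ha hb hab
    apply Adj.of_lt hτ (R := ‖q‖ + 4)
    · linarith [norm_add_le q a, sq_norm ha]
    · linarith [norm_add_le q b, sq_norm hb]
    · rw [add_sub_add_left_eq_sub]; exact hab
  have hR : ∀ u v, ReflTransGen R u v → u ∈ Sq → v ∈ Sq ∧ c (q + u) = c (q + v) ∧
      Near (q + u) (q + v) := by
    intro u v h hu
    induction h with
    | refl => exact ⟨hu, rfl, n0 _⟩
    | @tail b d hb hbd ih =>
      obtain ⟨h1, h2, h3⟩ := ih
      obtain ⟨h4, h5, h6, h7⟩ := hbd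
      refine ⟨h5, h2.trans h7, ?_⟩
      exact n1 _ _ _ _ h2 (h2.trans h7) (Adj.refl hτ _) (hadj b d h4 h5 h6) h3
  have hdist : ∀ u v, ReflTransGen R u v → u ∈ Sq → ‖u - v‖ ≤ 1 := by
    intro u v h hu
    obtain ⟨_, h2, h3⟩ := hR u v h hu
    have := n2 _ _ h2 h3
    rwa [add_sub_add_left_eq_sub] at this
  have hsymm : ∀ u v, R u v → R v u := fun u v ⟨h1, h2, h3, h4⟩ =>
    ⟨h2, h1, by rwa [norm_sub_rev], h4.symm⟩
  let lab : ℂ → ZMod 3 := fun u =>
    if ∃ v, ReflTransGen R u v ∧ v.re = 0 then 0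
    else if ∃ v, ReflTransGen R u v ∧ v.im = 0 then 1 else 2
  have hlab : ∀ u v, R u v → lab u = lab v := by
    intro u v h
    have e : ∀ w, ReflTransGen R u w ↔ ReflTransGen R v w := fun w =>
      ⟨fun hw => ReflTransGen.head (hsymm u v h) hw, fun hw => ReflTransGen.head h hw⟩
    simp only [lab, e]
  obtain ⟨t, ht1, ht2, ht3⟩ := sperner hl lab
    (by
      intro v _ h0
      simp only [lab]
      rw [if_pos ⟨v, ReflTransGen.refl, h0⟩])
    (by
      intro v _ h0
      simp only [lab]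
      by_cases h1 : ∃ w, ReflTransGen R v w ∧ w.re = 0
      · left; rw [if_pos h1]
      · right; rw [if_neg h1, if_pos ⟨v, ReflTransGen.refl, h0⟩])
    (by
      intro v hv h0
      simp only [lab]
      have h1 : ¬ ∃ w, ReflTransGen R v w ∧ w.re = 0 := by
        rintro ⟨w, hw, hw0⟩
        have h2 := hdist v w hw hv
        have h3 := (Complex.abs_re_le_norm (v - w)).trans h2
        rw [Complex.sub_re, h0, hw0] at h3
        norm_num at h3
      rw [if_neg h1]
      by_cases h2 : ∃ w, ReflTransGen R v w ∧ w.im = 0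
      · left; rw [if_pos h2]
      · right; rw [if_neg h2])
    (by
      intro v hv h0
      simp only [lab]
      have h1 : ¬ ∃ w, ReflTransGen R v w ∧ w.im = 0 := by
        rintro ⟨w, hw, hw0⟩
        have h2 := hdist v w hw hv
        have h3 := (Complex.abs_im_le_norm (v - w)).trans h2
        rw [Complex.sub_im, h0, hw0] at h3
        norm_num at h3
      by_cases h2 : ∃ w, ReflTransGen R v w ∧ w.re = 0
      · left; rw [if_pos h2]
      · right; rw [if_neg h2, if_neg h1])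
  refine ⟨fun i => q + t i, fun i j => hadj _ _ (ht1 i) (ht1 j) (ht3 i j), ?_, ?_⟩
  · intro i j hij
    have h1 := hlab (t i) (t j) ⟨ht1 i, ht1 j, ht3 i j, hij⟩
    rw [ht2, ht2] at h1
    exact h1
  · intro i
    show ‖q + t i - q‖ ≤ 4
    rw [add_sub_cancel_left]
    exact sq_norm (ht1 i)

/-- splitting six colours into two classes of three -/
lemma exists_split (A : Finset (Fin 6)) (hA : A.card = 3) :
    ∃ ρ : Fin 6 → Bool × ZMod 3, Function.Injective ρ ∧ ∀ i : ZMod 3, ∃ a ∈ A, ρ a = (true, i) := by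
  classical
  have hA' : (Aᶜ).card = 3 := by
    rw [Finset.card_compl, hA]; rfl
  have e1 : Fintype.card A = Fintype.card (ZMod 3) := by
    rw [Fintype.card_coe, hA, ZMod.card]
  have e2 : Fintype.card (Aᶜ : Finset (Fin 6)) = Fintype.card (ZMod 3) := by
    rw [Fintype.card_coe, hA', ZMod.card]
  let f := Fintype.equivOfCardEq e1
  let g := Fintype.equivOfCardEq e2
  refine ⟨fun a => if h : a ∈ A then (true, f ⟨a, h⟩) else (false, g ⟨a, by simpa using h⟩), ?_, ?_⟩
  · intro a b hab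
    by_cases h1 : a ∈ A <;> by_cases h2 : b ∈ A
    · simp only [h1, h2, dif_pos, Prod.mk.injEq, true_and, EmbeddingLike.apply_eq_iff_eq,
        Subtype.mk.injEq] at hab
      exact hab
    · simp [h1, h2] at hab
    · simp [h1, h2] at hab
    · simp only [h1, h2, dite_false, Prod.mk.injEq, true_and, EmbeddingLike.apply_eq_iff_eq,
        Subtype.mk.injEq] at hab
      exact hab
  · intro i
    refine ⟨(f.symm i).1, (f.symm i).2, ?_⟩
    have h := (f.symm i).2
    simp only [h, dif_pos]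
    simp

/-- the abstract theorem: there is no colouring with six colours -/
theorem no_six (hτ : Scale τ) (c : ℂ → Fin 6) (Near : ℂ → ℂ → Prop)
    (n0 : ∀ v, Near v v)
    (n1 : ∀ v w v' w', c v = c w → c v' = c w' → Adj τ v v' → Adj τ w w' → Near v w → Near v' w')
    (n2 : ∀ v w, c v = c w → Near v w → ‖v - w‖ ≤ 1)
    (n3 : ∀ v w, c v = c w → ¬ Near v w → 1 ≤ ‖v - w‖) : False := by
  classical
  have htri := fun n : Fin 21 => exists_triple hτ c Near n0 n1 n2 ((20 * (n : ℝ) : ℝ) : ℂ)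
  choose t ht1 ht2 ht3 using htri
  let A : Fin 21 → Finset (Fin 6) := fun n => Finset.univ.image (fun i => c (t n i))
  have hA : ∀ n, (A n).card = 3 := by
    intro n
    rw [Finset.card_image_of_injective _ (fun i j h => ht2 n i j h)]
    rfl
  obtain ⟨n, _, m, _, hnm, hAnm⟩ := Finset.exists_ne_map_eq_of_card_lt_of_maps_to
    (s := (Finset.univ : Finset (Fin 21))) (t := Finset.powersetCard 3 (Finset.univ : Finset (Fin 6)))
    (by rw [Finset.card_powersetCard, Finset.card_univ, Finset.card_univ, Fintype.card_fin,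
          Fintype.card_fin]; decide)
    (f := A) (fun n _ => by
      rw [Finset.mem_coe, Finset.mem_powersetCard]
      exact ⟨Finset.subset_univ _, hA n⟩)
  obtain ⟨ρ, hρ, hρA⟩ := exists_split (A n) (hA n)
  let D : Dat τ :=
    { c := fun v => ρ (c v)
      Near := Near
      n0 := n0
      n1 := fun v w v' w' h1 h2 => n1 v w v' w' (hρ h1) (hρ h2)
      n2 := fun v w h1 => n2 v w (hρ h1)
      n3 := fun v w h1 => n3 v w (hρ h1) }
  have hx : ∀ k, A k = A n → ∀ i : ZMod 3, ∃ j, ρ (c (t k j)) = (true, i) := by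
    intro k hk i
    obtain ⟨a, ha, hai⟩ := hρA i
    rw [← hk] at ha
    obtain ⟨j, _, hj⟩ := Finset.mem_image.1 ha
    exact ⟨j, by rw [hj]; exact hai⟩
  choose X hX using hx n rfl
  choose Y hY using hx m hAnm.symm
  refine no_two_triples hτ (D := D) (x := fun i => t n (X i)) (y := fun i => t m (Y i)) hX
    (fun i j => ht1 n _ _) hY (fun i j => ht1 m _ _) ?_
  have h1 := ht3 n (X 0)
  have h2 := ht3 m (Y 0)
  have h3 : (20 : ℝ) ≤ ‖((20 * ((n : ℕ) : ℝ) : ℝ) : ℂ) - ((20 * ((m : ℕ) : ℝ) : ℝ) : ℂ)‖ := by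
    rw [← Complex.ofReal_sub, Complex.norm_real, Real.norm_eq_abs, ← mul_sub, abs_mul]
    have h4 : (1 : ℝ) ≤ |((n : ℕ) : ℝ) - ((m : ℕ) : ℝ)| := by
      have h5 : (1 : ℤ) ≤ |((n : ℕ) : ℤ) - ((m : ℕ) : ℤ)| := by
        apply Int.one_le_abs
        intro h
        apply hnm
        apply Fin.ext
        omega
      exact_mod_cast h5
    rw [abs_of_nonneg (by norm_num : (0:ℝ) ≤ 20)]
    linarith
  have h4 : ((20 * ((n : ℕ) : ℝ) : ℝ) : ℂ) - ((20 * ((m : ℕ) : ℝ) : ℝ) : ℂ) =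
      (t n (X 0) - t m (Y 0)) - (t n (X 0) - ((20 * ((n : ℕ) : ℝ) : ℝ) : ℂ)) +
        (t m (Y 0) - ((20 * ((m : ℕ) : ℝ) : ℝ) : ℂ)) := by ring
  rw [h4] at h3
  have h5 := norm_add_le ((t n (X 0) - t m (Y 0)) - (t n (X 0) - ((20 * ((n : ℕ) : ℝ) : ℝ) : ℂ)))
    (t m (Y 0) - ((20 * ((m : ℕ) : ℝ) : ℝ) : ℂ))
  have h6 := norm_sub_le (t n (X 0) - t m (Y 0)) (t n (X 0) - ((20 * ((n : ℕ) : ℝ) : ℝ) : ℂ))
  linarith

end Pool.Agent.N466.Pl
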