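import Pool.Agent.N466.Pl.Bounded

set_option autoImplicit false

namespace Pool.Agent.N466.Pl

open Set Relation Finset

variable {τ : ℝ → ℝ} {D : Dat τ} {S : Set ℂ}

section walks

variable {A : Type*} [AddCommGroup A]

/-- walks in `S` with the sum of `φ` over the steps -/
inductive Walk (τ : ℝ → ℝ) (S : Set ℂ) (φ : ℂ → ℂ → A) (u : ℂ) : ℂ → A → Prop
  | nil (hu : u ∈ S) : Walk τ S φ u u 0
  | snoc (v y : ℂ) (x : A) (h : Walk τ S φ u v x) (hy : y ∈ S) (hvy : Adj τ v y) :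
      Walk τ S φ u y (x + φ v y)

variable {φ : ℂ → ℂ → A}

lemma Walk.mem {u v : ℂ} {x : A} (h : Walk τ S φ u v x) : u ∈ S ∧ v ∈ S := by
  induction h with
  | nil hu => exact ⟨hu, hu⟩
  | snoc v y x h hy hvy ih => exact ⟨ih.1, hy⟩

lemma Walk.trans {u v w : ℂ} {x y : A} (h : Walk τ S φ u v x) (h' : Walk τ S φ v w y) :
    Walk τ S φ u w (x + y) := by
  induction h' with
  | nil hv => rw [add_zero]; exact h
  | snoc w s y h' hs hws ih =>
    rw [← add_assoc]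
    exact Walk.snoc _ _ _ ih hs hws

lemma Walk.single {u v : ℂ} (hu : u ∈ S) (hv : v ∈ S) (h : Adj τ u v) :
    Walk τ S φ u v (φ u v) := by
  have := Walk.snoc (φ := φ) u v 0 (Walk.nil hu) hv h
  rwa [zero_add] at this

lemma Walk.symm (hφ : ∀ u ∈ S, ∀ v ∈ S, Adj τ u v → φ v u = - φ u v) {u v : ℂ} {x : A}
    (h : Walk τ S φ u v x) : Walk τ S φ v u (-x) := by
  induction h with
  | nil hu => rw [neg_zero]; exact Walk.nil hu
  | snoc v y x h hy hvy ih =>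
    have h1 := (Walk.single (φ := φ) hy h.mem.2 hvy.symm).trans ih
    rw [hφ v h.mem.2 y hy hvy] at h1
    have e : -(x + φ v y) = -φ v y + -x := by abel
    rw [e]; exact h1

lemma Walk.of_reach {u v : ℂ} (hu : u ∈ S) (h : Reach τ S u v) : ∃ x, Walk τ S φ u v x := by
  induction h with
  | refl => exact ⟨0, Walk.nil hu⟩
  | tail _ hc ih =>
    obtain ⟨x, hx⟩ := ih
    exact ⟨_, Walk.snoc _ _ _ hx hc.2.1 hc.2.2⟩

/-- the group of sums over closed walks -/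
def cyc (hφ : ∀ u ∈ S, ∀ v ∈ S, Adj τ u v → φ v u = - φ u v) {p : ℂ} (hp : p ∈ S) :
    AddSubgroup A where
  carrier := {x | Walk τ S φ p p x}
  add_mem' := fun h h' => Walk.trans h h'
  zero_mem' := Walk.nil hp
  neg_mem' := fun h => Walk.symm hφ h

lemma exact_of_walk (hφ : ∀ u ∈ S, ∀ v ∈ S, Adj τ u v → φ v u = - φ u v) (hC : Conn τ S) {p : ℂ}
    (hp : p ∈ S) (ψ : A →+ ℝ) (hψ : ∀ x, Walk τ S φ p p x → ψ x = 0) :
    ∃ g : ℂ → ℝ, ∀ u ∈ S, ∀ v ∈ S, Adj τ u v → ψ (φ u v) = g v - g u := by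
  have h1 : ∀ v, v ∈ S → ∃ x, Walk τ S φ p v x := fun v hv => Walk.of_reach hp (hC p hp v hv)
  choose! X hX using h1
  refine ⟨fun v => ψ (X v), ?_⟩
  intro u hu v hv huv
  have h2 := hψ _ (((hX u hu).trans (Walk.single hu hv huv)).trans ((hX v hv).symm hφ))
  rw [map_add, map_add, map_neg] at h2
  show ψ (φ u v) = ψ (X v) - ψ (X u)
  linarith

lemma Walk.chain {u v : ℂ} {x : A} (h : Walk τ S φ u v x) :
    ∃ (N : ℕ) (Q : ℕ → ℂ), Chain τ S Q N ∧ Q 0 = u ∧ Q N = v ∧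
      x = ∑ k ∈ range N, φ (Q k) (Q (k + 1)) := by
  induction h with
  | nil hu =>
    exact ⟨0, fun _ => u, ⟨fun _ _ => hu, fun i hi => absurd hi (Nat.not_lt_zero _)⟩, rfl, rfl,
      by simp⟩
  | snoc b c x h hy hvy ih =>
    obtain ⟨N, Q, hQ, h0, hN, hx⟩ := ih
    refine ⟨N + 1, fun i => if i ≤ N then Q i else c, ⟨fun i hi => ?_, fun i hi => ?_⟩, ?_, ?_, ?_⟩
    · by_cases h1 : i ≤ N
      · simp only [h1, if_true]; exact hQ.mem i h1
      · simp only [h1, if_false]; exact hy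
    · by_cases h1 : i + 1 ≤ N
      · have h2 : i ≤ N := by omega
        simp only [h1, h2, if_true]; exact hQ.adj i (by omega)
      · have h2 : i = N := by omega
        subst h2
        simp only [h1, le_refl, if_true, if_false]
        rw [hN]; exact hvy
    · simp [h0]
    · have : ¬ (N + 1 ≤ N) := by omega
      simp only [this, if_false]
    · rw [sum_range_succ]
      have : ¬ (N + 1 ≤ N) := by omega
      simp only [this, le_refl, if_true, if_false]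
      rw [hN, hx]
      congr 1
      apply sum_congr rfl
      intro k hk
      rw [Finset.mem_range] at hk
      have h1 : k ≤ N := hk.le
      have h2 : k + 1 ≤ N := hk
      simp only [h1, h2, if_true]

end walks

/-- the height step and the two angle steps -/
noncomputable def tri (D : Dat τ) (z z' : ℂ) (u v : ℂ) : ℤ × ℝ × ℝ :=
  (lift3 ((D.c v).2 - (D.c u).2), ang z u v, ang z' u v)

lemma tri_symm (hτ : Scale τ) {z z' : ℂ} (hz : ∀ v ∈ S, 9 / 10 ≤ ‖v - z‖)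
    (hz' : ∀ v ∈ S, 9 / 10 ≤ ‖v - z'‖) :
    ∀ u ∈ S, ∀ v ∈ S, Adj τ u v → tri D z z' v u = - tri D z z' u v := by
  intro u hu v hv huv
  unfold tri
  have h1 : ‖u - v‖ ≤ 1 := by linarith [huv.lt hτ]
  have e : (D.c u).2 - (D.c v).2 = -((D.c v).2 - (D.c u).2) := by ring
  rw [e, lift3_neg, ang_symm (hz u hu) (hz v hv) h1, ang_symm (hz' u hu) (hz' v hv) h1]
  rfl

lemma walk_path {z z' : ℂ} {u v : ℂ} {x : ℤ × ℝ × ℝ} (h : Walk τ S (tri D z z') u v x) :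
    ∃ γ F n, Path D S γ F n ∧ γ 0 = u ∧ γ n = v ∧ F n - F 0 = x.1 ∧ wd z γ n = x.2.1 ∧
      wd z' γ n = x.2.2 := by
  obtain ⟨N, Q, hQ, h0, hN, hx⟩ := h.chain
  obtain ⟨f0, hf0⟩ := ZMod.intCast_surjective (D.c (Q 0)).2
  refine ⟨Q, fun i => f0 + ∑ k ∈ range i, lift3 ((D.c (Q (k + 1))).2 - (D.c (Q k)).2), N,
    ⟨hQ.mem, fun i hi => ?_, hQ.adj, fun i hi => ?_⟩, h0, hN, ?_, ?_, ?_⟩
  · push_cast
    simp only [lift3_cast]
    rw [Finset.sum_range_sub (fun k => (D.c (Q k)).2), hf0]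
    ring
  · have e : f0 + ∑ k ∈ range (i + 1), lift3 ((D.c (Q (k + 1))).2 - (D.c (Q k)).2) -
        (f0 + ∑ k ∈ range i, lift3 ((D.c (Q (k + 1))).2 - (D.c (Q k)).2)) =
        lift3 ((D.c (Q (i + 1))).2 - (D.c (Q i)).2) := by
      rw [sum_range_succ]; ring
    rw [e]
    exact lift3_abs _
  · rw [hx, Prod.fst_sum]
    simp [tri]
  · rw [hx, Prod.snd_sum, Prod.fst_sum]
    rfl
  · rw [hx, Prod.snd_sum, Prod.snd_sum]
    rfl

lemma walk_zero (hτ : Scale τ) {b : Bool} (hS : ∀ v ∈ S, (D.c v).1 = b) {z z' : ℂ}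
    (hz : ∀ v ∈ S, 9 / 10 ≤ ‖v - z‖) (hz' : ∀ v ∈ S, 9 / 10 ≤ ‖v - z'‖) {p : ℂ} {x : ℤ × ℝ × ℝ}
    (h : Walk τ S (tri D z z') p p x) (hx : x.1 = 0) : x.2.1 = 0 ∧ x.2.2 = 0 := by
  obtain ⟨γ, F, n, hP, h0, hn, h1, h2, h3⟩ := walk_path h
  have e : F 0 = F n := by omega
  have e' : γ 0 = γ n := by rw [h0, hn]
  rw [← h2, ← h3]
  exact ⟨wind_zero hτ hS hz hP e' e, wind_zero hτ hS hz' hP e' e⟩

lemma zs1 (n : ℤ) (y : ℤ × ℝ × ℝ) : (n • y).1 = n * y.1 := by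
  rw [Prod.smul_fst, smul_eq_mul]

lemma zs2 (n : ℤ) (y : ℤ × ℝ × ℝ) : (n • y).2.1 = n * y.2.1 := by
  rw [Prod.smul_snd, Prod.smul_fst, zsmul_eq_mul]

lemma zs3 (n : ℤ) (y : ℤ × ℝ × ℝ) : (n • y).2.2 = n * y.2.2 := by
  rw [Prod.smul_snd, Prod.smul_snd, zsmul_eq_mul]

/-- on a connected subset of a class, some combination of two winding cocycles is exact -/
theorem proportional (hτ : Scale τ) {b : Bool} (hS : ∀ v ∈ S, (D.c v).1 = b) (hC : Conn τ S)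
    {z z' : ℂ} (hz : ∀ v ∈ S, 9 / 10 ≤ ‖v - z‖) (hz' : ∀ v ∈ S, 9 / 10 ≤ ‖v - z'‖) :
    ∃ a b : ℝ, (a ≠ 0 ∨ b ≠ 0) ∧ ∃ g : ℂ → ℝ, ∀ u ∈ S, ∀ v ∈ S, Adj τ u v →
      a * ang z u v + b * ang z' u v = g v - g u := by
  rcases S.eq_empty_or_nonempty with hne | ⟨p, hp⟩
  · subst hne
    exact ⟨1, 0, Or.inl one_ne_zero, fun _ => 0, fun u hu => absurd hu (notMem_empty u)⟩
  have hφ := tri_symm (D := D) hτ hz hz'
  have hmk : ∀ a b : ℝ, (∀ x, Walk τ S (tri D z z') p p x → a * x.2.1 + b * x.2.2 = 0) →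
      ∃ g : ℂ → ℝ, ∀ u ∈ S, ∀ v ∈ S, Adj τ u v → a * ang z u v + b * ang z' u v = g v - g u := by
    intro a b hab
    let ψ : ℤ × ℝ × ℝ →+ ℝ :=
      { toFun := fun x => a * x.2.1 + b * x.2.2
        map_zero' := by simp
        map_add' := fun x y => by simp only [Prod.snd_add, Prod.fst_add]; ring }
    obtain ⟨g, hg⟩ := exact_of_walk hφ hC hp ψ hab
    exact ⟨g, hg⟩
  by_cases hdeg : ∃ x, Walk τ S (tri D z z') p p x ∧ x.1 ≠ 0
  · obtain ⟨x, hx, hx1⟩ := hdeg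
    have hrel : ∀ y, Walk τ S (tri D z z') p p y →
        (x.1 : ℝ) * y.2.1 = y.1 * x.2.1 ∧ (x.1 : ℝ) * y.2.2 = y.1 * x.2.2 := by
      intro y hy
      have hx' : x ∈ cyc hφ hp := hx
      have hy' : y ∈ cyc hφ hp := hy
      have h1 : x.1 • y - y.1 • x ∈ cyc hφ hp :=
        AddSubgroup.sub_mem _ (AddSubgroup.zsmul_mem _ hy' _) (AddSubgroup.zsmul_mem _ hx' _)
      have h2 := walk_zero hτ hS hz hz' h1 (by
        rw [Prod.fst_sub, zs1, zs1]; ring)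
      rw [Prod.snd_sub, Prod.fst_sub, Prod.snd_sub, zs2, zs2, zs3, zs3] at h2
      exact ⟨by linarith [h2.1], by linarith [h2.2]⟩
    have hx1' : (x.1 : ℝ) ≠ 0 := by exact_mod_cast hx1
    by_cases hzero : x.2.1 = 0 ∧ x.2.2 = 0
    · refine ⟨1, 0, Or.inl one_ne_zero, hmk 1 0 ?_⟩
      intro y hy
      have h1 := (hrel y hy).1
      rw [hzero.1, mul_zero] at h1
      have h2 : y.2.1 = 0 := (mul_eq_zero.1 h1).resolve_left hx1'
      rw [h2]; ring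
    · refine ⟨x.2.2, -x.2.1, ?_, hmk _ _ ?_⟩
      · by_contra hcon
        push Not at hcon
        exact hzero ⟨neg_eq_zero.1 hcon.2, hcon.1⟩
      · intro y hy
        have h1 := hrel y hy
        have h2 : (x.1 : ℝ) * (x.2.2 * y.2.1 + -x.2.1 * y.2.2) = 0 := by
          calc (x.1 : ℝ) * (x.2.2 * y.2.1 + -x.2.1 * y.2.2) =
              x.2.2 * (x.1 * y.2.1) - x.2.1 * (x.1 * y.2.2) := by ring
            _ = 0 := by rw [h1.1, h1.2]; ring
        exact (mul_eq_zero.1 h2).resolve_left hx1'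
  · push Not at hdeg
    refine ⟨1, 0, Or.inl one_ne_zero, hmk 1 0 ?_⟩
    intro y hy
    rw [(walk_zero hτ hS hz hz' hy (hdeg y hy)).1]
    ring

/-- either the winding cocycle is exact or the set is bounded -/
theorem exact_or_bounded (hτ : Scale τ) {b : Bool} (hS : ∀ v ∈ S, (D.c v).1 = b) (hC : Conn τ S)
    {z : ℂ} (hz : ∀ v ∈ S, 9 / 10 ≤ ‖v - z‖) :
    (∃ g : ℂ → ℝ, ∀ u ∈ S, ∀ v ∈ S, Adj τ u v → ang z u v = g v - g u) ∨
      ∃ R, ∀ v ∈ S, ‖v‖ ≤ R := by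
  rcases S.eq_empty_or_nonempty with hne | ⟨p, hp⟩
  · subst hne
    exact Or.inr ⟨0, fun u hu => absurd hu (notMem_empty u)⟩
  by_cases hdeg : ∃ x, Walk τ S (tri D z z) p p x ∧ x.1 ≠ 0
  · obtain ⟨x, hx, hx1⟩ := hdeg
    obtain ⟨γ, F, n, hP, h0, hn, h1, h2, h3⟩ := walk_path hx
    right
    exact bounded_of_degree hτ hS hC hP (by rw [h0, hn]) (by omega)
  · push Not at hdeg
    left
    let ψ : ℤ × ℝ × ℝ →+ ℝ :=
      { toFun := fun x => x.2.1
        map_zero' := by simp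
        map_add' := fun x y => by simp only [Prod.snd_add, Prod.fst_add] }
    obtain ⟨g, hg⟩ := exact_of_walk (tri_symm (D := D) hτ hz hz) hC hp ψ
      (fun x hx => (walk_zero hτ hS hz hz hx (hdeg x hx)).1)
    exact ⟨g, hg⟩

end Pool.Agent.N466.Pl
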