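import Pool.Agent.N466.Pl.Tri

set_option autoImplicit false

namespace Pool.Agent.N466.Pl

open Set Relation

/-- the square -/
def Sq : Set ℂ := {w | 0 ≤ w.re ∧ w.re ≤ 2 ∧ 0 ≤ w.im ∧ w.im ≤ 2}

lemma sq_star : ∀ v ∈ Sq, ∀ t : ℝ, 0 ≤ t → t ≤ 1 → (t : ℂ) * v ∈ Sq := by
  rintro v ⟨h1, h2, h3, h4⟩ t ht0 ht1
  simp only [Sq, mem_ofPred_eq, Complex.re_ofReal_mul, Complex.im_ofReal_mul]
  exact ⟨by positivity, by nlinarith, by positivity, by nlinarith⟩

lemma lift_cocycle : ∀ a b c : ZMod 3, (a = b ∨ b = c ∨ a = c) →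
    lift3 (b - a) + lift3 (c - b) = lift3 (c - a) := by
  decide

lemma third' : ∀ a b c i : ZMod 3, a = b ∨ b = c ∨ a = c ∨ a = i ∨ b = i ∨ c = i := by
  decide

lemma third (a b c i : ZMod 3) (h1 : a ≠ b) (h2 : b ≠ c) (h3 : a ≠ c) (h4 : ¬ a = i)
    (h5 : ¬ b = i) : c = i := by
  have := third' a b c i
  tauto

lemma const_on {T : Set ℂ} (hT : IsPreconnected T) {l : ℝ} (hl : 0 < l) {h : ℂ → ℤ}
    (hh : ∀ u ∈ T, ∀ v ∈ T, ‖u - v‖ < l → h u = h v) {u v : ℂ} (hu : u ∈ T) (hv : v ∈ T) :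
    h u = h v := by
  refine IsPreconnected.induction₂ hT (fun a b => h a = h b) ?_ ?_ ?_ hu hv
  · intro x hx
    have h2 : ∀ᶠ y in nhdsWithin x T, dist y x < l :=
      mem_nhdsWithin_of_mem_nhds (Metric.ball_mem_nhds x hl)
    have h3 : ∀ᶠ y in nhdsWithin x T, y ∈ T := self_mem_nhdsWithin
    filter_upwards [h2, h3] with y hy hyT
    apply hh x hx y hyT
    rwa [dist_eq_norm, norm_sub_rev] at hy
  · intro x y z _ _ _ h1 h2
    exact h1.trans h2
  · intro x y _ _ h
    exact h.symm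

/-- the Sperner lemma on the square, for labels of a fine scale -/
theorem sperner {l : ℝ} (hl : 0 < l) (lab : ℂ → ZMod 3)
    (hleft : ∀ v ∈ Sq, v.re = 0 → lab v = 0)
    (hbot : ∀ v ∈ Sq, v.im = 0 → lab v = 0 ∨ lab v = 1)
    (hright : ∀ v ∈ Sq, v.re = 2 → lab v = 1 ∨ lab v = 2)
    (htop : ∀ v ∈ Sq, v.im = 2 → lab v = 0 ∨ lab v = 2) :
    ∃ t : ZMod 3 → ℂ, (∀ i, t i ∈ Sq) ∧ (∀ i, lab (t i) = i) ∧ ∀ i j, ‖t i - t j‖ < l := by
  by_contra hcon
  -- no three labels
  have hno : ∀ u ∈ Sq, ∀ v ∈ Sq, ∀ w ∈ Sq, ‖u - v‖ < l → ‖v - w‖ < l → ‖u - w‖ < l →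
      (lab u = lab v ∨ lab v = lab w ∨ lab u = lab w) := by
    intro u hu v hv w hw huv hvw huw
    by_contra h
    push Not at h
    obtain ⟨h1, h2, h3⟩ := h
    apply hcon
    have huu : ∀ a : ℂ, ‖a - a‖ < l := fun a => by rw [sub_self, norm_zero]; exact hl
    have hvu : ‖v - u‖ < l := by rwa [norm_sub_rev]
    have hwv : ‖w - v‖ < l := by rwa [norm_sub_rev]
    have hwu : ‖w - u‖ < l := by rwa [norm_sub_rev]
    let t : ZMod 3 → ℂ := fun i => if lab u = i then u else if lab v = i then v else w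
    have hmem : ∀ i, t i = u ∨ t i = v ∨ t i = w := by
      intro i
      by_cases h4 : lab u = i
      · left; simp only [t, h4, if_true]
      · by_cases h5 : lab v = i
        · right; left; simp only [t, h4, h5, if_true, if_false]
        · right; right; simp only [t, h4, h5, if_false]
    refine ⟨t, ?_, ?_, ?_⟩
    · intro i
      rcases hmem i with h | h | h <;> rw [h] <;> assumption
    · intro i
      by_cases h4 : lab u = i
      · simp only [t, h4, if_true]
      · by_cases h5 : lab v = i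
        · simp only [t, h4, h5, if_true, if_false]
        · simp only [t, h4, h5, if_false]
          exact third _ _ _ i h1 h2 h3 h4 h5
    · intro i j
      rcases hmem i with h | h | h <;> rcases hmem j with h' | h' | h' <;> rw [h, h'] <;>
        first | exact huu _ | assumption
  have hadj : ∀ u v : ℂ, Adj (fun _ => l) u v ↔ ‖u - v‖ < l := fun u v => Iff.rfl
  obtain ⟨β, hβ⟩ := exact_of_cocycle (K := Sq) (σ := fun _ => l)
    (α := fun u v => lift3 (lab v - lab u)) sq_star (fun _ => hl) (fun _ _ _ => le_refl l)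
    (fun u hu v hv w hw huv hvw huw => lift_cocycle _ _ _ (hno u hu v hv w hw huv hvw huw))
  -- a side
  have hside : ∀ (T : Set ℂ), IsPreconnected T → T ⊆ Sq → ∀ (rep : ZMod 3 → ℤ),
      (∀ u ∈ T, ∀ v ∈ T, lift3 (lab v - lab u) = rep (lab v) - rep (lab u)) →
      ∀ u ∈ T, ∀ v ∈ T, β v - β u = rep (lab v) - rep (lab u) := by
    intro T hT hTS rep hrep u hu v hv
    have h1 := const_on hT hl (h := fun w => β w - rep (lab w)) (fun a ha b hb hab => by
      have h2 := hβ a (hTS ha) b (hTS hb) hab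
      have h3 := hrep a ha b hb
      show β a - rep (lab a) = β b - rep (lab b)
      have h4 : lift3 (lab b - lab a) = β b - β a := h2
      omega) hu hv
    have h2 : β u - rep (lab u) = β v - rep (lab v) := h1
    omega
  -- the four sides
  have hpre : ∀ a b : ℂ, IsPreconnected (segment ℝ a b) := fun a b => (convex_segment a b).isPreconnected
  have hseg : ∀ a b v : ℂ, v ∈ segment ℝ a b → ∃ t : ℝ, 0 ≤ t ∧ t ≤ 1 ∧
      v.re = (1 - t) * a.re + t * b.re ∧ v.im = (1 - t) * a.im + t * b.im := by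
    rintro a b v ⟨s, t, hs, ht, hst, rfl⟩
    refine ⟨t, ht, by linarith, ?_, ?_⟩
    · have : s = 1 - t := by linarith
      simp [this]
    · have : s = 1 - t := by linarith
      simp [this]
  let P0 : ℂ := ⟨0, 0⟩
  let P1 : ℂ := ⟨2, 0⟩
  let P2 : ℂ := ⟨2, 2⟩
  let P3 : ℂ := ⟨0, 2⟩
  have s1 : ∀ v ∈ segment ℝ P0 P1, v ∈ Sq ∧ v.im = 0 := by
    intro v hv
    obtain ⟨t, h0, h1, h2, h3⟩ := hseg _ _ _ hv
    simp only [P0, P1, mul_zero, add_zero, zero_add] at h2 h3
    exact ⟨⟨by rw [h2]; linarith, by rw [h2]; linarith, by rw [h3], by rw [h3]; norm_num⟩, h3⟩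
  have s2 : ∀ v ∈ segment ℝ P1 P2, v ∈ Sq ∧ v.re = 2 := by
    intro v hv
    obtain ⟨t, h0, h1, h2, h3⟩ := hseg _ _ _ hv
    simp only [P1, P2, mul_zero, add_zero, zero_add] at h2 h3
    have h4 : v.re = 2 := by rw [h2]; ring
    exact ⟨⟨by rw [h4]; norm_num, by rw [h4], by rw [h3]; linarith, by rw [h3]; linarith⟩, h4⟩
  have s3 : ∀ v ∈ segment ℝ P2 P3, v ∈ Sq ∧ v.im = 2 := by
    intro v hv
    obtain ⟨t, h0, h1, h2, h3⟩ := hseg _ _ _ hv
    simp only [P2, P3, mul_zero, add_zero, zero_add] at h2 h3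
    have h4 : v.im = 2 := by rw [h3]; ring
    exact ⟨⟨by rw [h2]; linarith, by rw [h2]; linarith, by rw [h4]; norm_num, by rw [h4]⟩, h4⟩
  have s4 : ∀ v ∈ segment ℝ P3 P0, v ∈ Sq ∧ v.re = 0 := by
    intro v hv
    obtain ⟨t, h0, h1, h2, h3⟩ := hseg _ _ _ hv
    simp only [P3, P0, mul_zero, add_zero, zero_add] at h2 h3
    exact ⟨⟨by rw [h2], by rw [h2]; norm_num, by rw [h3]; linarith, by rw [h3]; linarith⟩, h2⟩
  have e1 := hside _ (hpre P0 P1) (fun v hv => (s1 v hv).1) (fun i => if i = 0 then 0 else 1)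
    (by
      intro u hu v hv
      have a1 := hbot u (s1 u hu).1 (s1 u hu).2
      have a2 := hbot v (s1 v hv).1 (s1 v hv).2
      rcases a1 with a1 | a1 <;> rcases a2 with a2 | a2 <;> rw [a1, a2] <;> decide)
    P0 (left_mem_segment _ _ _) P1 (right_mem_segment _ _ _)
  have e2 := hside _ (hpre P1 P2) (fun v hv => (s2 v hv).1) (fun i => if i = 1 then 1 else 2)
    (by
      intro u hu v hv
      have a1 := hright u (s2 u hu).1 (s2 u hu).2
      have a2 := hright v (s2 v hv).1 (s2 v hv).2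
      rcases a1 with a1 | a1 <;> rcases a2 with a2 | a2 <;> rw [a1, a2] <;> decide)
    P1 (left_mem_segment _ _ _) P2 (right_mem_segment _ _ _)
  have e3 := hside _ (hpre P2 P3) (fun v hv => (s3 v hv).1) (fun i => if i = 0 then 3 else 2)
    (by
      intro u hu v hv
      have a1 := htop u (s3 u hu).1 (s3 u hu).2
      have a2 := htop v (s3 v hv).1 (s3 v hv).2
      rcases a1 with a1 | a1 <;> rcases a2 with a2 | a2 <;> rw [a1, a2] <;> decide)
    P2 (left_mem_segment _ _ _) P3 (right_mem_segment _ _ _)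
  have e4 := hside _ (hpre P3 P0) (fun v hv => (s4 v hv).1) (fun _ => 0)
    (by
      intro u hu v hv
      have a1 := hleft u (s4 u hu).1 (s4 u hu).2
      have a2 := hleft v (s4 v hv).1 (s4 v hv).2
      rw [a1, a2]; decide)
    P3 (left_mem_segment _ _ _) P0 (right_mem_segment _ _ _)
  have m0 : P0 ∈ Sq := (s1 P0 (left_mem_segment _ _ _)).1
  have m1 : P1 ∈ Sq := (s1 P1 (right_mem_segment _ _ _)).1
  have m2 : P2 ∈ Sq := (s2 P2 (right_mem_segment _ _ _)).1
  have m3 : P3 ∈ Sq := (s3 P3 (right_mem_segment _ _ _)).1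
  have l0 : lab P0 = 0 := hleft P0 m0 rfl
  have l3 : lab P3 = 0 := hleft P3 m3 rfl
  have l1 : lab P1 = 1 := by
    have a1 := hbot P1 m1 rfl
    have a2 := hright P1 m1 rfl
    revert a1 a2
    generalize lab P1 = a
    revert a; decide
  have l2 : lab P2 = 2 := by
    have a1 := htop P2 m2 rfl
    have a2 := hright P2 m2 rfl
    revert a1 a2
    generalize lab P2 = a
    revert a; decide
  rw [l0, l1] at e1
  rw [l1, l2] at e2
  rw [l2, l3] at e3
  have d1 : (if (1 : ZMod 3) = 0 then (0:ℤ) else 1) = 1 := by decide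
  have d2 : (if (2 : ZMod 3) = 1 then (1:ℤ) else 2) = 2 := by decide
  have d3 : (if (2 : ZMod 3) = 0 then (3:ℤ) else 2) = 2 := by decide
  rw [d1] at e1
  rw [d2] at e2
  rw [d3] at e3
  simp only [if_true] at e1 e2 e3
  omega

end Pool.Agent.N466.Pl
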