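import Pool.Agent.N466.Pl.Prop

set_option autoImplicit false

namespace Pool.Agent.N466.Pl

open Set Relation

variable {τ : ℝ → ℝ} {D : Dat τ}

/-- a bounded simply connected region around `z` whose outer boundary lies in one class -/
structure Dsk (D : Dat τ) (z : ℂ) (X : Set ℂ) (κ : Bool) : Prop where
  mem : z ∈ X
  bdd : ∃ R, ∀ v ∈ X, ‖v‖ ≤ R
  conn : Conn τ X
  connc : Conn τ Xᶜ
  bd : ∀ v ∈ Bd τ X, (D.c v).1 = κ
  deep : ∀ v, v ∉ X → 9 / 10 ≤ ‖v - z‖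

lemma exists_far (R : ℝ) (z : ℂ) : ∃ f : ℂ, R < ‖f‖ ∧ R ≤ ‖f - z‖ := by
  refine ⟨((|R| + ‖z‖ + 1 : ℝ) : ℂ), ?_, ?_⟩
  · rw [Complex.norm_real, Real.norm_eq_abs, abs_of_nonneg (by positivity)]
    have := le_abs_self R
    have := norm_nonneg z
    linarith
  · have h1 : ‖((|R| + ‖z‖ + 1 : ℝ) : ℂ)‖ = |R| + ‖z‖ + 1 := by
      rw [Complex.norm_real, Real.norm_eq_abs, abs_of_nonneg (by positivity)]
    have h2 := norm_sub_norm_le (((|R| + ‖z‖ + 1 : ℝ) : ℂ)) z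
    have := le_abs_self R
    linarith

/-- a bounded set lies in a ball around any point -/
lemma bdd_ball {X : Set ℂ} (h : ∃ R, ∀ v ∈ X, ‖v‖ ≤ R) (z : ℂ) :
    ∃ R, 0 ≤ R ∧ ∀ v ∈ X, ‖v - z‖ < R := by
  obtain ⟨R, hR⟩ := h
  refine ⟨|R| + ‖z‖ + 1, by positivity, ?_⟩
  intro v hv
  have h1 := hR v hv
  have h2 := norm_sub_le v z
  have := le_abs_self R
  linarith

lemma Dsk.bd_nonempty (hτ : Scale τ) {z : ℂ} {X : Set ℂ} {κ : Bool} (h : Dsk D z X κ) :
    (Bd τ X).Nonempty := by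
  obtain ⟨R, hR⟩ := h.bdd
  obtain ⟨f, hf, _⟩ := exists_far R z
  have hfX : f ∉ X := fun h1 => absurd (hR f h1) (not_le.2 hf)
  obtain ⟨a, b, ha, hb, hab⟩ := exists_hit hfX h.mem (conn_univ hτ f (mem_univ _) z (mem_univ _))
  exact ⟨a, ha.1, b, hb, hab.symm⟩

/-- gluing with an exact cocycle on the boundary -/
lemma Dsk.no_exact (hτ : Scale τ) {z : ℂ} {X : Set ℂ} {κ : Bool} (h : Dsk D z X κ) {a : ℝ}
    {g : ℂ → ℝ} (hg : ∀ u ∈ Bd τ X, ∀ v ∈ Bd τ X, Adj τ u v → a * ang z u v = g v - g u) :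
    a = 0 := by
  obtain ⟨R, _, hR⟩ := bdd_ball h.bdd z
  exact glue hτ hR h.deep (ψ := fun _ _ => 0) (fun _ _ _ _ _ _ _ _ _ => by simp) (g := g)
    (fun u hu v hv huv => by rw [hg u hu v hv huv]; ring)

lemma step_main (hτ : Scale τ) {z z' : ℂ} {X Y : Set ℂ} {κ : Bool} (hX : Dsk D z X κ)
    (hY : Dsk D z' Y false) (hdis : ∀ v ∈ Y ∪ Bd τ Y, v ∉ X) :
    ∃ X', Dsk D z X' (!κ) ∧ (∀ v ∈ Y ∪ Bd τ Y, v ∉ X') ∧ X ⊆ X' ∧ Bd τ X ⊆ X' := by
  classical
  -- the component of the boundary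
  let S : Set ℂ := {v | (D.c v).1 = κ ∧ v ∉ X ∧ v ∉ Y}
  obtain ⟨p0, hp0⟩ := hX.bd_nonempty hτ
  have hBdY : ∀ v ∈ Bd τ X, v ∉ Y := by
    rintro v ⟨hv, u, hu, huv⟩ hvY
    by_cases huY : u ∈ Y
    · exact hdis u (Or.inl huY) hu
    · exact hdis u (Or.inr ⟨huY, v, hvY, huv.symm⟩) hu
  have hBdS : Bd τ X ⊆ S := fun v hv => ⟨hX.bd v hv, hv.1, hBdY v hv⟩
  set L : Set ℂ := Comp τ S p0 with hL
  have hBdL : Bd τ X ⊆ L := fun v hv =>
    Comp.of_conn (conn_Bd hτ hX.conn hX.connc) hBdS hp0 (Comp.self (hBdS hp0)) hv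
  have hLS : L ⊆ S := Comp.subset _ _
  have hLc : ∀ v ∈ L, (D.c v).1 = κ := fun v hv => (hLS hv).1
  have hLX : ∀ v ∈ L, v ∉ X := fun v hv => (hLS hv).2.1
  have hLY : ∀ v ∈ L, v ∉ Y := fun v hv => (hLS hv).2.2
  have hLz : ∀ v ∈ L, 9 / 10 ≤ ‖v - z‖ := fun v hv => hX.deep v (hLX v hv)
  have hLz' : ∀ v ∈ L, 9 / 10 ≤ ‖v - z'‖ := fun v hv => hY.deep v (hLY v hv)
  have hLC : Conn τ L := Comp.conn _ _
  -- `L` is bounded
  have hLb : ∃ R, ∀ v ∈ L, ‖v‖ ≤ R := by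
    rcases exact_or_bounded hτ hLc hLC hLz with ⟨g, hg⟩ | h
    · exfalso
      have := hX.no_exact hτ (a := 1) (g := g)
        (fun u hu v hv huv => by rw [one_mul]; exact hg u (hBdL hu) v (hBdL hv) huv)
      norm_num at this
    · exact h
  obtain ⟨a, b, hab, g, hg⟩ := proportional hτ hLc hLC hLz hLz'
  -- `a = 0`
  have ha : a = 0 := by
    obtain ⟨R, _, hR⟩ := bdd_ball hX.bdd z
    have hdeep : ∀ v ∈ X ∪ Bd τ X, 9 / 10 ≤ ‖v - z'‖ := by
      rintro v (hv | hv)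
      · exact hY.deep v (fun h => hdis v (Or.inl h) hv)
      · exact hY.deep v (hBdY v hv)
    refine glue hτ hR hX.deep (ψ := fun u v => -(b * ang z' u v)) ?_ (g := g) ?_
    · intro u hu v hv w hw huv hvw huw
      have h1 := ang_add' (hdeep u hu) (hdeep v hv) (hdeep w hw) (by linarith [huv.lt hτ])
        (by linarith [hvw.lt hτ])
      rw [← h1]; ring
    · intro u hu v hv huv
      have h1 := hg u (hBdL hu) v (hBdL hv) huv
      linarith
  have hb : b ≠ 0 := by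
    rcases hab with h | h
    · exact absurd ha h
    · exact h
  have hg' : ∀ u ∈ L, ∀ v ∈ L, Adj τ u v → b * ang z' u v = g v - g u := by
    intro u hu v hv huv
    have h1 := hg u hu v hv huv
    rw [ha, zero_mul, zero_add] at h1
    exact h1
  -- the boundary of `Y` does not meet `L`
  have hLBd : ∀ v ∈ L, v ∉ Bd τ Y := by
    intro v hv hvB
    have hκ : κ = false := by rw [← hLc v hv]; exact hY.bd v hvB
    have hBS : Bd τ Y ⊆ S := fun w hw => ⟨by rw [hκ]; exact hY.bd w hw, hdis w (Or.inr hw), hw.1⟩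
    have hBL : Bd τ Y ⊆ L := fun w hw =>
      Comp.of_conn (conn_Bd hτ hY.conn hY.connc) hBS hvB hv hw
    exact hb (hY.no_exact hτ (fun u hu v hv huv => hg' u (hBL hu) v (hBL hv) huv))
  have hdisL : ∀ v ∈ Y ∪ Bd τ Y, v ∉ X ∪ L := by
    rintro v hv (h | h)
    · exact hdis v hv h
    · rcases hv with hv | hv
      · exact hLY v h hv
      · exact hLBd v h hv
  -- the union of `X` and `L`
  have hXLc : Conn τ (X ∪ L) := by
    obtain ⟨_, u, hu, hup⟩ := id hp0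
    apply conn_union_bd hX.conn
    intro v hv
    refine ⟨u, hu, (Reach.step (Or.inl hu) (Or.inr (hBdL hp0)) hup).trans ?_⟩
    exact (hLC p0 (hBdL hp0) v hv).mono subset_union_right
  have hXLne : (X ∪ L).Nonempty := ⟨z, Or.inl hX.mem⟩
  obtain ⟨R, hR0, hR⟩ : ∃ R, 0 ≤ R ∧ ∀ v ∈ X ∪ L, ‖v - z‖ < R := by
    apply bdd_ball
    obtain ⟨R1, h1⟩ := hX.bdd
    obtain ⟨R2, h2⟩ := hLb
    refine ⟨max R1 R2, ?_⟩
    rintro v (hv | hv)
    · exact (h1 v hv).trans (le_max_left _ _)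
    · exact (h2 v hv).trans (le_max_right _ _)
  obtain ⟨f, _, hf⟩ := exists_far R z
  have hYB : Y ∪ Bd τ Y ⊆ (X ∪ L)ᶜ := hdisL
  have hz'Y : z' ∈ Y ∪ Bd τ Y := Or.inl hY.mem
  have hYH : ∀ v ∈ Y ∪ Bd τ Y, v ∈ Comp τ (X ∪ L)ᶜ z' := fun v hv =>
    Comp.of_conn (conn_union_Bd hY.conn) hYB hz'Y (Comp.self (hYB hz'Y)) hv
  -- a neighbour of `X` outside `X ∪ L` does not exist
  have hadjX : ∀ u v, u ∈ X → v ∉ X ∪ L → ¬ Adj τ u v := by
    intro u v hu hv huv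
    exact hv (Or.inr (hBdL ⟨fun h => hv (Or.inl h), u, hu, huv⟩))
  by_cases hfar : f ∈ Comp τ (X ∪ L)ᶜ z'
  · -- the next stage
    refine ⟨Fill τ (X ∪ L) f, ⟨?_, ?_, ?_, ?_, ?_, ?_⟩, ?_, ?_, ?_⟩
    · exact Fill.subset _ _ (Or.inl hX.mem)
    · have h1 := Fill.sub_ball hτ hR0 hR hf
      refine ⟨R + ‖z‖, fun v hv => ?_⟩
      have h2 := h1 v hv
      have h3 := norm_add_le (v - z) z
      rw [sub_add_cancel] at h3
      linarith
    · exact Fill.conn hτ hXLc hXLne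
    · exact Fill.conn_compl _ _
    · intro v hv
      obtain ⟨hv1, u, hu, huv⟩ := Fill.bd hv
      rcases hu with hu | hu
      · exact absurd huv (hadjX u v hu hv1)
      · have h1 : (D.c v).1 ≠ κ := by
          intro h2
          apply hv1
          right
          refine Comp.closed hu ⟨h2, fun h => hv1 (Or.inl h), fun h => ?_⟩ huv
          exact hLBd u hu ⟨hLY u hu, v, h, huv.symm⟩
        revert h1
        cases (D.c v).1 <;> cases κ <;> simp
    · intro v hv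
      exact hX.deep v (fun h => hv (Fill.subset _ _ (Or.inl h)))
    · intro v hv hvF
      apply hvF
      have h1 := hYH v hv
      exact ⟨h1.1, hfar.2.symm.trans h1.2⟩
    · exact fun v hv => Fill.subset _ _ (Or.inl hv)
    · exact fun v hv => Fill.subset _ _ (Or.inr (hBdL hv))
  · -- a bounded component
    exfalso
    apply hb
    have e : Comp τ (X ∪ L)ᶜ z' = (Fill τ (X ∪ L) z')ᶜ := by unfold Fill; rw [compl_compl]
    have hH : Dsk D z' (Comp τ (X ∪ L)ᶜ z') κ := by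
      refine ⟨hYH z' hz'Y, ?_, Comp.conn _ _, ?_, ?_, ?_⟩
      · refine ⟨R + ‖z‖, fun v hv => ?_⟩
        by_contra hcon
        push Not at hcon
        have h3 := norm_add_le (v - z) z
        rw [sub_add_cancel] at h3
        apply hfar
        refine Comp.of_conn (T := {v : ℂ | R ≤ ‖v - z‖}) (conn_far hτ z hR0) ?_
          (show R ≤ ‖v - z‖ by linarith) hv hf
        intro w hw hwY
        exact absurd (hR w hwY) (not_lt.2 hw)
      · rw [e, compl_compl]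
        exact Fill.conn hτ hXLc hXLne
      · intro v hv
        obtain ⟨hv1, u, hu, huv⟩ := hv
        have hvXL : v ∈ X ∪ L := by
          by_contra h
          exact hv1 (Comp.closed hu h huv)
        rcases hvXL with h | h
        · exact absurd huv.symm (hadjX v u h hu.1)
        · exact hLc v h
      · intro v hv
        exact hY.deep v (fun h => hv (hYH v (Or.inl h)))
    have hBdH : Bd τ (Comp τ (X ∪ L)ᶜ z') ⊆ L := by
      intro v hv
      obtain ⟨hv1, u, hu, huv⟩ := hv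
      have hvXL : v ∈ X ∪ L := by
        by_contra h
        exact hv1 (Comp.closed hu h huv)
      rcases hvXL with h | h
      · exact absurd huv.symm (hadjX v u h hu.1)
      · exact h
    exact hH.no_exact hτ (fun u hu v hv huv => hg' u (hBdH hu) v (hBdH hv) huv)

theorem no_two (hτ : Scale τ) {z z' : ℂ} {Y : Set ℂ} (hY : Dsk D z' Y false) (m : ℕ) :
    ∀ (X : Set ℂ) (κ : Bool) (Q : ℕ → ℂ), Dsk D z X κ → (∀ v ∈ Y ∪ Bd τ Y, v ∉ X) →
      (∀ i < m, Adj τ (Q i) (Q (i + 1))) → Q 0 ∈ X → Q m ∈ Y → False := by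
  induction m with
  | zero =>
    intro X κ Q _ hdis _ h0 hm
    exact hdis _ (Or.inl hm) h0
  | succ m ih =>
    intro X κ Q hX hdis hadj h0 hm
    by_cases h1 : Q 1 ∈ X
    · exact ih X κ (fun i => Q (i + 1)) hX hdis (fun i hi => hadj (i + 1) (by omega)) h1 hm
    · obtain ⟨X', hX', hdis', _, hBd⟩ := step_main hτ hX hY hdis
      exact ih X' (!κ) (fun i => Q (i + 1)) hX' hdis' (fun i hi => hadj (i + 1) (by omega))
        (hBd ⟨h1, Q 0, h0, hadj 0 (by omega)⟩) hm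

theorem no_two' (hτ : Scale τ) {z z' : ℂ} {X Y : Set ℂ} (hX : Dsk D z X false)
    (hY : Dsk D z' Y false) (hdis : ∀ v ∈ Y ∪ Bd τ Y, v ∉ X) : False := by
  obtain ⟨N, Q, hQ, h0, hN⟩ := exists_chain (mem_univ z) (conn_univ hτ z (mem_univ _) z' (mem_univ _))
  exact no_two hτ hY N X false Q hX hdis hQ.adj (by rw [h0]; exact hX.mem) (by rw [hN]; exact hY.mem)

end Pool.Agent.N466.Pl
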