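import Pool.Agent.N466.Pl.Stage

set_option autoImplicit false

namespace Pool.Agent.N466.Pl

open Set Relation

variable {τ : ℝ → ℝ}

/-- three pairwise adjacent points that carry the three colours of the first class lie in a
region whose boundary lies in the second class -/
theorem triple_dsk (hτ : Scale τ) {D : Dat τ} {x : ZMod 3 → ℂ} (hc : ∀ i, D.c (x i) = (true, i))
    (ha : ∀ i j, Adj τ (x i) (x j)) : ∃ X, Dsk D (x 0) X false ∧ ∀ v ∈ X, ‖v - x 0‖ < 6 / 5 := by
  set z := x 0 with hz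
  let W : Set ℂ := {v | ‖v - z‖ < 9 / 10 ∨ ((D.c v).1 = true ∧ D.Near (x (D.c v).2) v)}
  have hcol : ∀ v, (D.c v).1 = true → D.c (x (D.c v).2) = D.c v := by
    intro v hv
    rw [hc, ← hv]
  have hxz : ∀ i, ‖x i - z‖ < 1 / 20 := fun i => (ha i 0).lt' hτ
  have hW : ∀ v ∈ W, ‖v - z‖ < 6 / 5 := by
    rintro v (hv | ⟨hv, hn⟩)
    · linarith
    · have h1 := D.n2 _ _ (hcol v hv) hn
      have h2 := hxz (D.c v).2
      have h3 : ‖v - z‖ = ‖(x (D.c v).2 - z) - (x (D.c v).2 - v)‖ := by congr 1; ring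
      have h4 := norm_sub_le (x (D.c v).2 - z) (x (D.c v).2 - v)
      linarith
  have hzW : z ∈ W := by
    left
    rw [sub_self, norm_zero]; norm_num
  let Y : Set ℂ := Comp τ W z
  have hYW : Y ⊆ W := Comp.subset _ _
  have hball : ∀ v, ‖v - z‖ < 9 / 10 → v ∈ Y := by
    intro v hv
    refine Comp.of_conn (conn_ball hτ z (9 / 10)) (fun w hw => Or.inl hw) (u := z) ?_ (Comp.self hzW) hv
    show ‖z - z‖ < 9 / 10
    rw [sub_self, norm_zero]; norm_num
  obtain ⟨f, _, hf⟩ := exists_far (6 / 5) z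
  have hsub := Fill.sub_ball (τ := τ) hτ (by norm_num : (0:ℝ) ≤ 6 / 5) (fun v hv => hW v (hYW hv)) hf
  refine ⟨Fill τ Y f, ⟨?_, ?_, ?_, ?_, ?_, ?_⟩, hsub⟩
  · exact Fill.subset _ _ (Comp.self hzW)
  · refine ⟨6 / 5 + ‖z‖, fun v hv => ?_⟩
    have h2 := hsub v hv
    have h3 := norm_add_le (v - z) z
    rw [sub_add_cancel] at h3
    linarith
  · exact Fill.conn hτ (Comp.conn _ _) ⟨z, Comp.self hzW⟩
  · exact Fill.conn_compl _ _
  · intro v hv
    obtain ⟨hv1, u, hu, huv⟩ := Fill.bd hv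
    have hvW : v ∉ W := fun h => hv1 (Comp.closed hu h huv)
    by_contra hcon
    have hvt : (D.c v).1 = true := by
      revert hcon
      cases (D.c v).1 <;> simp
    have hnn : ¬ D.Near (x (D.c v).2) v := fun h => hvW (Or.inr ⟨hvt, h⟩)
    have h1 := D.n3 _ _ (hcol v hvt) hnn
    rcases hYW hu with hu1 | ⟨hu1, hu2⟩
    · have h2 := hxz (D.c v).2
      have h3 := huv.lt' hτ
      have h4 : ‖x (D.c v).2 - v‖ = ‖((x (D.c v).2 - z) - (u - z)) + (u - v)‖ := by congr 1; ring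
      have h5 := norm_add_le ((x (D.c v).2 - z) - (u - z)) (u - v)
      have h6 := norm_sub_le (x (D.c v).2 - z) (u - z)
      linarith
    · exact hnn (D.n1 _ _ _ _ (hcol u hu1) (hcol v hvt) (ha _ _) huv hu2)
  · intro v hv
    by_contra hcon
    push Not at hcon
    exact hv (Fill.subset _ _ (hball v hcon))

/-- two far triples of the same class are impossible -/
theorem no_two_triples (hτ : Scale τ) {D : Dat τ} {x y : ZMod 3 → ℂ}
    (hcx : ∀ i, D.c (x i) = (true, i)) (hax : ∀ i j, Adj τ (x i) (x j))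
    (hcy : ∀ i, D.c (y i) = (true, i)) (hay : ∀ i j, Adj τ (y i) (y j))
    (hfar : 3 ≤ ‖x 0 - y 0‖) : False := by
  obtain ⟨X, hX, hXb⟩ := triple_dsk hτ hcx hax
  obtain ⟨Y, hY, hYb⟩ := triple_dsk hτ hcy hay
  refine no_two' hτ hX hY ?_
  intro v hv hvX
  have h1 := hXb v hvX
  have h2 : ‖v - y 0‖ < 13 / 10 := by
    rcases hv with hv | ⟨_, u, hu, huv⟩
    · linarith [hYb v hv]
    · have h3 := hYb u hu
      have h4 := huv.lt hτ
      have h5 : ‖v - y 0‖ = ‖(u - y 0) - (u - v)‖ := by congr 1; ring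
      have h6 := norm_sub_le (u - y 0) (u - v)
      linarith
  have h3 : ‖x 0 - y 0‖ = ‖(v - y 0) - (v - x 0)‖ := by congr 1; ring
  have h4 := norm_sub_le (v - y 0) (v - x 0)
  linarith

end Pool.Agent.N466.Pl
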