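import Pool.Agent.N466.Pl.H1

set_option autoImplicit false

namespace Pool.Agent.N466.Pl

open Set Relation

variable {τ : ℝ → ℝ}

lemma const_of_reach {G : Type*} {S : Set ℂ} {β : ℂ → G}
    (hβ : ∀ a ∈ S, ∀ b ∈ S, Adj τ a b → β a = β b) {u v : ℂ} (h : Reach τ S u v) : β u = β v := by
  induction h with
  | refl => rfl
  | tail _ h2 ih => exact ih.trans (hβ _ h2.1 _ h2.2.1 h2.2.2)

/-- the boundary of a connected set with connected complement is connected -/
theorem conn_Bd (hτ : Scale τ) {X : Set ℂ} (hX : Conn τ X) (hXc : Conn τ Xᶜ) :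
    Conn τ (Bd τ X) := by
  classical
  intro p hp q hq
  -- the component of `p` in the boundary
  let P : Set ℂ := Comp τ (Bd τ X) p
  let α : ℂ → ℂ → ZMod 2 := fun u v => if (u ∈ X ∧ v ∈ P) ∨ (v ∈ X ∧ u ∈ P) then 1 else 0
  have hPX : ∀ v, v ∈ P → v ∉ X := fun v hv => hv.1.1
  have hsame : ∀ v w, v ∉ X → w ∉ X → (∃ u ∈ X, Adj τ u v) → (∃ u ∈ X, Adj τ u w) → Adj τ v w →
      (v ∈ P ↔ w ∈ P) := by
    intro v w hv hw h1 h2 h
    constructor
    · intro hP
      exact Comp.closed hP ⟨hw, h2⟩ h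
    · intro hP
      exact Comp.closed hP ⟨hv, h1⟩ h.symm
  have hα : ∀ u v w, Adj τ u v → Adj τ v w → Adj τ u w → α u v + α v w = α u w := by
    intro u v w huv hvw huw
    by_cases hu : u ∈ X <;> by_cases hv : v ∈ X <;> by_cases hw : w ∈ X
    · have h1 : u ∉ P := fun h => hPX u h hu
      have h2 : v ∉ P := fun h => hPX v h hv
      have h3 : w ∉ P := fun h => hPX w h hw
      simp [α, hu, hv, hw, h1, h2, h3]
    · have h1 : u ∉ P := fun h => hPX u h hu
      have h2 : v ∉ P := fun h => hPX v h hv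
      by_cases h3 : w ∈ P <;> simp [α, hu, hv, hw, h1, h2, h3]
    · have h1 : u ∉ P := fun h => hPX u h hu
      have h3 : w ∉ P := fun h => hPX w h hw
      by_cases h2 : v ∈ P
      · simp only [α, hu, hv, hw, h1, h2, h3, and_true, and_false, or_false, or_true, false_or, true_or,
          if_true, if_false, not_false_eq_true, false_and, true_and, and_self]
        decide
      · simp [α, hu, hv, hw, h1, h2, h3]
    · have h1 : u ∉ P := fun h => hPX u h hu
      have h4 := hsame v w hv hw ⟨u, hu, huv⟩ ⟨u, hu, huw⟩ hvw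
      by_cases h2 : v ∈ P
      · have h3 := h4.1 h2
        simp [α, hu, hv, hw, h1, h2, h3]
      · have h3 : w ∉ P := fun h => h2 (h4.2 h)
        simp [α, hu, hv, hw, h1, h2, h3]
    · have h2 : v ∉ P := fun h => hPX v h hv
      have h3 : w ∉ P := fun h => hPX w h hw
      by_cases h1 : u ∈ P <;> simp [α, hu, hv, hw, h1, h2, h3]
    · have h2 : v ∉ P := fun h => hPX v h hv
      have h4 := hsame u w hu hw ⟨v, hv, huv.symm⟩ ⟨v, hv, hvw⟩ huw
      by_cases h1 : u ∈ P
      · have h3 := h4.1 h1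
        simp only [α, hu, hv, hw, h1, h2, h3, and_true, and_false, or_false, or_true, false_or, true_or,
          if_true, if_false, not_false_eq_true, false_and, true_and, and_self]
        decide
      · have h3 : w ∉ P := fun h => h1 (h4.2 h)
        simp [α, hu, hv, hw, h1, h2, h3]
    · have h3 : w ∉ P := fun h => hPX w h hw
      have h4 := hsame u v hu hv ⟨w, hw, huw.symm⟩ ⟨w, hw, hvw.symm⟩ huv
      by_cases h1 : u ∈ P
      · have h2 := h4.1 h1
        simp [α, hu, hv, hw, h1, h2, h3]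
      · have h2 : v ∉ P := fun h => h1 (h4.2 h)
        simp [α, hu, hv, hw, h1, h2, h3]
    · simp [α, hu, hv, hw]
  obtain ⟨β, hβ⟩ := exact_plane hτ α hα
  have hβX : ∀ a ∈ X, ∀ b ∈ X, Adj τ a b → β a = β b := by
    intro a ha b hb hab
    have h1 := hβ a b hab
    have h2 : a ∉ P := fun h => hPX a h ha
    have h3 : b ∉ P := fun h => hPX b h hb
    have h4 : α a b = 0 := by simp [α, ha, hb, h2, h3]
    rw [h4] at h1
    exact (sub_eq_zero.1 h1.symm).symm
  have hβXc : ∀ a ∈ Xᶜ, ∀ b ∈ Xᶜ, Adj τ a b → β a = β b := by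
    intro a ha b hb hab
    have h1 := hβ a b hab
    have ha' : a ∉ X := ha
    have hb' : b ∉ X := hb
    have h4 : α a b = 0 := by simp [α, ha', hb']
    rw [h4] at h1
    exact (sub_eq_zero.1 h1.symm).symm
  obtain ⟨hpX, a, haX, hap⟩ := id hp
  obtain ⟨hqX, b, hbX, hbq⟩ := id hq
  have e1 : β a = β b := const_of_reach hβX (hX a haX b hbX)
  have e2 : β p = β q := const_of_reach hβXc (hXc p hpX q hqX)
  have e3 : α a p = α b q := by
    rw [hβ a p hap, hβ b q hbq, e1, e2]
  have e4 : α a p = 1 := by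
    have : p ∈ P := Comp.self hp
    simp [α, haX, this]
  have e5 : q ∈ P := by
    by_contra hqP
    have h5 : α b q = 0 := by
      have : b ∉ P := fun h => hPX b h hbX
      simp [α, hqP, this]
    rw [e3, h5] at e4
    exact absurd e4 (by decide)
  exact (Comp.reach e5.2).mono (Comp.subset _ _)

end Pool.Agent.N466.Pl
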