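import Pool.Agent.N466.Pl.UC

set_option autoImplicit false

namespace Pool.Agent.N466.Pl

open Set Relation Finset

variable {τ : ℝ → ℝ}

/-- the oriented angle under which `v, w` are seen from `z` -/
noncomputable def ang (z v w : ℂ) : ℝ := Complex.arg ((w - z) / (v - z))

lemma re_pos {z v w : ℂ} (hv : 9 / 10 ≤ ‖v - z‖) (hw : 9 / 10 ≤ ‖w - z‖) (h : ‖v - w‖ ≤ 1) :
    0 < ((w - z) / (v - z)).re := by
  rw [Complex.div_re, ← add_div]
  have e1 : ‖v - z‖ ^ 2 = (v - z).re ^ 2 + (v - z).im ^ 2 := by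
    rw [Complex.sq_norm, Complex.normSq_apply]; ring
  have e2 : ‖w - z‖ ^ 2 = (w - z).re ^ 2 + (w - z).im ^ 2 := by
    rw [Complex.sq_norm, Complex.normSq_apply]; ring
  have e3 : ‖v - w‖ ^ 2 = ((v - z).re - (w - z).re) ^ 2 + ((v - z).im - (w - z).im) ^ 2 := by
    rw [Complex.sq_norm, Complex.normSq_apply]
    simp only [Complex.sub_re, Complex.sub_im]
    ring
  have h1 : ‖v - z‖ ^ 2 ≥ 81 / 100 := by nlinarith
  have h2 : ‖w - z‖ ^ 2 ≥ 81 / 100 := by nlinarith
  have h3 : ‖v - w‖ ^ 2 ≤ 1 := by nlinarith [norm_nonneg (v - w)]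
  apply div_pos
  · nlinarith
  · rw [Complex.normSq_pos]
    intro h0
    rw [h0, norm_zero] at hv
    norm_num at hv

lemma ang_add {z v w s : ℂ} (hw : w ≠ z) (h1 : 0 < ((w - z) / (v - z)).re)
    (h2 : 0 < ((s - z) / (w - z)).re) : ang z v w + ang z w s = ang z v s := by
  unfold ang
  have hx : (w - z) / (v - z) ≠ 0 := by intro h; rw [h] at h1; simp at h1
  have hy : (s - z) / (w - z) ≠ 0 := by intro h; rw [h] at h2; simp at h2
  have a1 : |((w - z) / (v - z)).arg| < Real.pi / 2 := Complex.abs_arg_lt_pi_div_two_iff.2 (Or.inl h1)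
  have a2 : |((s - z) / (w - z)).arg| < Real.pi / 2 := Complex.abs_arg_lt_pi_div_two_iff.2 (Or.inl h2)
  rw [abs_lt] at a1 a2
  rw [← Complex.arg_mul hx hy ⟨by linarith, by linarith⟩]
  congr 1
  have : w - z ≠ 0 := sub_ne_zero.2 hw
  field_simp

/-- additivity for three points with mutual distances at most 1 outside the disc of radius 9/10 -/
lemma ang_add' {z v w s : ℂ} (hv : 9 / 10 ≤ ‖v - z‖) (hw : 9 / 10 ≤ ‖w - z‖)
    (hs : 9 / 10 ≤ ‖s - z‖) (h1 : ‖v - w‖ ≤ 1) (h2 : ‖w - s‖ ≤ 1) :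
    ang z v w + ang z w s = ang z v s := by
  apply ang_add _ (re_pos hv hw h1) (re_pos hw hs h2)
  rintro rfl
  simp at hw
  norm_num at hw

lemma ang_self (z v : ℂ) : ang z v v = 0 := by
  unfold ang
  by_cases h : v - z = 0
  · rw [h]; simp
  · rw [div_self h]; simp

lemma ang_symm {z v w : ℂ} (hv : 9 / 10 ≤ ‖v - z‖) (hw : 9 / 10 ≤ ‖w - z‖) (h1 : ‖v - w‖ ≤ 1) :
    ang z w v = - ang z v w := by
  have := ang_add' hv hw hv h1 (by rwa [norm_sub_rev])
  rw [ang_self] at this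
  linarith

/-- the winding cocycle is not exact outside a bounded set -/
lemma ne_exact (hτ : Scale τ) {z : ℂ} {a R : ℝ} {β : ℂ → ℝ}
    (hβ : ∀ u v, Adj τ u v → R ≤ ‖u - z‖ → R ≤ ‖v - z‖ → a * ang z u v = β v - β u) : a = 0 := by
  set R' : ℝ := max R 1 with hR'
  have hR1 : 1 ≤ R' := le_max_right _ _
  have hR0 : 0 < R' := by linarith
  obtain ⟨n, hn⟩ := exists_nat_gt (R' * (2 * Real.pi) / τ (‖z‖ + R') + 3)
  have hτpos := hτ.pos (‖z‖ + R')
  have hq : 0 ≤ R' * (2 * Real.pi) / τ (‖z‖ + R') := by positivity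
  have hn3 : (3:ℝ) < n := by linarith
  have hn0 : (0:ℝ) < n := by linarith
  have hnlt : R' * (2 * Real.pi) / n < τ (‖z‖ + R') := by
    have h1 : R' * (2 * Real.pi) / τ (‖z‖ + R') < n := by linarith
    rw [div_lt_iff₀ hτpos] at h1
    rw [div_lt_iff₀ hn0]
    linarith [mul_comm (τ (‖z‖ + R')) (n:ℝ)]
  let θ : ℝ := 2 * Real.pi / n
  let p : ℕ → ℂ := fun k => z + (R' : ℂ) * Complex.exp (Complex.I * ((k : ℝ) * θ : ℝ))
  have hexp : ∀ x : ℝ, ‖Complex.exp (Complex.I * x)‖ = 1 := by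
    intro x; rw [mul_comm]; exact Complex.norm_exp_ofReal_mul_I x
  have hpz : ∀ k, ‖p k - z‖ = R' := by
    intro k
    simp only [p, add_sub_cancel_left, norm_mul, hexp, mul_one, Complex.norm_real, Real.norm_eq_abs]
    exact abs_of_pos hR0
  have hpn : ∀ k, ‖p k‖ ≤ ‖z‖ + R' := by
    intro k
    calc ‖p k‖ = ‖z + (p k - z)‖ := by congr 1; ring
      _ ≤ ‖z‖ + ‖p k - z‖ := norm_add_le _ _
      _ = _ := by rw [hpz]
  have hsucc : ∀ k, p (k + 1) - z = (p k - z) * Complex.exp (Complex.I * (θ : ℝ)) := by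
    intro k
    simp only [p, add_sub_cancel_left]
    rw [mul_assoc, ← Complex.exp_add]
    congr 2
    push_cast
    ring
  have hadj : ∀ k, Adj τ (p k) (p (k + 1)) := by
    intro k
    apply Adj.of_lt hτ (hpn k) (hpn (k+1))
    have e : p k - p (k + 1) = - ((p k - z) * (Complex.exp (Complex.I * (θ : ℝ)) - 1)) := by
      have := hsucc k
      calc p k - p (k + 1) = (p k - z) - (p (k+1) - z) := by ring
        _ = _ := by rw [this]; ring
    rw [e, norm_neg, norm_mul, hpz]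
    have h1 : ‖Complex.exp (Complex.I * (θ : ℝ)) - 1‖ ≤ ‖θ‖ := Real.norm_exp_I_mul_ofReal_sub_one_le
    have h2 : ‖θ‖ = 2 * Real.pi / n := by
      rw [Real.norm_eq_abs, abs_of_nonneg]
      positivity
    calc R' * ‖Complex.exp (Complex.I * (θ : ℝ)) - 1‖ ≤ R' * (2 * Real.pi / n) := by
          rw [h2] at h1; gcongr
      _ = R' * (2 * Real.pi) / n := by ring
      _ < _ := hnlt
  have hang : ∀ k, ang z (p k) (p (k + 1)) = θ := by
    intro k
    unfold ang
    have hne : p k - z ≠ 0 := by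
      intro h; have := hpz k; rw [h, norm_zero] at this; linarith
    rw [hsucc k, mul_comm, mul_div_assoc, div_self hne, mul_one, mul_comm, Complex.arg_exp_mul_I]
    rw [toIocMod_eq_self]
    have hθ : θ ≤ Real.pi := by
      simp only [θ]
      rw [div_le_iff₀ hn0]
      nlinarith [Real.pi_pos]
    have hθ0 : 0 < θ := by simp only [θ]; positivity
    constructor
    · linarith [Real.pi_pos]
    · linarith
  have hsum : ∑ k ∈ range n, (β (p (k + 1)) - β (p k)) = n * (a * θ) := by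
    have : ∀ k ∈ range n, β (p (k + 1)) - β (p k) = a * θ := by
      intro k _
      rw [← hβ (p k) (p (k+1)) (hadj k) (by rw [hpz]; exact le_max_left _ _)
        (by rw [hpz]; exact le_max_left _ _), hang k]
    rw [Finset.sum_congr rfl this]
    simp
  rw [Finset.sum_range_sub (fun k => β (p k))] at hsum
  have hpn0 : p n = p 0 := by
    simp only [p, θ]
    congr 2
    have h1 : ((n : ℝ) * (2 * Real.pi / n) : ℝ) = 2 * Real.pi := by field_simp
    rw [h1]
    simp only [Nat.cast_zero, zero_mul, Complex.ofReal_zero, mul_zero, Complex.exp_zero]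
    have : Complex.I * ((2 * Real.pi : ℝ) : ℂ) = 2 * Real.pi * Complex.I := by push_cast; ring
    rw [this, Complex.exp_two_pi_mul_I]
  rw [hpn0, sub_self] at hsum
  have h2 : (n:ℝ) * (a * θ) = a * (2 * Real.pi) := by
    simp only [θ]; field_simp
  rw [h2] at hsum
  have := Real.pi_pos
  rcases mul_eq_zero.1 hsum.symm with h | h
  · exact h
  · linarith

/-- gluing: if `a` times the winding cocycle around `z` agrees on the boundary of `X`, up to a
coboundary, with a cocycle defined on `X` and its boundary, then `a = 0` -/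
lemma glue (hτ : Scale τ) {X : Set ℂ} {z : ℂ} {R a : ℝ} (hR : ∀ v ∈ X, ‖v - z‖ < R)
    (hdeep : ∀ v, v ∉ X → 9 / 10 ≤ ‖v - z‖) {ψ : ℂ → ℂ → ℝ}
    (hψ : ∀ u ∈ X ∪ Bd τ X, ∀ v ∈ X ∪ Bd τ X, ∀ w ∈ X ∪ Bd τ X, Adj τ u v → Adj τ v w → Adj τ u w →
      ψ u v + ψ v w = ψ u w) {g : ℂ → ℝ}
    (hg : ∀ u ∈ Bd τ X, ∀ v ∈ Bd τ X, Adj τ u v → a * ang z u v = ψ u v + (g v - g u)) : a = 0 := by
  classical
  let Ω : ℂ → ℂ → ℝ := fun u v => if u ∈ X ∨ v ∈ X then ψ u v + (g v - g u) else a * ang z u v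
  have hΩ : ∀ u v w, Adj τ u v → Adj τ v w → Adj τ u w → Ω u v + Ω v w = Ω u w := by
    intro u v w huv hvw huw
    by_cases h : u ∈ X ∨ v ∈ X ∨ w ∈ X
    · -- all in `X ∪ Bd X`
      have hmem : ∀ p q, Adj τ p q → p ∈ X → q ∈ X ∪ Bd τ X := by
        intro p q hpq hp
        by_cases hq : q ∈ X
        · exact Or.inl hq
        · exact Or.inr ⟨hq, p, hp, hpq⟩
      have hall : u ∈ X ∪ Bd τ X ∧ v ∈ X ∪ Bd τ X ∧ w ∈ X ∪ Bd τ X := by
        rcases h with h | h | h
        · exact ⟨Or.inl h, hmem u v huv h, hmem u w huw h⟩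
        · exact ⟨hmem v u huv.symm h, Or.inl h, hmem v w hvw h⟩
        · exact ⟨hmem w u huw.symm h, hmem w v hvw.symm h, Or.inl h⟩
      have hform : ∀ p q, p ∈ X ∪ Bd τ X → q ∈ X ∪ Bd τ X → Adj τ p q →
          Ω p q = ψ p q + (g q - g p) := by
        intro p q hp hq hpq
        by_cases hX : p ∈ X ∨ q ∈ X
        · simp only [Ω, if_pos hX]
        · simp only [Ω, if_neg hX]
          push Not at hX
          exact hg p (hp.resolve_left hX.1) q (hq.resolve_left hX.2) hpq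
      rw [hform u v hall.1 hall.2.1 huv, hform v w hall.2.1 hall.2.2 hvw,
        hform u w hall.1 hall.2.2 huw]
      have := hψ u hall.1 v hall.2.1 w hall.2.2 huv hvw huw
      linarith
    · push Not at h
      obtain ⟨h1, h2, h3⟩ := h
      simp only [Ω, h1, h2, h3, or_self, if_false]
      rw [← mul_add]
      congr 1
      exact ang_add' (hdeep u h1) (hdeep v h2) (hdeep w h3) (by linarith [huv.lt hτ])
        (by linarith [hvw.lt hτ])
  obtain ⟨β, hβ⟩ := exact_plane hτ Ω hΩ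
  apply ne_exact hτ (z := z) (R := R) (β := β)
  intro u v huv hu hv
  have hu' : u ∉ X := fun h => absurd (hR u h) (not_lt.2 hu)
  have hv' : v ∉ X := fun h => absurd (hR v h) (not_lt.2 hv)
  rw [← hβ u v huv]
  simp [Ω, hu', hv']

end Pool.Agent.N466.Pl
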